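import Pool.Agent.H37.PS.Defs

/-!
PS Sqs: sums over squarefree numbers (note 5545, (3)).

`∑_{T ⊆ P} ∏_{l ∈ T} (E / l^(3/2)) = ∏_{l ∈ P} (1 + E / l^(3/2)) ≤ exp (E ∑ l^(-3/2)) ≤ C` (`Finset.prod_one_add`, `∑ 1/(l √l)` bounded).
`sum_small`: `d² ≥ d √d`.  `sum_large`: for `d > y`: `1/d² ≤ 1/(√y · d √d)`.  `sum_count`: for `d ≤ y²`: `1 ≤ y³/(d √d)`.
-/

set_option autoImplicit false

namespace Pool.Agent.H37.PS

open Finset Pool.Agent.H37.PPC Pool.Agent.H37.PPD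

private theorem sqrt_prodN (T : Finset ℕ) : Real.sqrt (∏ l ∈ T, (l : ℝ)) = ∏ l ∈ T, Real.sqrt (l : ℝ) := by
  classical
  induction T using Finset.induction_on with
  | empty => simp
  | insert a s ha ih =>
    rw [Finset.prod_insert ha, Finset.prod_insert ha, Real.sqrt_mul (Nat.cast_nonneg a), ih]

private theorem term_eq (E : ℝ) (T : Finset ℕ) :
    ∏ l ∈ T, (E / ((l : ℝ) * Real.sqrt (l : ℝ))) =
      E ^ T.card / (((∏ l ∈ T, l : ℕ) : ℝ) * Real.sqrt ((∏ l ∈ T, l : ℕ) : ℝ)) := by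
  rw [Finset.prod_div_distrib, Finset.prod_const, Finset.prod_mul_distrib, ← sqrt_prodN]
  push_cast
  rfl

private theorem summ : Summable fun n : ℕ => 1 / ((n : ℝ) * Real.sqrt (n : ℝ)) := by
  have h := (Real.summable_one_div_nat_rpow (p := 3 / 2)).2 (by norm_num)
  refine h.congr fun n => ?_
  congr 1
  rcases Nat.eq_zero_or_pos n with hn | hn
  · subst hn
    rw [Nat.cast_zero, Real.zero_rpow (by norm_num)]
    simp
  · have hn' : (0 : ℝ) < (n : ℝ) := Nat.cast_pos.2 hn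
    rw [Real.sqrt_eq_rpow, show (3 / 2 : ℝ) = 1 + 1 / 2 by norm_num, Real.rpow_add hn', Real.rpow_one]

private theorem total (E : ℝ) (hE : 0 ≤ E) (P : Finset ℕ) :
    ∑ T ∈ P.powerset, E ^ T.card / (((∏ l ∈ T, l : ℕ) : ℝ) * Real.sqrt ((∏ l ∈ T, l : ℕ) : ℝ)) ≤
      Real.exp (E * ∑' n : ℕ, 1 / ((n : ℝ) * Real.sqrt (n : ℝ))) := by
  have h1 : ∑ T ∈ P.powerset, E ^ T.card / (((∏ l ∈ T, l : ℕ) : ℝ) * Real.sqrt ((∏ l ∈ T, l : ℕ) : ℝ)) =
      ∏ l ∈ P, (1 + E / ((l : ℝ) * Real.sqrt (l : ℝ))) := by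
    rw [Finset.prod_one_add]
    exact Finset.sum_congr rfl fun T _ => (term_eq E T).symm
  rw [h1]
  have h2 : ∏ l ∈ P, (1 + E / ((l : ℝ) * Real.sqrt (l : ℝ))) ≤
      ∏ l ∈ P, Real.exp (E / ((l : ℝ) * Real.sqrt (l : ℝ))) := by
    refine Finset.prod_le_prod (fun l _ => ?_) (fun l _ => ?_)
    · have : 0 ≤ E / ((l : ℝ) * Real.sqrt (l : ℝ)) := by positivity
      linarith
    · have := Real.add_one_le_exp (E / ((l : ℝ) * Real.sqrt (l : ℝ)))
      linarith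
  refine h2.trans ?_
  rw [← Real.exp_sum]
  refine Real.exp_le_exp.2 ?_
  have h3 : ∑ l ∈ P, E / ((l : ℝ) * Real.sqrt (l : ℝ)) = E * ∑ l ∈ P, 1 / ((l : ℝ) * Real.sqrt (l : ℝ)) := by
    rw [Finset.mul_sum]
    exact Finset.sum_congr rfl fun l _ => by rw [mul_one_div]
  rw [h3]
  refine mul_le_mul_of_nonneg_left ?_ hE
  exact summ.sum_le_tsum P (fun n _ => by positivity)

theorem sums_sqf (E : ℝ) (hE : 0 ≤ E) : ∃ C : ℝ, 0 < C ∧ ∀ y : ℕ, 2 ≤ y →
    (∑ T ∈ (pr 2 (y + 1)).powerset, E ^ T.card / ((∏ l ∈ T, l : ℕ) : ℝ) ^ 2 ≤ C) ∧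
    (∑ T ∈ (pr 2 (y + 1)).powerset with y < ∏ l ∈ T, l, E ^ T.card / ((∏ l ∈ T, l : ℕ) : ℝ) ^ 2 ≤ C / Real.sqrt y) ∧
    (∑ T ∈ (pr 2 (y + 1)).powerset with ∏ l ∈ T, l ≤ y ^ 2, E ^ T.card ≤ C * y ^ 3) := by
  refine ⟨Real.exp (E * ∑' n : ℕ, 1 / ((n : ℝ) * Real.sqrt (n : ℝ))), Real.exp_pos _, fun y hy => ?_⟩
  have htot := total E hE (pr 2 (y + 1))
  set C := Real.exp (E * ∑' n : ℕ, 1 / ((n : ℝ) * Real.sqrt (n : ℝ))) with hC
  -- the products are at least one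
  have hd : ∀ T ∈ (pr 2 (y + 1)).powerset, (1 : ℝ) ≤ ((∏ l ∈ T, l : ℕ) : ℝ) := by
    intro T hT
    have h1 : 0 < ∏ l ∈ T, l := Finset.prod_pos fun l hl => by
      have h2 := Finset.mem_powerset.1 hT hl
      exact (Finset.mem_filter.1 h2).2.pos
    exact_mod_cast h1
  have hyr : (0 : ℝ) < (y : ℝ) := Nat.cast_pos.2 (by omega)
  refine ⟨?_, ?_, ?_⟩
  · refine le_trans (Finset.sum_le_sum fun T hT => ?_) htot
    have h1 := hd T hT
    set d : ℝ := ((∏ l ∈ T, l : ℕ) : ℝ) with hdd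
    have hs : Real.sqrt d ≤ d := by
      rw [Real.sqrt_le_left (by linarith)]
      nlinarith
    have hs0 : 0 < Real.sqrt d := Real.sqrt_pos.2 (by linarith)
    refine div_le_div_of_nonneg_left (by positivity) (by positivity) ?_
    nlinarith
  · rw [div_eq_mul_inv C, mul_comm C]
    refine le_trans (Finset.sum_le_sum (g := fun T => (Real.sqrt y)⁻¹ *
      (E ^ T.card / (((∏ l ∈ T, l : ℕ) : ℝ) * Real.sqrt ((∏ l ∈ T, l : ℕ) : ℝ)))) fun T hT => ?_) ?_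
    · rw [Finset.mem_filter] at hT
      have h1 := hd T hT.1
      have h2 : (y : ℝ) ≤ ((∏ l ∈ T, l : ℕ) : ℝ) := by exact_mod_cast hT.2.le
      set d : ℝ := ((∏ l ∈ T, l : ℕ) : ℝ) with hdd
      have hs0 : 0 < Real.sqrt d := Real.sqrt_pos.2 (by linarith)
      have hy0 : 0 < Real.sqrt (y : ℝ) := Real.sqrt_pos.2 hyr
      have hys : Real.sqrt (y : ℝ) ≤ Real.sqrt d := Real.sqrt_le_sqrt h2
      have hsq : Real.sqrt d * Real.sqrt d = d := Real.mul_self_sqrt (by linarith)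
      rw [inv_mul_eq_div, div_div]
      refine div_le_div_of_nonneg_left (by positivity) (by positivity) ?_
      calc d * Real.sqrt d * Real.sqrt (y : ℝ) ≤ d * Real.sqrt d * Real.sqrt d := by
            refine mul_le_mul_of_nonneg_left hys (by positivity)
        _ = d * (Real.sqrt d * Real.sqrt d) := by ring
        _ = d ^ 2 := by rw [hsq]; ring
    · rw [← Finset.mul_sum]
      refine mul_le_mul_of_nonneg_left ?_ (by positivity)
      refine le_trans (Finset.sum_le_sum_of_subset_of_nonneg (Finset.filter_subset _ _) fun T _ _ => ?_) htot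
      positivity
  · rw [mul_comm C]
    refine le_trans (Finset.sum_le_sum (g := fun T => (y : ℝ) ^ 3 *
      (E ^ T.card / (((∏ l ∈ T, l : ℕ) : ℝ) * Real.sqrt ((∏ l ∈ T, l : ℕ) : ℝ)))) fun T hT => ?_) ?_
    · rw [Finset.mem_filter] at hT
      have h1 := hd T hT.1
      have h2 : ((∏ l ∈ T, l : ℕ) : ℝ) ≤ (y : ℝ) ^ 2 := by exact_mod_cast hT.2
      set d : ℝ := ((∏ l ∈ T, l : ℕ) : ℝ) with hdd
      have hs0 : 0 < Real.sqrt d := Real.sqrt_pos.2 (by linarith)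
      have hsy : Real.sqrt d ≤ (y : ℝ) := by
        rw [Real.sqrt_le_left hyr.le]
        exact h2
      rw [← mul_div_assoc, le_div_iff₀ (by positivity), mul_comm]
      refine mul_le_mul_of_nonneg_right ?_ (by positivity)
      calc d * Real.sqrt d ≤ (y : ℝ) ^ 2 * (y : ℝ) := by
            refine mul_le_mul h2 hsy hs0.le (by positivity)
        _ = (y : ℝ) ^ 3 := by ring
    · rw [← Finset.mul_sum]
      refine mul_le_mul_of_nonneg_left ?_ (by positivity)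
      refine le_trans (Finset.sum_le_sum_of_subset_of_nonneg (Finset.filter_subset _ _) fun T _ _ => ?_) htot
      positivity

end Pool.Agent.H37.PS
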