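import Pool.Agent.H37.PS.Sqr
import Pool.Agent.H37.PS.Sqs
import Pool.Agent.H37.PP.Sv
import Pool.Agent.H37.PB.Wt

/-!
PS Sq: few `m` have all their large primes `p ∣ h(m)` with `p² ∣ h(m)`; sharp form (note 5545, (3)).  Compare H37/PP/Sq.lean.

`exists_wt h0`, `exists_wt h`, `roots_sq h` (constants `D`), `sieve3 κ` with the polynomials `h0, h, 1` and `κ = D0 + D`, `K0` larger than all the constants `B`, `κ`;
`y` = integer root of `Y` of order `s + 4`; `P = pr (K0 + 1) (y + 1)`; `E = D e^(4D) e^(D0 ...)` a constant (`≥ 1`).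
For `m ∈ S` let `T m = {l ∈ P : l ∣ h(m)}`, `d = ∏ T`; then `d² ∣ h(m)`.
(a) `d ≤ y²`: for each `T ⊆ P` with `d ≤ y²` the `m ∈ S` with `T m = T` lie in at most `D^|T|` classes `c` mod `d²` (`roots_sq`); in each `sieve3` with modulus `d²`
(`d² y^s ≤ y^(s+4) ≤ Y`), `Z1 = P \ T`, `Z0 = if t then P \ T else ∅`, `Z2 = ∅`: at most `C (Y/d²) exp(-∑_{P \ T} ..)`,
`∑_{P \ T} w/l ≥ ∑_P w/l - D |T|` (`w l / l ≤ D`), `∑_P w/l ≥ ll (y+1) - ll (K0+1) - C`.  Sum over `T`: `sums_sqf`, first part.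
(b) `d > y²`: multiply the primes of `T` (all `≤ y`) one by one; there is `T' ⊆ T m` with `y < d' ≤ y²` and `d'² ∣ h(m)`:
at most `∑_{T'} D^|T'| (Y/d'² + 1) ≤ C Y/√y + C y³` by the second and third parts; `y³ ≤ Y^(3/4)`, `Y/√y ≤ C Y/(log Y)²`.
Small `Y` (`Y < 2^(s+4)` or `y ≤ K0`): trivial bound `S.card ≤ Y`.
-/

set_option autoImplicit false

namespace Pool.Agent.H37.PS

open Finset Polynomial Pool.Agent.H37.PPC Pool.Agent.H37.PPD Pool.Agent.H37.PB Pool.Agent.H37.PP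

private theorem sqs_exists_root (t x : ℕ) (ht : 1 ≤ t) (hx : 2 ^ t ≤ x) :
    ∃ y : ℕ, 2 ≤ y ∧ y ^ t ≤ x ∧ x < (y + 1) ^ t := by
  classical
  refine ⟨Nat.findGreatest (fun y => y ^ t ≤ x) x, ?_, ?_, ?_⟩
  · have h2x : 2 ≤ x := by
      calc 2 = 2 ^ 1 := by norm_num
        _ ≤ 2 ^ t := Nat.pow_le_pow_right (by norm_num) ht
        _ ≤ x := hx
    exact Nat.le_findGreatest (P := fun y => y ^ t ≤ x) h2x hx
  · have h : 0 ^ t ≤ x := by rw [zero_pow (by omega)]; exact Nat.zero_le _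
    exact Nat.findGreatest_spec (P := fun y => y ^ t ≤ x) (Nat.zero_le x) h
  · by_contra hcon
    push Not at hcon
    have h1 : Nat.findGreatest (fun y => y ^ t ≤ x) x + 1 ≤ x :=
      (Nat.le_self_pow (by omega) _).trans hcon
    have h2 := Nat.le_findGreatest (P := fun y => y ^ t ≤ x) h1 hcon
    omega

private theorem sqs_log3 : (1 : ℝ) < Real.log 3 := by
  rw [Real.lt_log_iff_exp_lt (by norm_num)]
  have := Real.exp_one_lt_d9
  linarith

private theorem sqs_log_ge {Y : ℕ} (hY : 3 ≤ Y) : (1 : ℝ) < Real.log Y := by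
  refine sqs_log3.trans_le (Real.log_le_log (by norm_num) ?_)
  exact_mod_cast hY

private theorem sqs_card_class (M : ℤ) (Y n : ℕ) (hn : 0 < n) (v : ℤ) :
    (((Finset.Ioc M (M + Y)).filter fun x : ℤ => x ≡ v [ZMOD n]).card : ℝ) ≤ (Y : ℝ) / n + 1 := by
  have hn' : (0 : ℤ) < n := by exact_mod_cast hn
  have h := Int.Ioc_filter_modEq_card M (M + Y) hn' v
  have hnq : (0 : ℚ) < n := by exact_mod_cast hn
  set a := ⌊(((M + Y : ℤ) : ℚ) - v) / ((n : ℤ) : ℚ)⌋ with ha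
  set b := ⌊((M : ℚ) - v) / ((n : ℤ) : ℚ)⌋ with hb
  have h1 : (a : ℚ) ≤ (((M + Y : ℤ) : ℚ) - v) / ((n : ℤ) : ℚ) := Int.floor_le _
  have h2 : ((M : ℚ) - v) / ((n : ℤ) : ℚ) < b + 1 := Int.lt_floor_add_one _
  have h3 : ((a - b : ℤ) : ℚ) ≤ (Y : ℚ) / n + 1 := by
    push_cast at h1 h2 ⊢
    have h4 : ((M : ℚ) + Y - v) / n = ((M : ℚ) - v) / n + Y / n := by
      rw [← add_div]
      congr 1
      ring
    rw [h4] at h1
    linarith
  have h5 : (((((Finset.Ioc M (M + Y)).filter fun x : ℤ => x ≡ v [ZMOD n]).card : ℤ)) : ℚ) ≤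
      (Y : ℚ) / n + 1 := by
    rw [h]
    rcases le_total (a - b) 0 with h6 | h6
    · rw [max_eq_right h6]
      push_cast
      positivity
    · rw [max_eq_left h6]
      exact h3
  have h7 : ((((Finset.Ioc M (M + Y)).filter fun x : ℤ => x ≡ v [ZMOD n]).card : ℚ)) ≤
      (Y : ℚ) / n + 1 := by
    exact_mod_cast h5
  have h8 : (((((Finset.Ioc M (M + Y)).filter fun x : ℤ => x ≡ v [ZMOD n]).card : ℚ) : ℝ)) ≤
      (((Y : ℚ) / n + 1 : ℚ) : ℝ) := Rat.cast_le.2 h7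
  push_cast at h8
  exact h8

/-- counting over the root classes -/
private theorem sqs_fib (h : ℤ[X]) (n : ℕ) (hn : 0 < n) (S : Finset ℤ) (N : ℕ) (b : ℝ) (hb : 0 ≤ b)
    (hR : ((range n).filter fun c : ℕ => ((n : ℕ) : ℤ) ∣ h.eval (c : ℤ)).card ≤ N)
    (hS : ∀ m ∈ S, ((n : ℕ) : ℤ) ∣ h.eval m)
    (hc : ∀ c : ℕ, ((S.filter fun m : ℤ => ((n : ℕ) : ℤ) ∣ m - c).card : ℝ) ≤ b) :
    (S.card : ℝ) ≤ N * b := by
  have hn0 : (0 : ℤ) < n := by exact_mod_cast hn
  have hmap : ∀ m ∈ S, (m % (n : ℤ)).toNat ∈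
      ((range n).filter fun c : ℕ => ((n : ℕ) : ℤ) ∣ h.eval (c : ℤ)) := by
    intro m hm
    have h1 : 0 ≤ m % (n : ℤ) := Int.emod_nonneg _ hn0.ne'
    have h2 : m % (n : ℤ) < n := Int.emod_lt_of_pos _ hn0
    rw [mem_filter, mem_range]
    refine ⟨by omega, ?_⟩
    rw [Int.toNat_of_nonneg h1]
    exact (dvd_eval_congr h n m (m % (n : ℤ)) Int.dvd_self_sub_emod).1 (hS m hm)
  have hfib : ∀ r ∈ ((range n).filter fun c : ℕ => ((n : ℕ) : ℤ) ∣ h.eval (c : ℤ)),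
      ((S.filter fun m : ℤ => (m % (n : ℤ)).toNat = r).card : ℝ) ≤ b := by
    intro r _
    refine le_trans ?_ (hc r)
    have h0 : (S.filter fun m : ℤ => (m % (n : ℤ)).toNat = r) ⊆
        S.filter fun m : ℤ => ((n : ℕ) : ℤ) ∣ m - r := by
      intro m hm
      rw [mem_filter] at hm ⊢
      refine ⟨hm.1, ?_⟩
      have h1 : 0 ≤ m % (n : ℤ) := Int.emod_nonneg _ hn0.ne'
      have h4 : m % (n : ℤ) = r := by
        have := hm.2
        omega
      rw [← h4]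
      exact Int.dvd_self_sub_emod
    exact_mod_cast card_le_card h0
  have hcard : (S.card : ℝ) = ∑ r ∈ ((range n).filter fun c : ℕ => ((n : ℕ) : ℤ) ∣ h.eval (c : ℤ)),
      ((S.filter fun m : ℤ => (m % (n : ℤ)).toNat = r).card : ℝ) := by
    rw [card_eq_sum_card_fiberwise hmap]
    push_cast
    rfl
  rw [hcard]
  calc _ ≤ ∑ _r ∈ ((range n).filter fun c : ℕ => ((n : ℕ) : ℤ) ∣ h.eval (c : ℤ)), b := sum_le_sum hfib
    _ = (((range n).filter fun c : ℕ => ((n : ℕ) : ℤ) ∣ h.eval (c : ℤ)).card : ℝ) * b := by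
        rw [sum_const, nsmul_eq_mul]
    _ ≤ N * b := mul_le_mul_of_nonneg_right (by exact_mod_cast hR) hb

/-- the square of a product of different primes divides -/
private theorem sqs_dvd (T : Finset ℕ) (hT : ∀ l ∈ T, l.Prime) (x : ℤ) (h : ∀ l ∈ T, (l : ℤ) ^ 2 ∣ x) :
    (((∏ l ∈ T, l) ^ 2 : ℕ) : ℤ) ∣ x := by
  have h1 : (((∏ l ∈ T, l) ^ 2 : ℕ) : ℤ) = ∏ l ∈ T, (l : ℤ) ^ 2 := by
    push_cast
    rw [Finset.prod_pow]
  rw [h1]
  refine Finset.prod_dvd_of_coprime ?_ h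
  intro a ha b hb hab
  show IsCoprime ((a : ℤ) ^ 2) ((b : ℤ) ^ 2)
  refine IsCoprime.pow ?_
  exact Nat.isCoprime_iff_coprime.2 ((Nat.coprime_primes (hT a ha) (hT b hb)).2 hab)

/-- a subset with product between `y` and `y²` -/
private theorem sqs_mid (T : Finset ℕ) (y : ℕ) (hy : 1 ≤ y) (hT : ∀ l ∈ T, l ≤ y)
    (h : y < ∏ l ∈ T, l) : ∃ T' ⊆ T, y < ∏ l ∈ T', l ∧ ∏ l ∈ T', l ≤ y ^ 2 := by
  classical
  induction T using Finset.induction_on with
  | empty =>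
    rw [prod_empty] at h
    omega
  | insert a T ha ih =>
    by_cases h1 : y < ∏ l ∈ T, l
    · obtain ⟨T', hT', h2⟩ := ih (fun l hl => hT l (mem_insert_of_mem hl)) h1
      exact ⟨T', hT'.trans (subset_insert _ _), h2⟩
    · refine ⟨insert a T, Subset.rfl, h, ?_⟩
      rw [prod_insert ha]
      have := hT a (mem_insert_self _ _)
      calc a * ∏ l ∈ T, l ≤ y * y := Nat.mul_le_mul this (not_lt.1 h1)
        _ = y ^ 2 := (sq y).symm

private theorem sqs_rt_one {l : ℕ} (hl : l.Prime) : rt 1 l = ∅ := by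
  rw [rt, filter_eq_empty_iff]
  intro r _ h4
  rw [eval_one] at h4
  exact (Nat.prime_iff_prime_int.1 hl).not_isUnit (isUnit_of_dvd_one h4)

/-- the Mertens factor -/
private theorem sqs_mert (f : ℤ[X]) (Bf Df : ℕ) (Cf : ℝ) (wf : ℕ → ℝ) (hwf : Wt f Bf Df Cf wf)
    (K Y y u : ℕ) (hK1 : 1 ≤ K) (hBK : Bf < K + 1) (hKy : K ≤ y) (hY : 3 ≤ Y) (hYy : Y < (y + 1) ^ u) :
    Real.exp (-∑ l ∈ pr (K + 1) (y + 1), ((rt f l).card : ℝ) / l) ≤
      Real.exp Cf * (u * Real.log ((K + 1 : ℕ) : ℝ)) / Real.log Y := by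
  have h3 := abs_le.1 (hwf.me (K + 1) (y + 1) (by omega) (by omega))
  have h4 : ∑ l ∈ pr (K + 1) (y + 1), wf l / l ≤
      ∑ l ∈ pr (K + 1) (y + 1), ((rt f l).card : ℝ) / l := by
    refine sum_le_sum fun l hl => ?_
    rw [mem_pr] at hl
    exact div_le_div_of_nonneg_right (hwf.lo l hl.2 (by omega)) (Nat.cast_nonneg _)
  have hY0 : (0 : ℝ) < Y := by exact_mod_cast (by omega : 0 < Y)
  have hL : 0 < Real.log Y := by linarith [sqs_log_ge hY]
  have hz0 : 0 < Real.log ((K + 1 : ℕ) : ℝ) := Real.log_pos (by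
    exact_mod_cast (by omega : 1 < K + 1))
  have hy0 : 0 < Real.log ((y + 1 : ℕ) : ℝ) := Real.log_pos (by
    exact_mod_cast (by omega : 1 < y + 1))
  have h5 : Real.log Y ≤ u * Real.log ((y + 1 : ℕ) : ℝ) := by
    rw [← Real.log_pow]
    refine Real.log_le_log hY0 ?_
    exact_mod_cast hYy.le
  calc Real.exp (-∑ l ∈ pr (K + 1) (y + 1), ((rt f l).card : ℝ) / l)
      ≤ Real.exp (Cf + (ll (K + 1) - ll (y + 1))) := Real.exp_le_exp.2 (by linarith [h3.1])
    _ = Real.exp Cf * (Real.log ((K + 1 : ℕ) : ℝ) / Real.log ((y + 1 : ℕ) : ℝ)) := by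
        rw [Real.exp_add, Real.exp_sub]
        unfold ll
        rw [Real.exp_log hz0, Real.exp_log hy0]
    _ ≤ Real.exp Cf * ((u * Real.log ((K + 1 : ℕ) : ℝ)) / Real.log Y) := by
        refine mul_le_mul_of_nonneg_left ?_ (Real.exp_pos _).le
        rw [div_le_div_iff₀ hy0 hL]
        calc Real.log ((K + 1 : ℕ) : ℝ) * Real.log Y
            ≤ Real.log ((K + 1 : ℕ) : ℝ) * (u * Real.log ((y + 1 : ℕ) : ℝ)) :=
              mul_le_mul_of_nonneg_left h5 hz0.le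
          _ = _ := by ring
    _ = _ := (mul_div_assoc _ _ _).symm

/-- removing `T` -/
private theorem sqs_sdiff (f : ℤ[X]) (P T : Finset ℕ) (Df : ℕ) (hT : T ⊆ P) (hP : ∀ l ∈ P, 1 ≤ l)
    (hD : ∀ l ∈ P, (rt f l).card ≤ Df) :
    -(∑ l ∈ P \ T, ((rt f l).card : ℝ) / l) ≤
      -(∑ l ∈ P, ((rt f l).card : ℝ) / l) + Df * T.card := by
  classical
  have h1 : ∑ l ∈ P \ T, ((rt f l).card : ℝ) / l + ∑ l ∈ T, ((rt f l).card : ℝ) / l =
      ∑ l ∈ P, ((rt f l).card : ℝ) / l := sum_sdiff hT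
  have h2 : ∑ l ∈ T, ((rt f l).card : ℝ) / l ≤ Df * T.card := by
    calc ∑ l ∈ T, ((rt f l).card : ℝ) / l ≤ ∑ _l ∈ T, (Df : ℝ) := by
          refine sum_le_sum fun l hl => ?_
          have h3 : (1 : ℝ) ≤ l := by exact_mod_cast hP l (hT hl)
          have h4 : ((rt f l).card : ℝ) ≤ Df := by exact_mod_cast hD l (hT hl)
          calc ((rt f l).card : ℝ) / l ≤ ((rt f l).card : ℝ) := div_le_self (Nat.cast_nonneg _) h3
            _ ≤ Df := h4
      _ = Df * T.card := by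
          rw [sum_const, nsmul_eq_mul, mul_comm]
  linarith

/-- `(log Y)² ≤ 32 u² √y` -/
private theorem sqs_log_sqrt (Y y u : ℕ) (hY : 3 ≤ Y) (hy : 2 ≤ y) (hYy : Y < (y + 1) ^ u) :
    Real.log Y ^ 2 ≤ 32 * (u : ℝ) ^ 2 * Real.sqrt y := by
  have hY0 : (0 : ℝ) < Y := by exact_mod_cast (by omega : 0 < Y)
  have hL : 0 < Real.log Y := by linarith [sqs_log_ge hY]
  have hy1 : (2 : ℝ) ≤ y := by exact_mod_cast hy
  have h5 : Real.log Y ≤ u * Real.log ((y + 1 : ℕ) : ℝ) := by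
    rw [← Real.log_pow]
    refine Real.log_le_log hY0 ?_
    exact_mod_cast hYy.le
  obtain ⟨v, hv⟩ : ∃ v : ℝ, v = ((y + 1 : ℕ) : ℝ) := ⟨_, rfl⟩
  have hv0 : 0 < v := by
    rw [hv]
    positivity
  have hs0 : 0 < Real.sqrt v := Real.sqrt_pos.2 hv0
  have h4 : Real.log v ≤ 4 * Real.sqrt (Real.sqrt v) := by
    have h5 : Real.log (Real.sqrt (Real.sqrt v)) ≤ Real.sqrt (Real.sqrt v) := by
      have := Real.log_le_sub_one_of_pos (Real.sqrt_pos.2 hs0)
      linarith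
    rw [Real.log_sqrt hs0.le, Real.log_sqrt hv0.le] at h5
    linarith
  have h6 : Real.sqrt (Real.sqrt v) * Real.sqrt (Real.sqrt v) = Real.sqrt v := Real.mul_self_sqrt hs0.le
  have hlv : 0 ≤ Real.log v := by
    rw [hv]
    exact Real.log_natCast_nonneg _
  have h7 : Real.log v ^ 2 ≤ 16 * Real.sqrt v := by
    calc Real.log v ^ 2 ≤ (4 * Real.sqrt (Real.sqrt v)) ^ 2 := pow_le_pow_left₀ hlv h4 2
      _ = 16 * Real.sqrt v := by
        linear_combination 16 * h6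
  have h8 : Real.sqrt v ≤ 2 * Real.sqrt y := by
    rw [Real.sqrt_le_iff]
    refine ⟨by positivity, ?_⟩
    rw [mul_pow, Real.sq_sqrt (by linarith), hv]
    push_cast
    linarith
  rw [← hv] at h5
  calc Real.log Y ^ 2 ≤ (u * Real.log v) ^ 2 := pow_le_pow_left₀ hL.le h5 2
    _ = (u : ℝ) ^ 2 * Real.log v ^ 2 := by ring
    _ ≤ (u : ℝ) ^ 2 * (16 * (2 * Real.sqrt y)) := by
        refine mul_le_mul_of_nonneg_left (h7.trans ?_) (by positivity)
        linarith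
    _ = _ := by ring

theorem sq_sharp (t : Bool) (h0 h : ℤ[X]) (hd0 : 1 ≤ h0.natDegree) (hi : Irreducible h) (hd : 1 ≤ h.natDegree) (B : ℕ)
    (hc : Cop B h0 h) :
    ∃ C : ℝ, 0 < C ∧ ∀ (Y : ℕ) (M : ℤ), 3 ≤ Y → ∀ S : Finset ℤ, (∀ m ∈ S, M < m ∧ m ≤ M + Y) →
      (t = true → ∀ m ∈ S, ∀ l : ℕ, l.Prime → l ^ 2 ≤ Y → ¬ (l : ℤ) ∣ h0.eval m) →
      (∀ m ∈ S, ∀ p : ℕ, p.Prime → B < p → (p : ℤ) ∣ h.eval m → (p : ℤ) ^ 2 ∣ h.eval m) →
      (S.card : ℝ) ≤ C * (Y / Real.log Y ^ (if t then 2 else 1)) := by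
  classical
  obtain ⟨B00, D0, C0, w0, hw0⟩ := exists_wt h0 hd0
  obtain ⟨B0, D, Cw, w, hw⟩ := exists_wt h hd
  obtain ⟨B1, D1, hB1⟩ := roots_sq h hi hd
  obtain ⟨Cs, hCs, s, hs, hsv⟩ := sieve3 (D0 + D)
  obtain ⟨G, hG⟩ : ∃ G : ℝ, G = Real.exp (D0 + D) := ⟨_, rfl⟩
  have hG1 : 1 ≤ G := by
    rw [hG]
    exact Real.one_le_exp (by positivity)
  obtain ⟨E, hE⟩ : ∃ E : ℝ, E = (D1 : ℝ) * G := ⟨_, rfl⟩
  have hD10 : (0 : ℝ) ≤ D1 := Nat.cast_nonneg _
  have hE0 : 0 ≤ E := by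
    rw [hE]
    positivity
  have hD1E : (D1 : ℝ) ≤ E := by
    rw [hE]
    exact le_mul_of_one_le_right hD10 hG1
  obtain ⟨CE, hCE, hsum⟩ := sums_sqf E hE0
  obtain ⟨K, hK⟩ : ∃ K : ℕ, K = B + B00 + B0 + B1 + D0 + D + 1 := ⟨_, rfl⟩
  obtain ⟨u, hu⟩ : ∃ u : ℕ, u = s + 4 := ⟨_, rfl⟩
  have hLK : 0 ≤ Real.log ((K + 1 : ℕ) : ℝ) := Real.log_natCast_nonneg _
  obtain ⟨a0, ha0⟩ : ∃ a0 : ℝ, a0 = Real.exp C0 * (u * Real.log ((K + 1 : ℕ) : ℝ)) := ⟨_, rfl⟩
  obtain ⟨a1, ha1⟩ : ∃ a1 : ℝ, a1 = Real.exp Cw * (u * Real.log ((K + 1 : ℕ) : ℝ)) := ⟨_, rfl⟩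
  have ha00 : 0 ≤ a0 := by
    rw [ha0]
    positivity
  have ha10 : 0 ≤ a1 := by
    rw [ha1]
    positivity
  obtain ⟨A1, hA1⟩ : ∃ A1 : ℝ, A1 = (if t = true then a0 else 1) * a1 := ⟨_, rfl⟩
  have hA10 : 0 ≤ A1 := by
    rw [hA1]
    split_ifs
    · positivity
    · positivity
  obtain ⟨e, he⟩ : ∃ e : ℕ, e = if t = true then 2 else 1 := ⟨_, rfl⟩
  have he2 : e ≤ 2 := by
    rw [he]
    split_ifs
    · exact le_rfl
    · exact one_le_two
  obtain ⟨A, hA⟩ : ∃ A : ℝ, A = (u * (K + 2)) ^ 2 + Cs * A1 * CE + 64 * CE * u ^ 2 + 1 := ⟨_, rfl⟩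
  refine ⟨A, by rw [hA]; positivity, fun Y M hY S hS hS0 hSp => ?_⟩
  rw [← he]
  have hY1 := sqs_log_ge hY
  have hL : 0 < Real.log Y := by linarith
  have hY0 : (0 : ℝ) < Y := by exact_mod_cast (by omega : 0 < Y)
  obtain ⟨Q, hQ⟩ : ∃ Q : ℝ, Q = (Y : ℝ) / Real.log Y ^ e := ⟨_, rfl⟩
  have hQ0 : 0 < Q := by
    rw [hQ]
    positivity
  rw [← hQ]
  have hLe : Real.log Y ^ e ≤ Real.log Y ^ 2 := pow_le_pow_right₀ hY1.le he2
  have hQ2 : (Y : ℝ) / Real.log Y ^ 2 ≤ Q := by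
    rw [hQ]
    exact div_le_div_of_nonneg_left hY0.le (by positivity) hLe
  -- trivial bound
  have htriv : (S.card : ℝ) ≤ Y := by
    have h1 : S ⊆ Finset.Ioc M (M + Y) := fun m hm => mem_Ioc.2 (hS m hm)
    have h2 := card_le_card h1
    rw [Int.card_Ioc] at h2
    have h3 : (M + (Y : ℤ) - M).toNat = Y := by omega
    rw [h3] at h2
    exact_mod_cast h2
  have hsmall : Real.log Y ≤ u * (K + 2) → (S.card : ℝ) ≤ A * Q := by
    intro h1
    have h2 : Real.log Y ^ 2 ≤ (u * (K + 2)) ^ 2 := pow_le_pow_left₀ hL.le h1 2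
    have h3 : (Y : ℝ) ≤ (u * (K + 2)) ^ 2 * Q := by
      calc (Y : ℝ) = Y / Real.log Y ^ 2 * Real.log Y ^ 2 := by
            rw [div_mul_cancel₀ _ (by positivity)]
        _ ≤ Q * (u * (K + 2)) ^ 2 := mul_le_mul hQ2 h2 (by positivity) hQ0.le
        _ = _ := by ring
    refine htriv.trans (h3.trans (mul_le_mul_of_nonneg_right ?_ hQ0.le))
    rw [hA]
    have h4 : 0 ≤ Cs * A1 * CE + 64 * CE * u ^ 2 + 1 := by positivity
    linarith
  have hu1 : (1 : ℝ) ≤ u := by exact_mod_cast (by omega : 1 ≤ u)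
  have hK0 : (0 : ℝ) ≤ K := Nat.cast_nonneg _
  by_cases hYt : Y < 2 ^ u
  · apply hsmall
    have h1 : Real.log Y ≤ u * Real.log 2 := by
      rw [← Real.log_pow]
      refine Real.log_le_log hY0 ?_
      exact_mod_cast hYt.le
    have h2 : Real.log 2 ≤ 1 := by
      have := Real.log_two_lt_d9
      linarith
    exact h1.trans (mul_le_mul_of_nonneg_left (by linarith) (by linarith))
  obtain ⟨y, hy2, hyY, hYy⟩ := sqs_exists_root u Y (by omega) (not_lt.1 hYt)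
  by_cases hyK : y < K
  · apply hsmall
    have h1 : Y ≤ (K + 1) ^ u := hYy.le.trans (Nat.pow_le_pow_left (by omega) u)
    have h2 : Real.log Y ≤ u * Real.log ((K + 1 : ℕ) : ℝ) := by
      rw [← Real.log_pow]
      refine Real.log_le_log hY0 ?_
      exact_mod_cast h1
    have h3 : Real.log ((K + 1 : ℕ) : ℝ) ≤ K + 2 := by
      have := Real.log_le_sub_one_of_pos (show (0 : ℝ) < ((K + 1 : ℕ) : ℝ) by positivity)
      push_cast at this ⊢
      linarith
    exact h2.trans (mul_le_mul_of_nonneg_left h3 (by linarith))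
  have hKy : K ≤ y := not_lt.1 hyK
  -- the primes
  obtain ⟨P, hP⟩ : ∃ P : Finset ℕ, P = pr (K + 1) (y + 1) := ⟨_, rfl⟩
  have hPm : ∀ l ∈ P, l.Prime ∧ K < l ∧ l ≤ y := by
    intro l hl
    rw [hP, mem_pr] at hl
    exact ⟨hl.2, by omega, by omega⟩
  have hP2 : P ⊆ pr 2 (y + 1) := by
    intro l hl
    have := hPm l hl
    rw [mem_pr]
    exact ⟨⟨this.1.two_le, by omega⟩, this.1⟩
  have hysq : y ^ 2 ≤ Y := (Nat.pow_le_pow_right (by omega) (by omega : 2 ≤ u)).trans hyY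
  obtain ⟨hs1, hs2, hs3⟩ := hsum y hy2
  obtain ⟨Tm, hTm⟩ : ∃ Tm : ℤ → Finset ℕ, ∀ m, Tm m = P.filter fun l : ℕ => (l : ℤ) ∣ h.eval m :=
    ⟨_, fun _ => rfl⟩
  have hTmP : ∀ m, Tm m ⊆ P := fun m => by
    rw [hTm]
    exact filter_subset _ _
  have hdv : ∀ m ∈ S, ∀ T ⊆ Tm m, (((∏ l ∈ T, l) ^ 2 : ℕ) : ℤ) ∣ h.eval m := by
    intro m hm T hT
    refine sqs_dvd T (fun l hl => (hPm l (hTmP m (hT hl))).1) _ fun l hl => ?_
    have h1 := hT hl
    rw [hTm, mem_filter] at h1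
    have h2 := hPm l h1.1
    exact hSp m hm l h2.1 (by omega) h1.2
  have hroots : ∀ T ⊆ P, ((range ((∏ l ∈ T, l) ^ 2)).filter fun c : ℕ =>
      (((∏ l ∈ T, l) ^ 2 : ℕ) : ℤ) ∣ h.eval (c : ℤ)).card ≤ D1 ^ T.card := by
    intro T hT
    refine hB1 T fun l hl => ?_
    have h2 := hPm l (hT hl)
    exact ⟨h2.1, by omega⟩
  have hpos : ∀ T ⊆ P, 0 < ∏ l ∈ T, l := fun T hT =>
    prod_pos fun l hl => (hPm l (hT hl)).1.pos
  set Sa := S.filter fun m : ℤ => ∏ l ∈ Tm m, l ≤ y ^ 2 with hSa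
  set Sb := S.filter fun m : ℤ => ¬ ∏ l ∈ Tm m, l ≤ y ^ 2 with hSb
  have hsplit : S.card = Sa.card + Sb.card := (card_filter_add_card_filter_not _).symm
  -- part (a)
  have hparta : (Sa.card : ℝ) ≤ Cs * A1 * CE * Q := by
    have hX0 : Real.exp (-∑ l ∈ P, ((rt h0 l).card : ℝ) / l) ≤ a0 / Real.log Y := by
      rw [hP, ha0]
      exact sqs_mert h0 B00 D0 C0 w0 hw0 K Y y u (by omega) (by omega) hKy hY hYy
    have hX1 : Real.exp (-∑ l ∈ P, ((rt h l).card : ℝ) / l) ≤ a1 / Real.log Y := by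
      rw [hP, ha1]
      exact sqs_mert h B0 D Cw w hw K Y y u (by omega) (by omega) hKy hY hYy
    have hfac : ∀ T ⊆ P, Real.exp (-(∑ l ∈ (if t = true then P \ T else ∅), ((rt h0 l).card : ℝ) / l) -
        ∑ l ∈ P \ T, ((rt h l).card : ℝ) / l) ≤ G ^ T.card * (A1 / Real.log Y ^ e) := by
      intro T hT
      have h1 := sqs_sdiff h0 P T D0 hT (fun l hl => (hPm l hl).1.one_le) (fun l hl => by
        have h3 := hPm l hl
        exact hw0.up l h3.1 (by omega))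
      have h2 := sqs_sdiff h P T D hT (fun l hl => (hPm l hl).1.one_le) (fun l hl => by
        have h3 := hPm l hl
        exact hw.up l h3.1 (by omega))
      have hGp : G ^ T.card = Real.exp (D0 * T.card + D * T.card) := by
        rw [hG, ← Real.exp_nat_mul]
        congr 1
        ring
      by_cases ht : t = true
      · rw [if_pos ht]
        rw [if_pos ht] at hA1 he
        calc Real.exp (-(∑ l ∈ P \ T, ((rt h0 l).card : ℝ) / l) - ∑ l ∈ P \ T, ((rt h l).card : ℝ) / l)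
            ≤ Real.exp ((-∑ l ∈ P, ((rt h0 l).card : ℝ) / l) + (-∑ l ∈ P, ((rt h l).card : ℝ) / l) +
                (D0 * T.card + D * T.card)) := Real.exp_le_exp.2 (by linarith)
          _ = Real.exp (-∑ l ∈ P, ((rt h0 l).card : ℝ) / l) * Real.exp (-∑ l ∈ P, ((rt h l).card : ℝ) / l) *
                G ^ T.card := by rw [Real.exp_add, Real.exp_add, hGp]
          _ ≤ (a0 / Real.log Y) * (a1 / Real.log Y) * G ^ T.card := by
              refine mul_le_mul_of_nonneg_right ?_ (by positivity)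
              exact mul_le_mul hX0 hX1 (Real.exp_pos _).le (by positivity)
          _ = G ^ T.card * (A1 / Real.log Y ^ e) := by
              rw [hA1, he, div_mul_div_comm, sq]
              ring
      · rw [if_neg ht, sum_empty]
        rw [if_neg ht] at hA1 he
        have h3 : (0 : ℝ) ≤ D0 * T.card := by positivity
        calc Real.exp (-0 - ∑ l ∈ P \ T, ((rt h l).card : ℝ) / l)
            ≤ Real.exp ((-∑ l ∈ P, ((rt h l).card : ℝ) / l) +
                (D0 * T.card + D * T.card)) := Real.exp_le_exp.2 (by linarith)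
          _ = Real.exp (-∑ l ∈ P, ((rt h l).card : ℝ) / l) * G ^ T.card := by rw [Real.exp_add, hGp]
          _ ≤ (a1 / Real.log Y) * G ^ T.card := mul_le_mul_of_nonneg_right hX1 (by positivity)
          _ = G ^ T.card * (A1 / Real.log Y ^ e) := by
              rw [hA1, he, pow_one, one_mul]
              ring
    have hc1 : ∀ f : ℤ[X], Cop B f 1 := by
      intro f l hl _ m _ h2
      rw [eval_one] at h2
      exact (Nat.prime_iff_prime_int.1 hl).not_isUnit (isUnit_of_dvd_one h2)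
    have hTc : ∀ T ⊆ P, ∏ l ∈ T, l ≤ y ^ 2 → ((Sa.filter fun m => Tm m = T).card : ℝ) ≤
        Cs * A1 * Q * (E ^ T.card / ((∏ l ∈ T, l : ℕ) : ℝ) ^ 2) := by
      intro T hT hTy
      obtain ⟨d, hdd⟩ : ∃ d : ℕ, d = (∏ l ∈ T, l) ^ 2 := ⟨_, rfl⟩
      have hdpos : 0 < d := by
        rw [hdd]
        exact pow_pos (hpos T hT) 2
      have hdY : d * y ^ s ≤ Y := by
        calc d * y ^ s ≤ (y ^ 2) ^ 2 * y ^ s := by
              rw [hdd]
              exact Nat.mul_le_mul_right _ (Nat.pow_le_pow_left hTy 2)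
          _ = y ^ u := by
              rw [hu]
              ring
          _ ≤ Y := hyY
      have hb : ∀ c : ℕ, (((Sa.filter fun m => Tm m = T).filter fun m : ℤ => ((d : ℕ) : ℤ) ∣ m - c).card : ℝ) ≤
          Cs * (Y / d) * (G ^ T.card * (A1 / Real.log Y ^ e)) := by
        intro c
        have h1 := hsv B h0 h 1 hc (hc1 h0) (hc1 h) Y y d M c hy2 hdpos hdY
          (if t = true then P \ T else ∅) (P \ T) ∅ (by
            split_ifs
            · exact sdiff_subset.trans hP2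
            · exact empty_subset _) (sdiff_subset.trans hP2) (empty_subset _) (fun l hl => by
            have hl1 : l ∈ P \ T := by
              rw [union_empty, mem_union] at hl
              rcases hl with hl | hl
              · split_ifs at hl
                · exact hl
                · exact absurd hl (notMem_empty l)
              · exact hl
            rw [mem_sdiff] at hl1
            have h3 := hPm l hl1.1
            refine ⟨by omega, by omega, ?_, ?_⟩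
            · intro h2
              rw [hdd] at h2
              have h4 := h3.1.dvd_of_dvd_pow h2
              obtain ⟨a, ha, h5⟩ := (_root_.Prime.dvd_finsetProd_iff h3.1.prime _).1 h4
              have h6 : l = a := (Nat.prime_dvd_prime_iff_eq h3.1 (hPm a (hT ha)).1).1 h5
              exact hl1.2 (h6 ▸ ha)
            · rw [sqs_rt_one h3.1, card_empty, add_zero]
              exact add_le_add (hw0.up l h3.1 (by omega)) (hw.up l h3.1 (by omega)))
          ((Sa.filter fun m => Tm m = T).filter fun m : ℤ => ((d : ℕ) : ℤ) ∣ m - c) (fun m hm => by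
            rw [mem_filter, mem_filter, hSa, mem_filter] at hm
            obtain ⟨⟨⟨hmS, _⟩, hmT⟩, hmc⟩ := hm
            refine ⟨(hS m hmS).1, (hS m hmS).2, hmc, ?_, ?_, fun l hl => absurd hl (notMem_empty l)⟩
            · intro l hl
              split_ifs at hl with ht
              · have h3 := hPm l (mem_sdiff.1 hl).1
                refine hS0 ht m hmS l h3.1 ?_
                exact (Nat.pow_le_pow_left h3.2.2 2).trans hysq
              · exact absurd hl (notMem_empty l)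
            · intro l hl h3
              rw [mem_sdiff] at hl
              refine hl.2 ?_
              rw [← hmT, hTm, mem_filter]
              exact ⟨hl.1, h3⟩)
        rw [sum_empty, sub_zero] at h1
        exact h1.trans (mul_le_mul_of_nonneg_left (hfac T hT) (by positivity))
      have h5 := sqs_fib h d hdpos (Sa.filter fun m => Tm m = T) (D1 ^ T.card)
        (Cs * (Y / d) * (G ^ T.card * (A1 / Real.log Y ^ e))) (by positivity) (by
          rw [hdd]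
          exact hroots T hT) (fun m hm => by
          rw [mem_filter, hSa, mem_filter] at hm
          rw [hdd]
          exact hdv m hm.1.1 T (by rw [hm.2])) hb
      refine h5.trans (le_of_eq ?_)
      have h6 : (d : ℝ) = ((∏ l ∈ T, l : ℕ) : ℝ) ^ 2 := by
        rw [hdd]
        push_cast
        rfl
      rw [← h6, hQ, hE]
      push_cast
      rw [mul_pow]
      ring
    have hmap : ∀ m ∈ Sa, Tm m ∈ P.powerset.filter fun T => ∏ l ∈ T, l ≤ y ^ 2 := by
      intro m hm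
      rw [hSa, mem_filter] at hm
      rw [mem_filter, mem_powerset]
      exact ⟨hTmP m, hm.2⟩
    have hcard : (Sa.card : ℝ) = ∑ T ∈ P.powerset.filter (fun T => ∏ l ∈ T, l ≤ y ^ 2),
        ((Sa.filter fun m : ℤ => Tm m = T).card : ℝ) := by
      rw [card_eq_sum_card_fiberwise hmap]
      push_cast
      rfl
    rw [hcard]
    calc ∑ T ∈ P.powerset.filter (fun T => ∏ l ∈ T, l ≤ y ^ 2), ((Sa.filter fun m : ℤ => Tm m = T).card : ℝ)
        ≤ ∑ T ∈ P.powerset.filter (fun T => ∏ l ∈ T, l ≤ y ^ 2),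
            Cs * A1 * Q * (E ^ T.card / ((∏ l ∈ T, l : ℕ) : ℝ) ^ 2) := by
          refine sum_le_sum fun T hT => ?_
          rw [mem_filter, mem_powerset] at hT
          exact hTc T hT.1 hT.2
      _ ≤ ∑ T ∈ (pr 2 (y + 1)).powerset, Cs * A1 * Q * (E ^ T.card / ((∏ l ∈ T, l : ℕ) : ℝ) ^ 2) := by
          refine sum_le_sum_of_subset_of_nonneg (fun T hT => ?_) (fun T _ _ => by positivity)
          rw [mem_filter, mem_powerset] at hT
          exact mem_powerset.2 (hT.1.trans hP2)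
      _ = Cs * A1 * Q * ∑ T ∈ (pr 2 (y + 1)).powerset, (E ^ T.card / ((∏ l ∈ T, l : ℕ) : ℝ) ^ 2) := by
          rw [mul_sum]
      _ ≤ Cs * A1 * Q * CE := mul_le_mul_of_nonneg_left hs1 (by positivity)
      _ = _ := by ring
  -- part (b)
  have hpartb : (Sb.card : ℝ) ≤ 64 * CE * u ^ 2 * Q := by
    set I := P.powerset.filter fun T : Finset ℕ => y < ∏ l ∈ T, l ∧ ∏ l ∈ T, l ≤ y ^ 2 with hI
    have h1 : Sb ⊆ I.biUnion fun T => (Finset.Ioc M (M + Y)).filter fun m : ℤ =>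
        (((∏ l ∈ T, l) ^ 2 : ℕ) : ℤ) ∣ h.eval m := by
      intro m hm
      rw [hSb, mem_filter] at hm
      have h2 : y < ∏ l ∈ Tm m, l := by
        have h3 := hm.2
        have h4 : y ≤ y ^ 2 := Nat.le_self_pow two_ne_zero y
        omega
      obtain ⟨T', hT', h4, h5⟩ := sqs_mid (Tm m) y (by omega) (fun l hl => (hPm l (hTmP m hl)).2.2) h2
      rw [mem_biUnion]
      refine ⟨T', ?_, mem_filter.2 ⟨mem_Ioc.2 (hS m hm.1), hdv m hm.1 T' hT'⟩⟩
      rw [hI, mem_filter, mem_powerset]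
      exact ⟨hT'.trans (hTmP m), h4, h5⟩
    have h2 : ∀ T ∈ I, (((Finset.Ioc M (M + Y)).filter fun m : ℤ =>
        (((∏ l ∈ T, l) ^ 2 : ℕ) : ℤ) ∣ h.eval m).card : ℝ) ≤
        E ^ T.card * (Y / ((∏ l ∈ T, l : ℕ) : ℝ) ^ 2 + 1) := by
      intro T hT
      rw [hI, mem_filter, mem_powerset] at hT
      have h3 := sqs_fib h ((∏ l ∈ T, l) ^ 2) (pow_pos (hpos T hT.1) 2)
        ((Finset.Ioc M (M + Y)).filter fun m : ℤ => (((∏ l ∈ T, l) ^ 2 : ℕ) : ℤ) ∣ h.eval m)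
        (D1 ^ T.card) ((Y : ℝ) / (((∏ l ∈ T, l) ^ 2 : ℕ) : ℝ) + 1) (by positivity) (hroots T hT.1)
        (fun m hm => (mem_filter.1 hm).2) (fun c => by
          refine le_trans ?_ (sqs_card_class M Y ((∏ l ∈ T, l) ^ 2) (pow_pos (hpos T hT.1) 2) c)
          have h4 : (((Finset.Ioc M (M + Y)).filter fun m : ℤ =>
              (((∏ l ∈ T, l) ^ 2 : ℕ) : ℤ) ∣ h.eval m).filter fun m : ℤ =>
              (((∏ l ∈ T, l) ^ 2 : ℕ) : ℤ) ∣ m - c) ⊆
              (Finset.Ioc M (M + Y)).filter fun x : ℤ => x ≡ c [ZMOD (((∏ l ∈ T, l) ^ 2 : ℕ) : ℤ)] := by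
            intro m hm
            rw [mem_filter, mem_filter] at hm
            rw [mem_filter]
            exact ⟨hm.1.1, (Int.modEq_iff_dvd.2 hm.2).symm⟩
          exact_mod_cast card_le_card h4)
      refine h3.trans ?_
      have h5 : (((∏ l ∈ T, l) ^ 2 : ℕ) : ℝ) = ((∏ l ∈ T, l : ℕ) : ℝ) ^ 2 := by
        push_cast
        rfl
      rw [h5]
      refine mul_le_mul_of_nonneg_right ?_ (by positivity)
      rw [Nat.cast_pow]
      exact pow_le_pow_left₀ hD10 hD1E _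
    have hsy : 0 < Real.sqrt y := Real.sqrt_pos.2 (by exact_mod_cast (by omega : 0 < y))
    have h3 : (Sb.card : ℝ) ≤ ∑ T ∈ I, E ^ T.card * (Y / ((∏ l ∈ T, l : ℕ) : ℝ) ^ 2 + 1) := by
      calc (Sb.card : ℝ) ≤ ((I.biUnion fun T => (Finset.Ioc M (M + Y)).filter fun m : ℤ =>
            (((∏ l ∈ T, l) ^ 2 : ℕ) : ℤ) ∣ h.eval m).card : ℝ) := by
            exact_mod_cast card_le_card h1
        _ ≤ ((∑ T ∈ I, ((Finset.Ioc M (M + Y)).filter fun m : ℤ =>
            (((∏ l ∈ T, l) ^ 2 : ℕ) : ℤ) ∣ h.eval m).card : ℕ) : ℝ) := by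
            exact_mod_cast card_biUnion_le
        _ = ∑ T ∈ I, (((Finset.Ioc M (M + Y)).filter fun m : ℤ =>
            (((∏ l ∈ T, l) ^ 2 : ℕ) : ℤ) ∣ h.eval m).card : ℝ) := by
            rw [Nat.cast_sum]
        _ ≤ _ := sum_le_sum h2
    have h4 : ∑ T ∈ I, E ^ T.card * (Y / ((∏ l ∈ T, l : ℕ) : ℝ) ^ 2 + 1) =
        Y * ∑ T ∈ I, E ^ T.card / ((∏ l ∈ T, l : ℕ) : ℝ) ^ 2 + ∑ T ∈ I, E ^ T.card := by
      rw [mul_sum, ← sum_add_distrib]
      refine sum_congr rfl fun T _ => ?_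
      ring
    have h5 : ∑ T ∈ I, E ^ T.card / ((∏ l ∈ T, l : ℕ) : ℝ) ^ 2 ≤ CE / Real.sqrt y := by
      refine le_trans (sum_le_sum_of_subset_of_nonneg (fun T hT => ?_) (fun T _ _ => by positivity)) hs2
      rw [hI, mem_filter, mem_powerset] at hT
      exact mem_filter.2 ⟨mem_powerset.2 (hT.1.trans hP2), hT.2.1⟩
    have h6 : ∑ T ∈ I, E ^ T.card ≤ CE * y ^ 3 := by
      refine le_trans (sum_le_sum_of_subset_of_nonneg (fun T hT => ?_) (fun T _ _ => by positivity)) hs3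
      rw [hI, mem_filter, mem_powerset] at hT
      exact mem_filter.2 ⟨mem_powerset.2 (hT.1.trans hP2), hT.2.2⟩
    have h7 := sqs_log_sqrt Y y u hY hy2 hYy
    have h8 : (Y : ℝ) / Real.sqrt y ≤ 32 * (u : ℝ) ^ 2 * Q := by
      calc (Y : ℝ) / Real.sqrt y ≤ 32 * (u : ℝ) ^ 2 * (Y / Real.log Y ^ 2) := by
            rw [← mul_div_assoc, div_le_div_iff₀ hsy (by positivity)]
            calc (Y : ℝ) * Real.log Y ^ 2 ≤ Y * (32 * (u : ℝ) ^ 2 * Real.sqrt y) :=
                  mul_le_mul_of_nonneg_left h7 hY0.le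
              _ = _ := by ring
        _ ≤ _ := mul_le_mul_of_nonneg_left hQ2 (by positivity)
    have h9 : (y : ℝ) ^ 3 ≤ Y / Real.sqrt y := by
      rw [le_div_iff₀ hsy]
      have hy1 : (1 : ℝ) ≤ y := by exact_mod_cast (by omega : 1 ≤ y)
      have h10 : Real.sqrt y ≤ y := by
        rw [Real.sqrt_le_iff]
        exact ⟨by linarith, by nlinarith⟩
      have h11 : (y : ℝ) ^ 4 ≤ Y := by
        have h12 : y ^ 4 ≤ Y := (Nat.pow_le_pow_right (by omega) (by omega : 4 ≤ u)).trans hyY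
        exact_mod_cast h12
      calc (y : ℝ) ^ 3 * Real.sqrt y ≤ (y : ℝ) ^ 3 * y := mul_le_mul_of_nonneg_left h10 (by positivity)
        _ = (y : ℝ) ^ 4 := by ring
        _ ≤ Y := h11
    calc (Sb.card : ℝ) ≤ _ := h3
      _ = _ := h4
      _ ≤ Y * (CE / Real.sqrt y) + CE * y ^ 3 :=
          add_le_add (mul_le_mul_of_nonneg_left h5 hY0.le) h6
      _ = CE * (Y / Real.sqrt y) + CE * y ^ 3 := by ring
      _ ≤ CE * (32 * (u : ℝ) ^ 2 * Q) + CE * (32 * (u : ℝ) ^ 2 * Q) :=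
          add_le_add (mul_le_mul_of_nonneg_left h8 hCE.le)
            (mul_le_mul_of_nonneg_left (h9.trans h8) hCE.le)
      _ = _ := by ring
  have hfin : (S.card : ℝ) = Sa.card + Sb.card := by exact_mod_cast hsplit
  have h13 : 0 ≤ (u * (K + 2)) ^ 2 * Q := by positivity
  calc (S.card : ℝ) = Sa.card + Sb.card := hfin
    _ ≤ Cs * A1 * CE * Q + 64 * CE * u ^ 2 * Q := add_le_add hparta hpartb
    _ ≤ A * Q := by
        rw [hA]
        linarith

end Pool.Agent.H37.PS
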