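import Pool.Agent.H37.PS.Core
import Pool.Agent.H37.PS.Sq
import Pool.Agent.H37.PU.Rat
import Pool.Agent.H37.PW.Base

/-!
PS FinA: the values of a polynomial, rate `Y / log Y` (adapted from PB/Fin.lean).
-/

set_option autoImplicit false

namespace Pool.Agent.H37.PS

open Finset Polynomial Pool.Agent.H37.PPC Pool.Agent.H37.PPD Pool.Agent.H37.PB Pool.Agent.H37.PP Pool.Agent.H37.PV Pool.Agent.H37.PU

/-- the rate `Y / log Y` -/
noncomputable def rs1 (Y : ℕ) : ℝ := (Y : ℝ) / Real.log Y ^ ex false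

theorem ex_false : ex false = 1 := rfl

/-- at most `C rs1 Y` elements in every interval of length `Y` -/
def RZ (S : Set ℤ) : Prop := ∃ C : ℝ, 0 < C ∧ ∀ (Y : ℕ) (M : ℤ), 3 ≤ Y → ∀ T : Finset ℤ,
  (∀ m ∈ T, M < m ∧ m ≤ M + Y) → (∀ m ∈ T, m ∈ S) → (T.card : ℝ) ≤ C * rs1 Y

theorem RZ.mono {S T : Set ℤ} (h : RZ T) (hST : S ⊆ T) : RZ S := by
  obtain ⟨C, hC, H⟩ := h
  exact ⟨C, hC, fun Y M hY U hU hUS => H Y M hY U hU fun m hm => hST (hUS m hm)⟩

theorem RZ.union {S T : Set ℤ} (h : RZ S) (h' : RZ T) : RZ (S ∪ T) := by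
  classical
  obtain ⟨C, hC, H⟩ := h
  obtain ⟨C', hC', H'⟩ := h'
  refine ⟨C + C', by positivity, fun Y M hY U hU hUS => ?_⟩
  have h1 := H Y M hY (U.filter fun m => m ∈ S) (fun m hm => hU m (mem_filter.1 hm).1)
    (fun m hm => (mem_filter.1 hm).2)
  have h2 := H' Y M hY (U.filter fun m => m ∈ T) (fun m hm => hU m (mem_filter.1 hm).1)
    (fun m hm => (mem_filter.1 hm).2)
  have h3 : U ⊆ (U.filter fun m => m ∈ S) ∪ (U.filter fun m => m ∈ T) := by
    intro m hm
    rw [mem_union, mem_filter, mem_filter]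
    rcases hUS m hm with h | h
    · exact Or.inl ⟨hm, h⟩
    · exact Or.inr ⟨hm, h⟩
  have h4 : (U.card : ℝ) ≤ ((U.filter fun m => m ∈ S).card : ℝ) + ((U.filter fun m => m ∈ T).card : ℝ) := by
    have := (card_le_card h3).trans (card_union_le _ _)
    exact_mod_cast this
  rw [add_mul]
  linarith

theorem rs1_ge {Y : ℕ} (hY : 3 ≤ Y) : (1 : ℝ) ≤ rs1 Y := by
  unfold rs1
  rw [ex_false, pow_one]
  have h2 : 0 < Real.log Y := Real.log_pos (by exact_mod_cast (by omega : 1 < Y))
  have h3 : (0 : ℝ) < Y := by exact_mod_cast (by omega : 0 < Y)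
  have h4 := Real.log_le_sub_one_of_pos h3
  rw [le_div_iff₀ h2]
  linarith

theorem RZ_finite {S : Set ℤ} (h : S.Finite) : RZ S := by
  refine ⟨h.toFinset.card + 1, by positivity, fun Y M hY U _ hUS => ?_⟩
  have h1 : U ⊆ h.toFinset := fun m hm => h.mem_toFinset.2 (hUS m hm)
  have h2 : (U.card : ℝ) ≤ h.toFinset.card := by exact_mod_cast card_le_card h1
  have h3 := rs1_ge hY
  have h4 : (0 : ℝ) ≤ h.toFinset.card := Nat.cast_nonneg _
  nlinarith

/-- `X - b` is coprime to `h` modulo large primes -/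
theorem cop_lin {h : ℤ[X]} (b : ℤ) (h0 : h.eval b ≠ 0) {B : ℕ} (hB : (h.eval b).natAbs ≤ B) : Cop B (X - C b) h := by
  intro l hl hBl m h1 h2
  rw [eval_sub, eval_X, eval_C] at h1
  have h3 : (l : ℤ) ∣ h.eval m - h.eval b := h1.trans (Polynomial.sub_dvd_eval_sub m b h)
  have h4 : (l : ℤ) ∣ h.eval b := by
    have := dvd_sub h2 h3
    simpa using this
  have h5 := Int.le_of_dvd (by exact_mod_cast Int.natAbs_pos.2 h0) (Int.dvd_natAbs.2 h4)
  omega

theorem exists_nonroot {h : ℤ[X]} (h0 : h ≠ 0) : ∃ b : ℤ, h.eval b ≠ 0 := by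
  by_contra hcon
  push Not at hcon
  apply h0
  apply Polynomial.funext
  intro b
  rw [hcon b, eval_zero]

theorem keyr (f h : ℤ[X]) (hf : 1 ≤ f.natDegree) (hi : Irreducible h) (hd : 1 ≤ h.natDegree) (B : ℕ)
    (hhf : h ∣ f)
    (H : ∀ p : ℕ, p.Prime → B < p → ∀ (m : ℤ) (n : ℕ), (n : ℤ) = f.eval m → 2 ≤ n →
      (p : ℤ) ∣ h.eval m → ¬ (p : ℤ) ^ 2 ∣ h.eval m → ¬ IsSquare n) : RZ (SBz f) := by
  classical
  have hF : 1 ≤ (f ^ 2 + f + 1).natDegree := by
    have h1 : (f ^ 2).natDegree = 2 * f.natDegree := natDegree_pow f 2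
    have h2 : (f + 1).natDegree < (f ^ 2).natDegree := by
      refine lt_of_le_of_lt (natDegree_add_le _ _) ?_
      rw [natDegree_one, h1]
      omega
    rw [add_assoc, natDegree_add_eq_left_of_natDegree_lt h2, h1]
    omega
  obtain ⟨g, hgi, hgd, hgF⟩ := exists_irr _ hF
  have hfd : ∀ (l : ℕ) (m : ℤ), (l : ℤ) ∣ h.eval m → (l : ℤ) ∣ f.eval m := by
    intro l m hl
    obtain ⟨k, hk⟩ := hhf
    rw [hk, eval_mul]
    exact hl.mul_right _
  have hgd' : ∀ (l : ℕ) (m : ℤ), (l : ℤ) ∣ g.eval m → (l : ℤ) ∣ (f.eval m) ^ 2 + f.eval m + 1 := by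
    intro l m hl
    obtain ⟨k, hk⟩ := hgF
    have h3 : (f.eval m) ^ 2 + f.eval m + 1 = g.eval m * k.eval m := by
      rw [← eval_mul, ← hk]
      simp
    rw [h3]
    exact hl.mul_right _
  have hc : ∀ l : ℕ, l.Prime → ∀ m : ℤ, (l : ℤ) ∣ h.eval m → ¬ (l : ℤ) ∣ g.eval m := by
    intro l hl m h1 h2
    have h3 := hfd l m h1
    have h4 := hgd' l m h2
    have h5 : (l : ℤ) ∣ (f.eval m) ^ 2 + f.eval m := by
      have : (f.eval m) ^ 2 + f.eval m = f.eval m * (f.eval m + 1) := by ring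
      rw [this]
      exact h3.mul_right _
    have h6 : (l : ℤ) ∣ 1 := (Int.dvd_add_right h5).1 h4
    have h7 : l ∣ 1 := by exact_mod_cast h6
    exact hl.one_lt.ne' (Nat.dvd_one.1 h7)
  obtain ⟨b, hb⟩ := exists_nonroot (mul_ne_zero hi.ne_zero hgi.ne_zero)
  rw [eval_mul] at hb
  have hbh : h.eval b ≠ 0 := left_ne_zero_of_mul hb
  have hbg : g.eval b ≠ 0 := right_ne_zero_of_mul hb
  obtain ⟨B0, hB0⟩ : ∃ B0 : ℕ, B0 = B + (h.eval b).natAbs + (g.eval b).natAbs := ⟨_, rfl⟩
  have c1 : Cop B0 (X - C b) h := cop_lin b hbh (by omega)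
  have c2 : Cop B0 (X - C b) g := cop_lin b hbg (by omega)
  obtain ⟨C1, hC1, H1⟩ := core false (X - C b) h g (by rw [natDegree_X_sub_C]) hd hgd B0 c1 c2
    (fun l hl _ m => hc l hl m)
  obtain ⟨C2, hC2, H2⟩ := sq_sharp false (X - C b) h (by rw [natDegree_X_sub_C]) hi hd B0 c1
  refine ⟨C1 + C2, by positivity, fun Y M hY U hU hUS => ?_⟩
  set N : ℤ → Prop := fun m => ∃ n : ℕ, (n : ℤ) = f.eval m ∧ IsSquare n with hN
  have b1 := H1 Y M hY (U.filter fun m => ¬ N m) (fun m hm => hU m (mem_filter.1 hm).1)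
    (fun h => absurd h (by decide)) (by
    intro m hm p q hp hq _ _ hpd hqd
    rw [mem_filter] at hm
    obtain ⟨n, hn, hn2, hbad⟩ := hUS m hm.1
    have hns : ¬ IsSquare n := fun h => hm.2 ⟨n, hn, h⟩
    have hM := mg_of_bad hn2 hns hbad
    have hpn : p ∣ n := by
      have h3 := hfd p m hpd
      rw [← hn] at h3
      exact_mod_cast h3
    have hqn : q ∣ n ^ 2 + n + 1 := by
      have h3 := hgd' q m hqd
      rw [← hn] at h3
      exact_mod_cast h3
    exact Pool.Agent.H37.PW.planar_test n p q hn2 hM hns hp hpn hq hqn)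
  have b2 := H2 Y M hY (U.filter fun m => N m) (fun m hm => hU m (mem_filter.1 hm).1)
    (fun h => absurd h (by decide)) (by
    intro m hm p hp hBp hpd
    by_contra hcon
    rw [mem_filter] at hm
    obtain ⟨n, hn, hn2, hbad⟩ := hUS m hm.1
    obtain ⟨n', hn', hsq⟩ := hm.2
    have he : n' = n := by
      have : (n' : ℤ) = (n : ℤ) := by rw [hn', hn]
      exact_mod_cast this
    rw [he] at hsq
    exact H p hp (by omega) m n hn hn2 hpd hcon hsq)
  have h3 : (U.card : ℝ) = ((U.filter fun m => N m).card : ℝ) + ((U.filter fun m => ¬ N m).card : ℝ) := by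
    exact_mod_cast (card_filter_add_card_filter_not (s := U) N).symm
  rw [h3, add_mul]
  have b2' : ((U.filter fun m => N m).card : ℝ) ≤ C2 * rs1 Y := b2
  have b1' : ((U.filter fun m => ¬ N m).card : ℝ) ≤ C1 * rs1 Y := b1
  linarith

/-- an irreducible factor of odd multiplicity -/
theorem case_oddr (f h k : ℤ[X]) (e : ℕ) (hf : 1 ≤ f.natDegree) (hi : Irreducible h) (hd : 1 ≤ h.natDegree)
    (he : Odd e) (hfe : f = h ^ e * k) (hk : ¬ h ∣ k) : RZ (SBz f) := by
  obtain ⟨B, hB⟩ := coprime_part h k hi hd hk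
  have he0 : e ≠ 0 := by
    rintro rfl
    exact (Nat.not_odd_zero) he
  refine keyr f h hf hi hd B (by rw [hfe]; exact (dvd_pow_self h he0).mul_right k) fun p hp hBp m n hn hn2 h1 h2 => ?_
  have h3 := hB p hp hBp m h1
  have hfm : (n : ℤ) = h.eval m ^ e * k.eval m := by rw [hn, hfe]; simp
  rintro ⟨t, ht⟩
  have hpf : Fact p.Prime := ⟨hp⟩
  have hn0 : n ≠ 0 := by omega
  have hn0' : (n : ℤ) ≠ 0 := by exact_mod_cast hn0
  have hh0 : h.eval m ≠ 0 := by
    intro h5
    rw [hfm, h5, zero_pow he0, zero_mul] at hn0'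
    exact hn0' rfl
  have hk0 : k.eval m ≠ 0 := by
    intro h5
    rw [hfm, h5, mul_zero] at hn0'
    exact hn0' rfl
  have ht0 : t ≠ 0 := by
    rintro rfl
    exact hn0 (by simpa using ht)
  have hv1 : padicValInt p (h.eval m) = 1 := by
    have h5 : 1 ≤ padicValInt p (h.eval m) := by
      rw [← Nat.not_lt, Nat.lt_one_iff]
      intro h6
      rcases padicValInt.eq_zero_iff.1 h6 with h7 | h7 | h7
      · exact hp.one_lt.ne' h7
      · exact hh0 h7
      · exact h7 h1
    have h6 : ¬ 2 ≤ padicValInt p (h.eval m) := by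
      intro h7
      apply h2
      have h8 := (padicValInt_dvd_iff 2 (h.eval m)).2 (Or.inr h7)
      exact_mod_cast h8
    omega
  have hv2 : padicValInt p (k.eval m) = 0 := padicValInt.eq_zero_of_not_dvd h3
  have hv3 : padicValInt p (n : ℤ) = e := by
    rw [hfm, padicValInt.mul (pow_ne_zero _ hh0) hk0, hv2]
    have h5 : ∀ j : ℕ, padicValInt p (h.eval m ^ j) = j := by
      intro j
      induction j with
      | zero => simp
      | succ j ih => rw [pow_succ, padicValInt.mul (pow_ne_zero _ hh0) hh0, ih, hv1]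
    rw [h5 e, add_zero]
  have hv4 : padicValInt p (n : ℤ) = padicValNat p t + padicValNat p t := by
    rw [padicValInt.of_nat, ht, padicValNat.mul ht0 ht0]
  rw [hv3] at hv4
  obtain ⟨j, hj⟩ := he
  omega

/-- a non-square constant times a square -/
theorem case_constr (c : ℤ) (g : ℤ[X]) (hf : 1 ≤ (C c * g ^ 2).natDegree) (hc : ¬ IsSquare c) :
    RZ (SBz (C c * g ^ 2)) := by
  have hg : 1 ≤ g.natDegree := by
    rcases Nat.eq_zero_or_pos g.natDegree with h | h
    · exfalso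
      have h1 : (C c * g ^ 2).natDegree ≤ 0 := by
        refine (natDegree_mul_le).trans ?_
        rw [natDegree_C, natDegree_pow, h]
      omega
    · exact h
  obtain ⟨h, hi, hd, hdvd⟩ := exists_irr g hg
  refine keyr _ h hf hi hd 0 ((hdvd.trans (dvd_pow_self g two_ne_zero)).mul_left _) fun p hp _ m n hn hn2 h1 _ => ?_
  have hfm : (n : ℤ) = c * g.eval m ^ 2 := by rw [hn]; simp
  rintro ⟨t, ht⟩
  apply hc
  have hn0' : (n : ℤ) ≠ 0 := by
    have : n ≠ 0 := by omega
    exact_mod_cast this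
  have hg0 : g.eval m ≠ 0 := by
    intro h5
    rw [hfm, h5] at hn0'
    exact hn0' (by ring)
  have h5 : c * g.eval m ^ 2 = (t : ℤ) ^ 2 := by
    rw [← hfm, ht]
    push_cast
    ring
  have h6 : g.eval m ^ 2 ∣ (t : ℤ) ^ 2 := ⟨c, by rw [← h5]; ring⟩
  obtain ⟨s, hs⟩ := (Int.pow_dvd_pow_iff two_ne_zero).1 h6
  refine ⟨s, ?_⟩
  have h7 : g.eval m ^ 2 * c = g.eval m ^ 2 * (s * s) := by
    rw [hs] at h5
    linear_combination h5
  exact mul_left_cancel₀ (pow_ne_zero 2 hg0) h7

theorem sbr_zero : ∀ d : ℕ, ∀ f : ℤ[X], f.natDegree = d → 1 ≤ d → RZ (SBz f) := by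
  intro d
  induction d using Nat.strong_induction_on with
  | _ d ih =>
    intro f hfd hd1
    have hf1 : 1 ≤ f.natDegree := by omega
    have hf0 : f ≠ 0 := by
      rintro rfl
      rw [natDegree_zero] at hf1
      omega
    rcases odd_or_square f hf0 with ⟨h, k, e, hi, hd, he, hfe, hk⟩ | ⟨c, g, hfc⟩
    · exact case_oddr f h k e hf1 hi hd he hfe hk
    · by_cases hc : IsSquare c
      · obtain ⟨b, hb⟩ := hc
        have hfg : f = (C b * g) ^ 2 := by
          rw [hfc, hb, C_mul]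
          ring
        have hdg : f.natDegree = 2 * (C b * g).natDegree := by rw [hfg, natDegree_pow]
        have hz1 := ih (C b * g).natDegree (by omega) (C b * g) rfl (by omega)
        have hz2 := ih (C b * g).natDegree (by omega) (-(C b * g)) (natDegree_neg _) (by omega)
        refine (hz1.union hz2).mono ?_
        rintro m ⟨n, hn, hn2, hbad⟩
        have h1 : (n : ℤ) = (C b * g).eval m ^ 2 := by rw [hn, hfg, eval_pow]
        obtain ⟨s, hs⟩ : ∃ s : ℕ, s = ((C b * g).eval m).natAbs := ⟨_, rfl⟩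
        have h2 : n = s ^ 2 := by
          have h3 : (n : ℤ) = (s : ℤ) ^ 2 := by rw [h1, hs, Int.natCast_natAbs, sq_abs]
          exact_mod_cast h3
        have hs2 : 2 ≤ s := by
          by_contra h3
          have h4 : s ≤ 1 := by omega
          have h5 : s ^ 2 ≤ 1 := by
            calc s ^ 2 ≤ 1 ^ 2 := Nat.pow_le_pow_left h4 2
              _ = 1 := one_pow 2
          omega
        have hbs : Bad s := bad_of_sq (by rwa [h2] at hbad)
        rcases le_or_gt 0 ((C b * g).eval m) with h3 | h3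
        · left
          exact ⟨s, by rw [hs, Int.natAbs_of_nonneg h3], hs2, hbs⟩
        · right
          refine ⟨s, ?_, hs2, hbs⟩
          rw [eval_neg, hs]
          omega
      · rw [hfc]
        exact case_constr c g (by rw [← hfc]; exact hf1) hc

theorem sar_zero (f : ℤ[X]) (hf : 1 ≤ f.natDegree) : RZ (SAz f) := by
  have hfin : {m : ℤ | (f * (f - 1) * (f + 1)).eval m = 0}.Finite := by
    have h0 : f * (f - 1) * (f + 1) ≠ 0 := by
      have h1 : ∀ a : ℤ, f + C a ≠ 0 := by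
        intro a h
        have h2 : f = C (-a) := by
          rw [C_neg]
          exact eq_neg_of_add_eq_zero_left h
        rw [h2, natDegree_C] at hf
        omega
      have e1 := h1 0
      have e2 := h1 (-1)
      have e3 := h1 1
      rw [C_0, add_zero] at e1
      rw [C_neg, C_1, ← sub_eq_add_neg] at e2
      rw [C_1] at e3
      exact mul_ne_zero (mul_ne_zero e1 e2) e3
    have h2 := (f * (f - 1) * (f + 1)).roots.toFinset.finite_toSet
    refine h2.subset ?_
    intro m hm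
    rw [mem_coe, Multiset.mem_toFinset, mem_roots h0]
    exact hm
  refine (((sbr_zero _ f rfl hf).union (sbr_zero _ (-f) rfl (by rwa [natDegree_neg]))).union (RZ_finite hfin)).mono ?_
  rintro m ⟨k, n, h3, hn, hO⟩
  obtain ⟨s, hs⟩ : ∃ s : ℕ, s = (f.eval m).natAbs := ⟨_, rfl⟩
  by_cases h1 : s ≤ 1
  · right
    show (f * (f - 1) * (f + 1)).eval m = 0
    rw [eval_mul, eval_mul, eval_add, eval_sub, eval_one]
    have h2 : f.eval m = 0 ∨ f.eval m = 1 ∨ f.eval m = -1 := by omega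
    rcases h2 with h | h | h <;> rw [h] <;> ring
  · left
    have hn' : n = s ^ k := by
      have h4 := congrArg Int.natAbs hn
      rw [Int.natAbs_natCast, Int.natAbs_pow, ← hs] at h4
      exact h4
    have hbs : Bad s := ⟨k, h3, by rwa [← hn']⟩
    rcases le_or_gt 0 (f.eval m) with h5 | h5
    · left
      exact ⟨s, by rw [hs, Int.natAbs_of_nonneg h5], by omega, hbs⟩
    · right
      refine ⟨s, ?_, by omega, hbs⟩
      rw [eval_neg, hs]
      omega

theorem sir_zero (A : ℕ) : ∀ f : ℤ[X], 1 ≤ f.natDegree → RZ (SIz A f) := by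
  induction A with
  | zero =>
    intro f _
    refine (RZ_finite (Set.finite_empty)).mono ?_
    rintro m ⟨k, n, h, -, -⟩
    exact absurd (by simp) h
  | succ A ih =>
    intro f hf
    have h1 := ih (f ^ 3) (by rw [natDegree_pow]; omega)
    refine ((sar_zero f hf).union h1).mono ?_
    rintro m ⟨k, n, h, hn, hO⟩
    by_cases h3 : 3 ∣ k
    · right
      obtain ⟨j, rfl⟩ := h3
      refine ⟨j, n, ?_, ?_, hO⟩
      · rintro ⟨i, hi⟩
        exact h ⟨i, by rw [hi]; ring⟩
      · rw [hn, eval_pow, ← pow_mul]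
    · left
      exact ⟨k, n, h3, hn, hO⟩

theorem RZ_class {S : Set ℤ} (D r : ℕ) (hD : 0 < D) (T : Set ℤ) (hT : RZ T)
    (h : ∀ m ∈ S, m % D = r → m / D ∈ T) : RZ {m | m ∈ S ∧ m % D = r} := by
  classical
  obtain ⟨C, hC, H⟩ := hT
  have hD' : (0 : ℤ) < D := by exact_mod_cast hD
  refine ⟨2 * C, by positivity, fun Y M hY U hU hUS => ?_⟩
  have hinj : Set.InjOn (fun m : ℤ => m / D) (U : Set ℤ) := by
    intro a ha b hb hab
    have h1 := (hUS a ha).2
    have h2 := (hUS b hb).2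
    have h3 := Int.emod_add_mul_ediv a D
    have h4 := Int.emod_add_mul_ediv b D
    have h5 : a / (D : ℤ) = b / D := hab
    rw [h1, h5] at h3
    rw [h2] at h4
    exact h3.symm.trans h4
  have hcard : (U.image fun m : ℤ => m / D).card = U.card := card_image_of_injOn hinj
  obtain ⟨V, hV⟩ : ∃ V : Finset ℤ, V = U.image fun m : ℤ => m / D := ⟨_, rfl⟩
  have hVT : ∀ j ∈ V, j ∈ T := by
    intro j hj
    rw [hV, mem_image] at hj
    obtain ⟨m, hm, rfl⟩ := hj
    exact h m (hUS m hm).1 (hUS m hm).2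
  have hVI : ∀ j ∈ V, M / D ≤ j ∧ j ≤ M / D + Y := by
    intro j hj
    rw [hV, mem_image] at hj
    obtain ⟨m, hm, rfl⟩ := hj
    obtain ⟨h1, h2⟩ := hU m hm
    constructor
    · exact Int.ediv_le_ediv hD' h1.le
    · have h3 : m / (D : ℤ) < M / D + Y + 1 := by
        rw [Int.ediv_lt_iff_lt_mul hD']
        have h4 : M < (M / D + 1) * D := by
          have := Int.lt_ediv_add_one_mul_self M hD'
          linarith
        have h5 : (0 : ℤ) ≤ Y := Int.natCast_nonneg Y
        have h6 : (Y : ℤ) ≤ Y * D := by nlinarith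
        nlinarith
      omega
  have b1 := H Y (M / D) hY (V.filter fun j => M / D < j) (by
    intro j hj
    rw [mem_filter] at hj
    exact ⟨hj.2, (hVI j hj.1).2⟩) (fun j hj => hVT j (mem_filter.1 hj).1)
  have b2 := H Y (M / D - 1) hY (V.filter fun j => ¬ M / D < j) (by
    intro j hj
    rw [mem_filter] at hj
    have h1 := (hVI j hj.1).1
    have h2 := hj.2
    have h5 : (3 : ℤ) ≤ Y := by exact_mod_cast hY
    omega) (fun j hj => hVT j (mem_filter.1 hj).1)
  have h3 : (V.card : ℝ) = ((V.filter fun j => M / D < j).card : ℝ) + ((V.filter fun j => ¬ M / D < j).card : ℝ) := by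
    exact_mod_cast (card_filter_add_card_filter_not (s := V) (fun j => M / D < j)).symm
  rw [← hcard, ← hV, h3]
  linarith

theorem RZ_biUnion (D : ℕ) (S : ℕ → Set ℤ) (h : ∀ r < D, RZ (S r)) : RZ {m | ∃ r < D, m ∈ S r} := by
  induction D with
  | zero =>
    refine (RZ_finite (Set.finite_empty)).mono ?_
    rintro m ⟨r, hr, -⟩
    omega
  | succ D ih =>
    refine ((ih fun r hr => h r (by omega)).union (h D (by omega))).mono ?_
    rintro m ⟨r, hr, hm⟩
    rcases Nat.lt_succ_iff_lt_or_eq.1 hr with h1 | h1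
    · exact Or.inl ⟨r, h1, hm⟩
    · right
      rwa [← h1]

theorem sqr_zero (A : ℕ) (f : ℚ[X]) (hf : 1 ≤ f.natDegree) : RZ (SQz A f) := by
  obtain ⟨D, hD, hg⟩ := on_class f
  have hD0 : (D : ℚ) ≠ 0 := by exact_mod_cast hD.ne'
  have hDz : (0 : ℤ) < D := by exact_mod_cast hD
  have h1 : ∀ r < D, RZ {m | m ∈ SQz A f ∧ m % D = r} := by
    intro r _
    obtain ⟨G, hG⟩ := hg r
    have hval : ∀ t : ℤ, f.eval ((D * t + r : ℤ) : ℚ) = f.eval (r : ℚ) + ((t * G.eval t : ℤ) : ℚ) := by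
      intro t
      have h2 := congrArg (Polynomial.eval (t : ℚ)) hG
      have h3 : (G.map (Int.castRingHom ℚ)).eval (t : ℚ) = ((G.eval t : ℤ) : ℚ) := by
        have h4 := eval_intCast_map (Int.castRingHom ℚ) G t
        rw [h4, eq_intCast]
        norm_num
      rw [eval_comp, eval_add, eval_mul, eval_C, eval_C, eval_X, eval_add, eval_mul, eval_C, eval_X, h3] at h2
      push_cast
      exact h2
    by_cases hr : ∃ z : ℤ, (z : ℚ) = f.eval (r : ℚ)
    · obtain ⟨z, hz⟩ := hr
      have hdeg : 1 ≤ (C z + X * G).natDegree := by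
        by_contra hlt
        have h5 : (C z + X * G).natDegree = 0 := by omega
        obtain ⟨c, hc⟩ := natDegree_eq_zero.1 h5
        have h6 : f.comp (C (D : ℚ) * X + C (r : ℚ)) = C (c : ℚ) := by
          have h7 := congrArg (Polynomial.map (Int.castRingHom ℚ)) hc
          rw [map_C, Polynomial.map_add, Polynomial.map_mul, map_C, map_X] at h7
          rw [hG, ← hz]
          simpa using h7.symm
        have h8 := congrArg natDegree h6
        rw [natDegree_comp, natDegree_C, natDegree_linear hD0, mul_one] at h8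
        omega
      refine RZ_class D r hD (SIz A (C z + X * G)) (sir_zero A _ hdeg) ?_
      rintro m ⟨k, n, h3, hn, hO⟩ hmr
      refine ⟨k, n, h3, ?_, hO⟩
      have h4 := hval (m / D)
      have h5 : (D : ℤ) * (m / D) + r = m := by
        rw [← hmr]
        exact Int.mul_ediv_add_emod m D
      rw [h5, ← hz] at h4
      rw [h4] at hn
      have h6 : (n : ℤ) = (z + (m / D) * G.eval (m / D)) ^ k := by exact_mod_cast hn
      rw [h6]
      simp
    · refine (RZ_finite (Set.finite_empty)).mono ?_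
      rintro m ⟨⟨k, n, h3, hn, hO⟩, hmr⟩
      apply hr
      have hk : k ≠ 0 := by
        rintro rfl
        exact h3 (dvd_zero _)
      obtain ⟨z, hz⟩ := den_mem n _ k hk hn
      have h4 := hval (m / D)
      have h5 : (D : ℤ) * (m / D) + r = m := by
        rw [← hmr]
        exact Int.mul_ediv_add_emod m D
      rw [h5, ← hz] at h4
      refine ⟨z - (m / D) * G.eval (m / D), ?_⟩
      rw [Int.cast_sub, h4]
      ring
  refine (RZ_biUnion D _ h1).mono ?_
  intro m hm
  have h2 := Int.emod_nonneg m hDz.ne'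
  have h3 := Int.emod_lt_of_pos m hDz
  exact ⟨(m % D).toNat, by omega, hm, by rw [Int.toNat_of_nonneg h2]⟩

open Classical in
theorem main_rate (f : ℚ[X]) (hf : 1 ≤ f.natDegree) (A : ℕ) :
    ∃ C : ℝ, 0 < C ∧ ∀ (Y : ℕ) (M : ℤ), 2 ≤ Y → (((Finset.Ioc M (M + Y)).filter fun m : ℤ =>
      ∃ k n : ℕ, ¬ 3 ^ A ∣ k ∧ (n : ℚ) = f.eval (m : ℚ) ^ k ∧ IsOrder n).card : ℝ) ≤ C * (Y / Real.log Y) := by
  obtain ⟨C, hC, H⟩ := sqr_zero A f hf
  refine ⟨C + 1, by positivity, fun Y M hY => ?_⟩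
  have h2 : 0 < Real.log Y := Real.log_pos (by exact_mod_cast (by omega : 1 < Y))
  have h3 : (0 : ℝ) < Y := by exact_mod_cast (by omega : 0 < Y)
  have h4 : 0 < (Y : ℝ) / Real.log Y := by positivity
  rcases Nat.lt_or_ge 2 Y with hY3 | hY2
  · have h1 := H Y M hY3 ((Finset.Ioc M (M + Y)).filter fun m : ℤ =>
      ∃ k n : ℕ, ¬ 3 ^ A ∣ k ∧ (n : ℚ) = f.eval (m : ℚ) ^ k ∧ IsOrder n) (by
      intro m hm
      rw [mem_filter, Finset.mem_Ioc] at hm
      exact hm.1) (by
      intro m hm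
      rw [mem_filter] at hm
      exact hm.2)
    refine h1.trans ?_
    unfold rs1
    rw [ex_false, pow_one, add_mul]
    linarith
  · have hY' : Y = 2 := by omega
    have h1 : ((Finset.Ioc M (M + Y)).filter fun m : ℤ =>
      ∃ k n : ℕ, ¬ 3 ^ A ∣ k ∧ (n : ℚ) = f.eval (m : ℚ) ^ k ∧ IsOrder n).card ≤ Y :=
      card_le_Y (M := M) fun m hm => by
        rw [mem_filter, Finset.mem_Ioc] at hm
        exact hm.1
    have h5 : (((Finset.Ioc M (M + Y)).filter fun m : ℤ =>
      ∃ k n : ℕ, ¬ 3 ^ A ∣ k ∧ (n : ℚ) = f.eval (m : ℚ) ^ k ∧ IsOrder n).card : ℝ) ≤ Y := by exact_mod_cast h1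
    have h6 : (Y : ℝ) ≤ Y / Real.log Y := by
      rw [le_div_iff₀ h2]
      have h7 : Real.log Y ≤ 1 := by
        rw [hY']
        have := Real.log_two_lt_d9
        push_cast
        linarith
      nlinarith
    rw [add_mul]
    have h8 : 0 ≤ C * (Y / Real.log Y) := by positivity
    linarith

end Pool.Agent.H37.PS
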