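import Pool.Agent.H37.PP.Defs

/-!
Project PS (MP_e38f6a_co, note 5545): orders among polynomial values, without the factor `(log log Y)²`.  Definitions.
-/

set_option autoImplicit false

namespace Pool.Agent.H37.PS

open Finset Polynomial Pool.Agent.H37.PPC Pool.Agent.H37.PPD Pool.Agent.H37.PB Pool.Agent.H37.PP

/-- the block sum over primes `2^(2^j) ≤ l < 2^(2^(j+1))` -/
noncomputable def sj (χ : ℕ → ℕ → ℝ) (w : ℕ → ℝ) (j m : ℕ) : ℝ :=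
  ∑ l ∈ pr (2 ^ 2 ^ j) (2 ^ 2 ^ (j + 1)), w l * χ l m / l

open Classical in
/-- the bad levels of `m` -/
noncomputable def bad (χ : ℕ → ℕ → ℝ) (w : ℕ → ℝ) (m : ℕ) : Finset ℕ :=
  (Icc 1 (Nat.log 2 m)).filter fun j => 8 * 2 ^ (j + 1) ≤ Nat.log 2 m ∧ 1 / 2 ^ j < |sj χ w j m|

/-- the loss of `m` -/
noncomputable def W (χ : ℕ → ℕ → ℝ) (w : ℕ → ℝ) (m : ℕ) : ℝ := 1 + ∑ j ∈ bad χ w m, (2 : ℝ) ^ (j + 1)

/-- the dyadic sum over primes `2^j ≤ l < 2^(j+1)` -/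
noncomputable def tj (χ : ℕ → ℕ → ℝ) (w : ℕ → ℝ) (j m : ℕ) : ℝ :=
  ∑ l ∈ pr (2 ^ j) (2 ^ (j + 1)), w l * χ l m / l

/-- `m` is long-bad -/
def LB (χ : ℕ → ℕ → ℝ) (w : ℕ → ℝ) (m : ℕ) : Prop :=
  ∃ j : ℕ, 3 * (Nat.log 2 m + 1) ≤ j ∧ j < Nat.log 2 m ^ 6 ∧ 1 / (Nat.log 2 m : ℝ) ^ 6 < |tj χ w j m|

/-- the number sets with `χ l q = -1` below `T` -/
noncomputable def NF (χ : ℕ → ℕ → ℝ) (B q T : ℕ) : Finset ℕ :=
  open Classical in (pr 2 T).filter fun l => B < l ∧ 2 < l ∧ χ l q = -1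

end Pool.Agent.H37.PS
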