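import Pool.Agent.H37.PP.Core
import Pool.Agent.H37.PS.Defs

/-!
PS Cl: the sieve with two prescribed primes, with or without a third polynomial (adapted from H37/PP/Cl).
-/

set_option autoImplicit false

namespace Pool.Agent.H37.PS

open Finset Polynomial Pool.Agent.H37.PPC Pool.Agent.H37.PPD Pool.Agent.H37.PB Pool.Agent.H37.PP

/-- the exponent of the logarithm -/
def ex (t : Bool) : ℕ := if t then 2 else 1

/-- `P` if `t`, nothing otherwise -/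
def zt (t : Bool) (P : Finset ℕ) : Finset ℕ := if t then P else ∅

/-- the gain from `h0` -/
noncomputable def g0 (t : Bool) (y : ℕ) : ℝ := if t then ll y else 0

section

variable {h0 h1 h2 : ℤ[X]} {B D : ℕ} {C : ℝ} {w0 w1 w2 : ℕ → ℝ}

theorem zt_sub (t : Bool) (P : Finset ℕ) : zt t P ⊆ P := by
  unfold zt
  split_ifs
  · exact Subset.refl _
  · exact empty_subset _

theorem zt_sum (t : Bool) (T : Tr h0 h1 h2 B D C w0 w1 w2) {y : ℕ} (hy : 2 ≤ y) (hBy : B ≤ y) {p q : ℕ}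
    (hp : p.Prime) (hq : q.Prime) :
    g0 t y - (2 * D + ll (B + 1) + C) ≤ ∑ l ∈ zt t (pr (B + 1) (y + 1)) \ {p, q}, w0 l / l := by
  have hB2 := T.hB2
  have hC0 : 0 ≤ C := (abs_nonneg _).trans (T.W0.me 2 2 le_rfl le_rfl)
  have h1 := ll_ge3 (Y := B + 1) (by omega)
  have hD : (0 : ℝ) ≤ D := Nat.cast_nonneg _
  cases t
  · have h2 : g0 false y = 0 := by simp [g0]
    rw [h2]
    have h3 : 0 ≤ ∑ l ∈ zt false (pr (B + 1) (y + 1)) \ {p, q}, w0 l / l :=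
      sum_nonneg fun l _ => div_nonneg (T.W0.nn l) (Nat.cast_nonneg _)
    linarith
  · have h2 : g0 true y = ll y := by simp [g0]
    have h3 : zt true (pr (B + 1) (y + 1)) = pr (B + 1) (y + 1) := by simp [zt]
    rw [h2, h3]
    have b0 := lose T.W0.nn T.W0.le (pr (B + 1) (y + 1)) hp hq
    have b3 := sum_all T.W0 hB2 hy hBy
    linarith

theorem pair_count (t : Bool) (T : Tr h0 h1 h2 B D C w0 w1 w2) :
    ∃ K : ℝ, 0 < K ∧ ∃ s : ℕ, 0 < s ∧ ∀ (Y y : ℕ) (M : ℤ), 2 ≤ y → B ≤ y → y ^ (s + 2) ≤ Y →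
    ∀ p q : ℕ, p ∈ pr (B + 1) (y + 1) → q ∈ pr (B + 1) (y + 1) → p ≠ q →
    ∀ Z1 Z2 : Finset ℕ, Z1 ⊆ pr (B + 1) (y + 1) → Z2 ⊆ pr (B + 1) (y + 1) → ∀ S : Finset ℤ,
    (∀ m ∈ S, M < m ∧ m ≤ M + Y ∧ (p : ℤ) ∣ h1.eval m ∧ (q : ℤ) ∣ h2.eval m ∧
      (t = true → ∀ l ∈ pr (B + 1) (y + 1), ¬ (l : ℤ) ∣ h0.eval m) ∧
      (∀ l ∈ Z1, ¬ (l : ℤ) ∣ h1.eval m) ∧ (∀ l ∈ Z2, ¬ (l : ℤ) ∣ h2.eval m)) →
    (S.card : ℝ) ≤ K * (Y / (p * q)) * (Real.exp (-g0 t y) *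
      Real.exp (-(∑ l ∈ Z1, w1 l / l) - ∑ l ∈ Z2, w2 l / l)) := by
  classical
  obtain ⟨K, hK, s, hs, H⟩ := res_count3 T
  refine ⟨K * (D * D) * Real.exp (6 * D + ll (B + 1) + C) + 1, by positivity, s, hs, ?_⟩
  intro Y y M hy hBy hyY p q hp hq hpq Z1 Z2 hZ1 hZ2 S hS
  have hB2 := T.hB2
  have hp' := mem_pr.1 hp
  have hq' := mem_pr.1 hq
  have hpos : 0 < p * q := Nat.mul_pos hp'.2.pos hq'.2.pos
  have hdY : p * q * y ^ s ≤ Y := by
    have h3 : p * q ≤ y * y := Nat.mul_le_mul (by omega) (by omega)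
    calc p * q * y ^ s ≤ y * y * y ^ s := Nat.mul_le_mul_right _ h3
      _ = y ^ (s + 2) := by ring
      _ ≤ Y := hyY
  set R : Finset ℕ := (range (p * q)).filter fun c : ℕ => (p : ℤ) ∣ h1.eval (c : ℤ) ∧ (q : ℤ) ∣ h2.eval (c : ℤ) with hR
  have hpc : Nat.Coprime p q := (Nat.coprime_primes hp'.2 hq'.2).2 hpq
  have hdvd : ∀ (g : ℤ[X]) (a b n : ℤ), n ∣ a - b → (n ∣ g.eval a ↔ n ∣ g.eval b) := by
    intro g a b n h
    have h4 : n ∣ g.eval a - g.eval b := h.trans (Polynomial.sub_dvd_eval_sub a b g)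
    exact (Int.dvd_iff_dvd_of_dvd_sub h4)
  have hRc : R.card ≤ D * D := by
    have h3 : R.card ≤ ((rt h1 p) ×ˢ (rt h2 q)).card := by
      refine card_le_card_of_injOn (fun c => (c % p, c % q)) ?_ ?_
      · intro c hc'
        rw [hR, coe_filter, Set.mem_ofPred_eq, mem_range] at hc'
        rw [coe_product, Set.mem_prod, mem_coe, mem_coe]
        constructor
        · rw [rt, mem_filter, mem_range]
          refine ⟨Nat.mod_lt _ hp'.2.pos, ?_⟩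
          refine (hdvd h1 _ c p ?_).2 hc'.2.1
          push_cast
          exact dvd_sub_comm.1 Int.dvd_self_sub_emod
        · rw [rt, mem_filter, mem_range]
          refine ⟨Nat.mod_lt _ hq'.2.pos, ?_⟩
          refine (hdvd h2 _ c q ?_).2 hc'.2.2
          push_cast
          exact dvd_sub_comm.1 Int.dvd_self_sub_emod
      · intro c hc' c' hc'' he
        rw [hR, coe_filter, Set.mem_ofPred_eq, mem_range] at hc' hc''
        have he1 : c % p = c' % p := congrArg Prod.fst he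
        have he2 : c % q = c' % q := congrArg Prod.snd he
        have h5 : c ≡ c' [MOD p * q] := (Nat.modEq_and_modEq_iff_modEq_mul hpc).1 ⟨he1, he2⟩
        exact Nat.ModEq.eq_of_lt_of_lt h5 hc'.1 hc''.1
    rw [card_product] at h3
    exact h3.trans (Nat.mul_le_mul (T.W1.up p hp'.2 (by omega)) (T.W2.up q hq'.2 (by omega)))
  have hmain := H Y y (p * q) M hy hpos hdY (zt t (pr (B + 1) (y + 1)) \ {p, q}) (Z1 \ {p, q}) (Z2 \ {p, q})
    (sdiff_subset.trans (zt_sub t _)) (sdiff_subset.trans hZ1) (sdiff_subset.trans hZ2) (by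
      intro l hl hd
      have h3 : l ∈ pr (B + 1) (y + 1) ∧ l ∉ ({p, q} : Finset ℕ) := by
        rcases mem_union.1 hl with h | h
        · exact ⟨zt_sub t _ (mem_sdiff.1 h).1, (mem_sdiff.1 h).2⟩
        rcases mem_union.1 h with h | h
        · exact ⟨hZ1 (mem_sdiff.1 h).1, (mem_sdiff.1 h).2⟩
        · exact ⟨hZ2 (mem_sdiff.1 h).1, (mem_sdiff.1 h).2⟩
      have h4 := (mem_pr.1 h3.1).2
      apply h3.2
      rw [mem_insert, mem_singleton]
      rcases (Nat.Prime.dvd_mul h4).1 hd with h5 | h5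
      · exact Or.inl ((Nat.prime_dvd_prime_iff_eq h4 hp'.2).1 h5)
      · exact Or.inr ((Nat.prime_dvd_prime_iff_eq h4 hq'.2).1 h5)) R S (by
      intro m hm
      obtain ⟨a1, a2, a3, a4, a0, a5, a6⟩ := hS m hm
      refine ⟨a1, a2, ?_, fun l hl => ?_, fun l hl => a5 l (mem_sdiff.1 hl).1,
        fun l hl => a6 l (mem_sdiff.1 hl).1⟩
      · have h5 : (0 : ℤ) ≤ m % ((p * q : ℕ) : ℤ) := Int.emod_nonneg m (by exact_mod_cast hpos.ne')
        have h6 : m % ((p * q : ℕ) : ℤ) < ((p * q : ℕ) : ℤ) := Int.emod_lt_of_pos m (by exact_mod_cast hpos)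
        have h7 : ((p * q : ℕ) : ℤ) ∣ m - m % ((p * q : ℕ) : ℤ) := Int.dvd_self_sub_emod
        rw [hR, mem_filter, mem_range, Int.toNat_of_nonneg h5]
        refine ⟨by omega, ?_, ?_⟩
        · refine (hdvd h1 m _ p ?_).1 a3
          exact (Dvd.intro (q : ℤ) (by push_cast; ring)).trans h7
        · refine (hdvd h2 m _ q ?_).1 a4
          exact (Dvd.intro_left (p : ℤ) (by push_cast; ring)).trans h7
      · have h8 := (mem_sdiff.1 hl).1
        cases t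
        · simp [zt] at h8
        · exact a0 rfl l (zt_sub true _ h8))
  have b0 := zt_sum t T hy hBy hp'.2 hq'.2
  have b1 := lose T.W1.nn T.W1.le Z1 hp'.2 hq'.2
  have b2 := lose T.W2.nn T.W2.le Z2 hp'.2 hq'.2
  have hE : Real.exp (-(∑ l ∈ zt t (pr (B + 1) (y + 1)) \ {p, q}, w0 l / l) - (∑ l ∈ Z1 \ {p, q}, w1 l / l)
      - ∑ l ∈ Z2 \ {p, q}, w2 l / l) ≤
      Real.exp (6 * D + ll (B + 1) + C) * (Real.exp (-g0 t y) *
        Real.exp (-(∑ l ∈ Z1, w1 l / l) - ∑ l ∈ Z2, w2 l / l)) := by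
    rw [← Real.exp_add, ← Real.exp_add]
    exact Real.exp_le_exp.2 (by linarith)
  have hRc' : (R.card : ℝ) ≤ D * D := by exact_mod_cast hRc
  have hYp : (0 : ℝ) ≤ (Y : ℝ) / (p * q) := by positivity
  obtain ⟨X, hX⟩ : ∃ X : ℝ, X = Real.exp (-g0 t y) * Real.exp (-(∑ l ∈ Z1, w1 l / l) - ∑ l ∈ Z2, w2 l / l) := ⟨_, rfl⟩
  rw [← hX] at hE ⊢
  have hx : 0 ≤ X := by rw [hX]; positivity
  push_cast at hmain
  refine hmain.trans ?_
  calc K * R.card * (Y / (p * q)) * Real.exp (-(∑ l ∈ zt t (pr (B + 1) (y + 1)) \ {p, q}, w0 l / l)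
        - (∑ l ∈ Z1 \ {p, q}, w1 l / l) - ∑ l ∈ Z2 \ {p, q}, w2 l / l)
      ≤ K * (D * D) * (Y / (p * q)) * (Real.exp (6 * D + ll (B + 1) + C) * X) := by
        apply mul_le_mul _ hE (Real.exp_pos _).le (by positivity)
        apply mul_le_mul_of_nonneg_right _ hYp
        exact mul_le_mul_of_nonneg_left hRc' hK.le
    _ = (K * (D * D) * Real.exp (6 * D + ll (B + 1) + C)) * ((Y / (p * q)) * X) := by ring
    _ ≤ (K * (D * D) * Real.exp (6 * D + ll (B + 1) + C) + 1) * ((Y / (p * q)) * X) := by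
        apply mul_le_mul_of_nonneg_right _ (by positivity)
        linarith
    _ = _ := by ring

/-- no prime in `Z1` divides `h1(m)`, none in `Z2` divides `h2(m)` -/
theorem free_count (t : Bool) (T : Tr h0 h1 h2 B D C w0 w1 w2) :
    ∃ K : ℝ, 0 < K ∧ ∃ s : ℕ, 0 < s ∧ ∀ (Y y : ℕ) (M : ℤ), 2 ≤ y → B ≤ y → y ^ s ≤ Y →
    ∀ Z1 Z2 : Finset ℕ, Z1 ⊆ pr (B + 1) (y + 1) → Z2 ⊆ pr (B + 1) (y + 1) → ∀ S : Finset ℤ,
    (∀ m ∈ S, M < m ∧ m ≤ M + Y ∧ (t = true → ∀ l ∈ pr (B + 1) (y + 1), ¬ (l : ℤ) ∣ h0.eval m) ∧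
      (∀ l ∈ Z1, ¬ (l : ℤ) ∣ h1.eval m) ∧ (∀ l ∈ Z2, ¬ (l : ℤ) ∣ h2.eval m)) →
    (S.card : ℝ) ≤ K * Y * (Real.exp (-g0 t y) *
      Real.exp (-(∑ l ∈ Z1, w1 l / l) - ∑ l ∈ Z2, w2 l / l)) := by
  classical
  obtain ⟨K, hK, s, hs, H⟩ := res_count3 T
  refine ⟨K * Real.exp (2 * D + ll (B + 1) + C), by positivity, s, hs, ?_⟩
  intro Y y M hy hBy hyY Z1 Z2 hZ1 hZ2 S hS
  have h3 := H Y y 1 M hy one_pos (by rw [one_mul]; exact hyY) (zt t (pr (B + 1) (y + 1))) Z1 Z2 (zt_sub t _)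
    hZ1 hZ2 (by
      intro l hl hd
      have h4 : l ∈ pr (B + 1) (y + 1) := by
        rcases mem_union.1 hl with h | h
        · exact zt_sub t _ h
        rcases mem_union.1 h with h | h
        · exact hZ1 h
        · exact hZ2 h
      exact (mem_pr.1 h4).2.one_lt.ne' (Nat.dvd_one.1 hd)) {0} S (by
      intro m hm
      obtain ⟨a1, a2, a3, a4⟩ := hS m hm
      refine ⟨a1, a2, ?_, fun l hl => ?_, a4⟩
      · simp
      · cases t
        · simp [zt] at hl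
        · exact a3 rfl l (zt_sub true _ hl))
  have b3 := zt_sum t T hy hBy Nat.prime_two Nat.prime_two
  have b4 : ∑ l ∈ zt t (pr (B + 1) (y + 1)) \ {2, 2}, w0 l / l ≤ ∑ l ∈ zt t (pr (B + 1) (y + 1)), w0 l / l :=
    sum_le_sum_of_subset_of_nonneg sdiff_subset (fun l _ _ => div_nonneg (T.W0.nn l) (Nat.cast_nonneg _))
  rw [card_singleton, Nat.cast_one, mul_one, div_one] at h3
  refine h3.trans ?_
  have hE : Real.exp (-(∑ l ∈ zt t (pr (B + 1) (y + 1)), w0 l / l) - (∑ l ∈ Z1, w1 l / l) - ∑ l ∈ Z2, w2 l / l) ≤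
      Real.exp (2 * D + ll (B + 1) + C) * (Real.exp (-g0 t y) *
        Real.exp (-(∑ l ∈ Z1, w1 l / l) - ∑ l ∈ Z2, w2 l / l)) := by
    rw [← Real.exp_add, ← Real.exp_add]
    exact Real.exp_le_exp.2 (by linarith)
  refine (mul_le_mul_of_nonneg_left hE (by positivity)).trans (le_of_eq (by ring))

end

end Pool.Agent.H37.PS
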