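import Pool.Agent.H37.PS.Defs

/-!
PS Hs: the half sums without loss (note 5545, (2)(C)).  Adapted from H37/PB/Hf.lean (`half_lower`).
-/

set_option autoImplicit false

namespace Pool.Agent.H37.PS

open Finset Polynomial Pool.Agent.H37.PPC Pool.Agent.H37.PPD Pool.Agent.H37.PB

private theorem hs_lg2 : (0.69 : ℝ) < Real.log 2 ∧ Real.log 2 < 0.7 :=
  ⟨by have := Real.log_two_gt_d9; linarith, by have := Real.log_two_lt_d9; linarith⟩

/-- `ll (2^m) = log m + log log 2` -/
private theorem hs_ll_pow (m : ℕ) (hm : 1 ≤ m) : ll (2 ^ m) = Real.log m + Real.log (Real.log 2) := by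
  have h0 := hs_lg2
  have h1 : (1 : ℝ) ≤ m := by exact_mod_cast hm
  unfold ll
  rw [Nat.cast_pow, Real.log_pow, Nat.cast_ofNat, Real.log_mul (by positivity) (by linarith [h0.1])]

/-- splitting an interval of primes -/
private theorem hs_split (f : ℕ → ℝ) {a b c : ℕ} (hab : a ≤ b) (hbc : b ≤ c) :
    ∑ l ∈ pr a c, f l = ∑ l ∈ pr a b, f l + ∑ l ∈ pr b c, f l := by
  unfold pr
  rw [sum_filter, sum_filter, sum_filter]
  exact (sum_Ico_consecutive _ hab hbc).symm

/-- blocks -/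
private theorem hs_blocks (f : ℕ → ℝ) (u : ℕ → ℕ) (hu : Monotone u) {a K : ℕ} (h : a ≤ K) :
    ∑ l ∈ pr (u a) (u K), f l = ∑ j ∈ Ico a K, ∑ l ∈ pr (u j) (u (j + 1)), f l := by
  induction K, h using Nat.le_induction with
  | base => simp [pr]
  | succ K hK ih =>
    rw [sum_Ico_succ_top hK, ← ih]
    exact hs_split f (hu hK) (hu (Nat.le_succ K))

private theorem hs_geom {a : ℕ} (ha : 1 ≤ a) (K : ℕ) (h : a ≤ K) : ∑ j ∈ Ico a K, (1 : ℝ) / 2 ^ j ≤ 1 := by
  have h1 : ∑ j ∈ Ico a K, (1 : ℝ) / 2 ^ j = 2 / 2 ^ a - 2 / 2 ^ K := by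
    induction K, h using Nat.le_induction with
    | base => simp
    | succ K hK ih =>
      rw [sum_Ico_succ_top hK, ih, pow_succ]
      field_simp
      ring
  have h2 : (2 : ℝ) ≤ 2 ^ a := by
    calc (2 : ℝ) = 2 ^ 1 := (pow_one 2).symm
      _ ≤ 2 ^ a := pow_le_pow_right₀ (by norm_num) ha
  have h3 : (2 : ℝ) / 2 ^ a ≤ 1 := by rw [div_le_one (by positivity)]; exact h2
  have h4 : (0 : ℝ) ≤ 2 / 2 ^ K := by positivity
  linarith

private theorem hs_half {D : ℕ} {w : ℕ → ℝ} (hnn : ∀ l, 0 ≤ w l) (hle : ∀ l, w l ≤ D) (χ : ℕ → ℕ → ℝ) (B q T : ℕ)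
    (hχ : ∀ l : ℕ, l.Prime → 2 < l → l ≠ q → χ l q = 1 ∨ χ l q = -1) (hb : ∀ l, |χ l q| ≤ 1)
    (P : Finset ℕ) (hP : ∀ l ∈ P, l ∈ pr 2 T ∧ 2 < l) :
    ∑ l ∈ P, (w l / l - w l * χ l q / l) ≤ 2 * ∑ l ∈ NF χ B q T, w l / l + 2 * (D * (B + 2)) := by
  classical
  have h0 : ∀ l, 0 ≤ w l / (l : ℝ) := fun l => div_nonneg (hnn l) (Nat.cast_nonneg l)
  have h1D : ∀ l, w l / (l : ℝ) ≤ D := by
    intro l
    rcases Nat.eq_zero_or_pos l with h | h
    · rw [h]; simp
    · have h1 : (1 : ℝ) ≤ l := by exact_mod_cast h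
      exact le_trans (div_le_self (hnn l) h1) (hle l)
  have hD0 : (0 : ℝ) ≤ D := Nat.cast_nonneg D
  have hterm : ∀ l ∈ P, w l / l - w l * χ l q / l ≤
      (if l ∈ NF χ B q T then 2 * (w l / l) else 0) +
        (if l ∈ insert q (range (B + 1)) then 2 * (D : ℝ) else 0) := by
    intro l hl
    obtain ⟨hl1, hl2⟩ := hP l hl
    have hlp := (mem_pr.mp hl1).2
    have e : w l / l - w l * χ l q / l = w l / l * (1 - χ l q) := by ring
    have hb1 := abs_le.mp (hb l)
    have h0l := h0 l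
    rw [e]
    by_cases h : l ∈ insert q (range (B + 1))
    · rw [if_pos h]
      have h2 : w l / l * (1 - χ l q) ≤ D * 2 := mul_le_mul (h1D l) (by linarith) (by linarith) hD0
      split_ifs
      · linarith
      · linarith
    · rw [if_neg h]
      rw [mem_insert, mem_range, not_or] at h
      rcases hχ l hlp hl2 h.1 with h3 | h3
      · rw [h3]
        split_ifs
        · linarith
        · linarith
      · have h4 : l ∈ NF χ B q T := by
          unfold NF
          rw [mem_filter]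
          exact ⟨hl1, by omega, hl2, h3⟩
        rw [if_pos h4, h3]
        linarith
  refine (sum_le_sum hterm).trans ?_
  rw [sum_add_distrib]
  have hA : ∑ l ∈ P, (if l ∈ NF χ B q T then 2 * (w l / (l : ℝ)) else 0) ≤
      2 * ∑ l ∈ NF χ B q T, w l / l := by
    rw [← sum_filter, mul_sum]
    exact sum_le_sum_of_subset_of_nonneg (fun l hl => (mem_filter.mp hl).2) fun l _ _ => by
      linarith [h0 l]
  have hB : ∑ l ∈ P, (if l ∈ insert q (range (B + 1)) then 2 * (D : ℝ) else 0) ≤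
      2 * (D * (B + 2)) := by
    rw [← sum_filter, sum_const, nsmul_eq_mul]
    have hc : (P.filter (fun l => l ∈ insert q (range (B + 1)))).card ≤ B + 2 := by
      refine (card_le_card (fun l hl => (mem_filter.mp hl).2)).trans ?_
      refine (card_insert_le _ _).trans ?_
      rw [card_range]
    have hc' : (((P.filter (fun l => l ∈ insert q (range (B + 1)))).card : ℕ) : ℝ) ≤ B + 2 := by
      exact_mod_cast hc
    nlinarith
  exact add_le_add hA hB

private theorem hs_log_bd {n m : ℕ} (hn : 0 < n) (hm : 1 ≤ m) (h : n < 2 ^ (m + 1)) : Real.log n ≤ 2 * m := by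
  have h0 := hs_lg2
  have h1 : (1 : ℝ) ≤ m := by exact_mod_cast hm
  have h2 : Real.log n ≤ Real.log ((2 ^ (m + 1) : ℕ) : ℝ) :=
    Real.log_le_log (by exact_mod_cast hn) (by exact_mod_cast h.le)
  rw [Nat.cast_pow, Real.log_pow] at h2
  push_cast at h2
  nlinarith [h0.1, h0.2]

theorem half_all (h : ℤ[X]) (B D : ℕ) (C : ℝ) (w : ℕ → ℝ) (hw : Wt h B D C w) (χ : ℕ → ℕ → ℝ) :
    ∃ C1 : ℝ, 0 < C1 ∧ ∀ q T : ℕ, 3 ≤ q → ¬ LB χ w q →
      (∀ l : ℕ, l.Prime → 2 < l → l ≠ q → χ l q = 1 ∨ χ l q = -1) → (∀ l, |χ l q| ≤ 1) → 2 ≤ T →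
      Real.exp (-∑ l ∈ NF χ B q T, w l / l) ≤
        C1 * W χ w q * (1 / Real.sqrt (Real.log T) + 1 / (Real.log q) ^ 3) := by
  have hC : 0 ≤ C := le_trans (abs_nonneg _) (hw.me 2 2 le_rfl le_rfl)
  obtain ⟨G, hG⟩ : ∃ G : ℝ, G = C + 1 + D * (B + 2) := ⟨_, rfl⟩
  refine ⟨100 * Real.exp G, by positivity, ?_⟩
  intro q T hq hLB hχ hb hT
  obtain ⟨hlg1, hlg2⟩ := hs_lg2
  have hDB : (0 : ℝ) ≤ D * (B + 2) := by positivity
  set i := Nat.log 2 q with hi
  set Lg := Nat.log 2 T with hLg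
  have hi1 : 1 ≤ i := Nat.log_pos (by norm_num) (by omega)
  have hL1 : 1 ≤ Lg := Nat.log_pos (by norm_num) hT
  have hTge : 2 ^ Lg ≤ T := Nat.pow_log_le_self 2 (by omega)
  have hlogT : Real.log T ≤ 2 * Lg :=
    hs_log_bd (by omega) hL1 (Nat.lt_pow_succ_log_self (by norm_num) T)
  have hlogq : Real.log q ≤ 2 * i :=
    hs_log_bd (by omega) hi1 (Nat.lt_pow_succ_log_self (by norm_num) q)
  have hlogT0 : 0 < Real.log T := Real.log_pos (by exact_mod_cast (by omega : 1 < T))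
  have hlogq0 : 0 < Real.log q := Real.log_pos (by exact_mod_cast (by omega : 1 < q))
  have hi1r : (1 : ℝ) ≤ i := by exact_mod_cast hi1
  have hL1r : (1 : ℝ) ≤ Lg := by exact_mod_cast hL1
  -- the loss
  have hWs : 0 ≤ ∑ j ∈ bad χ w q, (2 : ℝ) ^ (j + 1) := sum_nonneg fun j _ => by positivity
  have hWe : W χ w q = 1 + ∑ j ∈ bad χ w q, (2 : ℝ) ^ (j + 1) := rfl
  have hW1 : 1 ≤ W χ w q := by rw [hWe]; linarith
  obtain ⟨a, ha1, ha2, ha3⟩ : ∃ a : ℕ, 1 ≤ a ∧ (2 : ℝ) ^ a ≤ 2 * W χ w q ∧ ∀ j ∈ bad χ w q, j < a := by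
    rcases (bad χ w q).eq_empty_or_nonempty with h0 | h0
    · refine ⟨1, le_rfl, by linarith, ?_⟩
      intro j hj
      rw [h0] at hj
      exact absurd hj (notMem_empty j)
    · refine ⟨(bad χ w q).max' h0 + 1, by omega, ?_, fun j hj => Nat.lt_succ_of_le (le_max' _ j hj)⟩
      have h1 : (2 : ℝ) ^ ((bad χ w q).max' h0 + 1) ≤ ∑ j ∈ bad χ w q, (2 : ℝ) ^ (j + 1) :=
        single_le_sum (f := fun j : ℕ => (2 : ℝ) ^ (j + 1)) (fun j _ => by positivity) (max'_mem _ h0)
      rw [hWe]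
      linarith
  -- the short part
  set K := Nat.log 2 (min Lg (i / 8)) with hK
  have hX1 : ((K : ℝ) - a) * Real.log 2 - C - 1 ≤
      ∑ l ∈ pr (2 ^ 2 ^ a) (2 ^ 2 ^ K), (w l / l - w l * χ l q / l) := by
    rcases Nat.lt_or_ge K a with h | h
    · have he : pr (2 ^ 2 ^ a) (2 ^ 2 ^ K) = ∅ := by
        unfold pr
        rw [Ico_eq_empty_of_le (Nat.pow_le_pow_right (by norm_num)
          (Nat.pow_le_pow_right (by norm_num) h.le)), filter_empty]
      rw [he, sum_empty]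
      have h1 : (K : ℝ) ≤ a := by exact_mod_cast h.le
      nlinarith
    · rw [sum_sub_distrib]
      have hle : 2 ^ 2 ^ a ≤ 2 ^ 2 ^ K :=
        Nat.pow_le_pow_right (by norm_num) (Nat.pow_le_pow_right (by norm_num) h)
      have h2a : 2 ≤ 2 ^ 2 ^ a := le_trans (by norm_num : 2 ≤ 2 ^ 1)
        (Nat.pow_le_pow_right (by norm_num) Nat.one_le_two_pow)
      have hme := (abs_le.mp (hw.me (2 ^ 2 ^ a) (2 ^ 2 ^ K) h2a hle)).1
      rw [hs_ll_pow _ Nat.one_le_two_pow, hs_ll_pow _ Nat.one_le_two_pow] at hme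
      push_cast at hme
      rw [Real.log_pow, Real.log_pow] at hme
      have hbl := hs_blocks (fun l => w l * χ l q / l) (fun j => 2 ^ 2 ^ j)
        (fun x y hxy => Nat.pow_le_pow_right (by norm_num) (Nat.pow_le_pow_right (by norm_num) hxy)) h
      have hs : ∑ j ∈ Ico a K, ∑ l ∈ pr (2 ^ 2 ^ j) (2 ^ 2 ^ (j + 1)), w l * χ l q / l ≤ 1 := by
        have hK0 : min Lg (i / 8) ≠ 0 := by
          intro h0
          have h1 : K = 0 := by rw [hK, h0, Nat.log_zero_right]
          omega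
        have h8 : 8 * 2 ^ K ≤ i := by
          have h1 : 2 ^ K ≤ min Lg (i / 8) := Nat.pow_log_le_self 2 hK0
          have h2 := h1.trans (min_le_right _ _)
          omega
        refine le_trans (sum_le_sum fun j hj => ?_) (hs_geom ha1 K h)
        obtain ⟨hj1, hj2⟩ := mem_Ico.mp hj
        have h2 : |sj χ w j q| ≤ 1 / 2 ^ j := by
          by_contra hcon
          have h3 : 8 * 2 ^ (j + 1) ≤ i :=
            le_trans (Nat.mul_le_mul_left 8 (Nat.pow_le_pow_right (by norm_num) hj2)) h8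
          have h4 : j < 2 ^ j := Nat.lt_two_pow_self
          have h5 : j ∈ bad χ w q := by
            unfold bad
            rw [mem_filter, mem_Icc]
            refine ⟨⟨by omega, ?_⟩, h3, not_le.mp hcon⟩
            rw [pow_succ] at h3
            omega
          exact absurd (ha3 j h5) (by omega)
        exact le_trans (le_abs_self _) h2
      have hbl' : ∑ l ∈ pr (2 ^ 2 ^ a) (2 ^ 2 ^ K), w l * χ l q / l ≤ 1 := hbl.le.trans hs
      linarith
  -- the long part
  set J := min Lg (i ^ 6) with hJ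
  have hJ1 : 1 ≤ J := le_min hL1 (Nat.one_le_pow _ _ hi1)
  have hJ1r : (1 : ℝ) ≤ J := by exact_mod_cast hJ1
  have hX2 : Real.log J - Real.log (3 * (i + 1)) - C - 1 ≤
      ∑ l ∈ pr (2 ^ (3 * (i + 1))) (2 ^ J), (w l / l - w l * χ l q / l) := by
    rcases Nat.lt_or_ge J (3 * (i + 1)) with h | h
    · have he : pr (2 ^ (3 * (i + 1))) (2 ^ J) = ∅ := by
        unfold pr
        rw [Ico_eq_empty_of_le (Nat.pow_le_pow_right (by norm_num) h.le), filter_empty]
      rw [he, sum_empty]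
      have h1 : Real.log J ≤ Real.log (3 * (i + 1)) :=
        Real.log_le_log (by linarith) (by exact_mod_cast h.le)
      linarith
    · rw [sum_sub_distrib]
      have h2a : 2 ≤ 2 ^ (3 * (i + 1)) := le_trans (by norm_num : 2 ≤ 2 ^ 1)
        (Nat.pow_le_pow_right (by norm_num) (by omega))
      have hme := (abs_le.mp (hw.me (2 ^ (3 * (i + 1))) (2 ^ J) h2a
        (Nat.pow_le_pow_right (by norm_num) h))).1
      rw [hs_ll_pow J hJ1, hs_ll_pow (3 * (i + 1)) (by omega)] at hme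
      push_cast at hme
      have hbl := hs_blocks (fun l => w l * χ l q / l) (fun j => 2 ^ j)
        (fun x y hxy => Nat.pow_le_pow_right (by norm_num) hxy) h
      have hs : ∑ j ∈ Ico (3 * (i + 1)) J, ∑ l ∈ pr (2 ^ j) (2 ^ (j + 1)), w l * χ l q / l ≤ 1 := by
        have h1 : ∀ j ∈ Ico (3 * (i + 1)) J,
            ∑ l ∈ pr (2 ^ j) (2 ^ (j + 1)), w l * χ l q / l ≤ 1 / (i : ℝ) ^ 6 := by
          intro j hj
          rw [mem_Ico] at hj
          have h2 : |tj χ w j q| ≤ 1 / (i : ℝ) ^ 6 := by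
            by_contra hcon
            exact hLB ⟨j, hj.1, lt_of_lt_of_le hj.2 (min_le_right _ _), not_le.mp hcon⟩
          exact le_trans (le_abs_self _) h2
        refine (sum_le_card_nsmul _ _ _ h1).trans ?_
        rw [Nat.card_Ico, nsmul_eq_mul, mul_one_div, div_le_one (by positivity)]
        have h3 : J - 3 * (i + 1) ≤ i ^ 6 := (Nat.sub_le _ _).trans (min_le_right _ _)
        exact_mod_cast h3
      have hbl' : ∑ l ∈ pr (2 ^ (3 * (i + 1))) (2 ^ J), w l * χ l q / l ≤ 1 := hbl.le.trans hs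
      linarith
  -- together
  have hK2 : 2 ^ K ≤ Lg ∧ 2 ^ K ≤ 3 * (i + 1) := by
    rcases Nat.eq_zero_or_pos (min Lg (i / 8)) with h0 | h0
    · have h1 : K = 0 := by rw [hK, h0, Nat.log_zero_right]
      rw [h1, pow_zero]
      omega
    · have h1 : 2 ^ K ≤ min Lg (i / 8) := Nat.pow_log_le_self 2 (by omega)
      have h2 := h1.trans (min_le_right _ _)
      exact ⟨h1.trans (min_le_left _ _), by omega⟩
  have hdisj : Disjoint (pr (2 ^ 2 ^ a) (2 ^ 2 ^ K)) (pr (2 ^ (3 * (i + 1))) (2 ^ J)) := by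
    rw [Finset.disjoint_left]
    intro l h1 h2
    have h3 := (mem_pr.mp h1).1.2
    have h4 := (mem_pr.mp h2).1.1
    have h5 : 2 ^ 2 ^ K ≤ 2 ^ (3 * (i + 1)) := Nat.pow_le_pow_right (by norm_num) hK2.2
    omega
  have hX := hs_half hw.nn hw.le χ B q T hχ hb
    (pr (2 ^ 2 ^ a) (2 ^ 2 ^ K) ∪ pr (2 ^ (3 * (i + 1))) (2 ^ J)) (by
      intro l hl
      rw [mem_union] at hl
      rcases hl with hl | hl
      · obtain ⟨⟨h1, h2⟩, h3⟩ := mem_pr.mp hl
        have h4 : 2 ^ 2 ≤ 2 ^ 2 ^ a := Nat.pow_le_pow_right (by norm_num)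
          (le_trans (by norm_num : 2 ≤ 2 ^ 1) (Nat.pow_le_pow_right (by norm_num) ha1))
        have h5 : 2 ^ 2 ^ K ≤ T := (Nat.pow_le_pow_right (by norm_num) hK2.1).trans hTge
        exact ⟨mem_pr.mpr ⟨⟨by omega, by omega⟩, h3⟩, by omega⟩
      · obtain ⟨⟨h1, h2⟩, h3⟩ := mem_pr.mp hl
        have h4 : 2 ^ 3 ≤ 2 ^ (3 * (i + 1)) := Nat.pow_le_pow_right (by norm_num) (by omega)
        have h5 : 2 ^ J ≤ T := (Nat.pow_le_pow_right (by norm_num) (min_le_left _ _)).trans hTge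
        exact ⟨mem_pr.mpr ⟨⟨by omega, by omega⟩, h3⟩, by omega⟩)
  rw [sum_union hdisj] at hX
  have hX2n : 0 ≤ ∑ l ∈ pr (2 ^ (3 * (i + 1))) (2 ^ J), (w l / l - w l * χ l q / l) := by
    refine sum_nonneg fun l _ => ?_
    have e : w l / l - w l * χ l q / l = w l / l * (1 - χ l q) := by ring
    rw [e]
    exact mul_nonneg (div_nonneg (hw.nn l) (Nat.cast_nonneg l)) (by linarith [(abs_le.mp (hb l)).2])
  set S := ∑ l ∈ NF χ B q T, w l / l with hS
  have hZ2 : Real.exp (-S) ^ 2 = Real.exp (-(2 * S)) := by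
    rw [← Real.exp_nat_mul]
    congr 1
    push_cast
    ring
  have hZ0 := Real.exp_pos (-S)
  have hE0 := Real.exp_pos G
  have h2a : Real.exp ((a : ℝ) * Real.log 2) = 2 ^ a := by
    rw [Real.exp_nat_mul, Real.exp_log (by norm_num)]
  have h2K : Real.exp ((K : ℝ) * Real.log 2) = 2 ^ K := by
    rw [Real.exp_nat_mul, Real.exp_log (by norm_num)]
  have hG2 : Real.exp (2 * G) = Real.exp G ^ 2 := by
    rw [← Real.exp_nat_mul]
    norm_num
  have hWE : 0 < W χ w q * Real.exp G := by positivity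
  have hWE2 : W χ w q * Real.exp G ^ 2 ≤ (W χ w q * Real.exp G) ^ 2 := by
    rw [mul_pow]
    apply mul_le_mul_of_nonneg_right _ (by positivity)
    nlinarith
  -- the two final comparisons
  have fin1 : Real.exp (-S) ^ 2 ≤ 200 * (W χ w q * Real.exp G) ^ 2 / Real.log T →
      Real.exp (-S) ≤ 100 * Real.exp G * W χ w q * (1 / Real.sqrt (Real.log T) + 1 / Real.log q ^ 3) := by
    intro hh
    have hsq : 0 < Real.sqrt (Real.log T) := Real.sqrt_pos.mpr hlogT0
    have h1 : Real.exp (-S) ≤ 100 * (W χ w q * Real.exp G) / Real.sqrt (Real.log T) := by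
      refine le_trans (le_abs_self _) (abs_le_of_sq_le_sq ?_ (by positivity))
      rw [div_pow, Real.sq_sqrt hlogT0.le]
      refine hh.trans ?_
      apply div_le_div_of_nonneg_right _ hlogT0.le
      nlinarith [sq_nonneg (W χ w q * Real.exp G)]
    have h2 : 0 ≤ 100 * (W χ w q * Real.exp G) * (1 / Real.log q ^ 3) := by positivity
    have e : 100 * Real.exp G * W χ w q * (1 / Real.sqrt (Real.log T) + 1 / Real.log q ^ 3) =
        100 * (W χ w q * Real.exp G) / Real.sqrt (Real.log T) +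
          100 * (W χ w q * Real.exp G) * (1 / Real.log q ^ 3) := by ring
    rw [e]
    linarith
  have fin2 : Real.exp (-S) ^ 2 ≤ 96 * (W χ w q * Real.exp G) ^ 2 / (i : ℝ) ^ 6 →
      Real.exp (-S) ≤ 100 * Real.exp G * W χ w q * (1 / Real.sqrt (Real.log T) + 1 / Real.log q ^ 3) := by
    intro hh
    have hq3 : 0 < Real.log q ^ 3 := by positivity
    have h1 : Real.exp (-S) ≤ 100 * (W χ w q * Real.exp G) / Real.log q ^ 3 := by
      refine le_trans (le_abs_self _) (abs_le_of_sq_le_sq ?_ (by positivity))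
      rw [div_pow]
      refine hh.trans ?_
      rw [div_le_div_iff₀ (by positivity) (by positivity)]
      have h3 : (Real.log q ^ 3) ^ 2 ≤ 64 * (i : ℝ) ^ 6 := by
        calc (Real.log q ^ 3) ^ 2 = Real.log q ^ 6 := by ring
          _ ≤ (2 * (i : ℝ)) ^ 6 := pow_le_pow_left₀ hlogq0.le hlogq 6
          _ = 64 * (i : ℝ) ^ 6 := by ring
      have h4 : 0 ≤ 96 * (W χ w q * Real.exp G) ^ 2 := by positivity
      have h5 := mul_le_mul_of_nonneg_left h3 h4
      have h6 : 0 ≤ (W χ w q * Real.exp G) ^ 2 * (i : ℝ) ^ 6 := by positivity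
      nlinarith
    have h2 : 0 ≤ 100 * (W χ w q * Real.exp G) * (1 / Real.sqrt (Real.log T)) := by positivity
    have e : 100 * Real.exp G * W χ w q * (1 / Real.sqrt (Real.log T) + 1 / Real.log q ^ 3) =
        100 * (W χ w q * Real.exp G) / Real.log q ^ 3 +
          100 * (W χ w q * Real.exp G) * (1 / Real.sqrt (Real.log T)) := by ring
    rw [e]
    linarith
  rcases le_or_gt Lg (i / 8) with hc | hc
  · -- `T` is small
    apply fin1
    have hK3 : K = Nat.log 2 Lg := by rw [hK, min_eq_left hc]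
    have hK4 : Lg < 2 ^ (K + 1) := by rw [hK3]; exact Nat.lt_pow_succ_log_self (by norm_num) Lg
    have hK5 : (Lg : ℝ) ≤ 2 * 2 ^ K := by
      have h1 : (Lg : ℝ) ≤ ((2 ^ (K + 1) : ℕ) : ℝ) := by exact_mod_cast hK4.le
      push_cast at h1
      rw [pow_succ] at h1
      linarith
    have h1 : -(2 * S) ≤ (a : ℝ) * Real.log 2 - (K : ℝ) * Real.log 2 + 2 * G := by
      rw [hG]
      nlinarith
    rw [hZ2]
    refine (Real.exp_le_exp.mpr h1).trans ?_
    rw [Real.exp_add, Real.exp_sub, h2a, h2K, hG2]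
    have h3 : (2 : ℝ) ^ a / 2 ^ K ≤ 8 * W χ w q / Real.log T := by
      rw [div_le_div_iff₀ (by positivity) hlogT0]
      have h4 : Real.log T ≤ 4 * 2 ^ K := by linarith
      calc (2 : ℝ) ^ a * Real.log T ≤ (2 * W χ w q) * (4 * 2 ^ K) :=
            mul_le_mul ha2 h4 hlogT0.le (by linarith)
        _ = 8 * W χ w q * 2 ^ K := by ring
    calc (2 : ℝ) ^ a / 2 ^ K * Real.exp G ^ 2 ≤ 8 * W χ w q / Real.log T * Real.exp G ^ 2 :=
          mul_le_mul_of_nonneg_right h3 (by positivity)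
      _ = 8 * (W χ w q * Real.exp G ^ 2) / Real.log T := by ring
      _ ≤ 200 * (W χ w q * Real.exp G) ^ 2 / Real.log T := by
          apply div_le_div_of_nonneg_right _ hlogT0.le
          nlinarith [sq_nonneg (W χ w q * Real.exp G)]
  · -- `T` is large
    have hK3 : K = Nat.log 2 (i / 8) := by rw [hK, min_eq_right hc.le]
    have hK4 : i / 8 < 2 ^ (K + 1) := by rw [hK3]; exact Nat.lt_pow_succ_log_self (by norm_num) _
    have hK5 : (i : ℝ) + 1 ≤ 16 * 2 ^ K := by
      have h1 : i + 1 ≤ 16 * 2 ^ K := by rw [pow_succ] at hK4; omega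
      exact_mod_cast h1
    have h1 : -(2 * S) ≤ (a : ℝ) * Real.log 2 - (K : ℝ) * Real.log 2 + Real.log (3 * (i + 1)) - Real.log J +
        2 * G := by
      rw [hG]
      nlinarith
    have h2 : Real.exp (-S) ^ 2 ≤ 96 * (W χ w q * Real.exp G) ^ 2 / J := by
      rw [hZ2]
      refine (Real.exp_le_exp.mpr h1).trans ?_
      rw [Real.exp_add, Real.exp_sub, Real.exp_add, Real.exp_sub, h2a, h2K, hG2, Real.exp_log (by positivity),
        Real.exp_log (by linarith)]
      have h3 : (2 : ℝ) ^ a / 2 ^ K * (3 * (i + 1)) ≤ 96 * W χ w q := by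
        rw [div_mul_eq_mul_div, div_le_iff₀ (by positivity)]
        calc (2 : ℝ) ^ a * (3 * (i + 1)) ≤ (2 * W χ w q) * (3 * (16 * 2 ^ K)) :=
              mul_le_mul ha2 (by linarith) (by positivity) (by linarith)
          _ = 96 * W χ w q * 2 ^ K := by ring
      calc (2 : ℝ) ^ a / 2 ^ K * (3 * (i + 1)) / J * Real.exp G ^ 2
          ≤ 96 * W χ w q / J * Real.exp G ^ 2 := by gcongr
        _ = 96 * (W χ w q * Real.exp G ^ 2) / J := by ring
        _ ≤ 96 * (W χ w q * Real.exp G) ^ 2 / J := by gcongr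
    rcases le_or_gt Lg (i ^ 6) with hd | hd
    · apply fin1
      have hJ2 : J = Lg := by rw [hJ, min_eq_left hd]
      rw [hJ2] at h2
      refine h2.trans ?_
      rw [div_le_div_iff₀ (by linarith) hlogT0]
      have h4 : 0 ≤ (W χ w q * Real.exp G) ^ 2 := by positivity
      have h5 := mul_le_mul_of_nonneg_left hlogT h4
      nlinarith
    · apply fin2
      have hJ2 : J = i ^ 6 := by rw [hJ, min_eq_right hd.le]
      rw [hJ2] at h2
      push_cast at h2
      exact h2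

end Pool.Agent.H37.PS
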