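import Pool.Agent.H37.PS.Dual

/-!
PS Lb: the long-bad primes are rare (note 5545, (2)(B)).

Block `i = Nat.log 2 m` (`2^i ≤ m < 2^(i+1)`, `i ≥ 1`; `i = 1` gives no `j`).  For `3 (i+1) ≤ j < i^6` apply `dual_ls` with `Q` = the primes `2 < m` of the block in `S`,
`P = 2^(i+1)`, `z = 2^j`, `a l = w l / l` for `l` prime, `0` otherwise: `∑ q (tj q)² ≤ 20 · 2^j · ∑_{2^j ≤ l < 2^(j+1)} D²/l² ≤ 20 D²`.  So at most `20 D² i^12` of them have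
`|tj| > 1/i^6`; union over `j`: at most `20 D² i^18`; each has `log m / m ≤ (i+1)/2^i`; `∑_i i^18 (i+1)/2^i` converges.
-/

set_option autoImplicit false

namespace Pool.Agent.H37.PS

open Finset Pool.Agent.H37.PPC Pool.Agent.H37.PPD Pool.Agent.H37.PB

private theorem card_ij (χ ψ : ℕ → ℕ → ℝ) (w : ℕ → ℝ) (D : ℕ) (hw0 : ∀ l, 0 ≤ w l) (hwD : ∀ l, w l ≤ D)
    (h1 : ∀ l m, |ψ l m| ≤ 1) (h3 : ∀ l m : ℕ, l.Prime → m.Prime → 2 < l → 2 < m → χ l m = ψ l m)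
    (h2 : ∀ q q' N : ℕ, q.Prime → q'.Prime → 2 < q → 2 < q' → q ≠ q' →
      |∑ l ∈ Icc 1 N, ψ l q * ψ l q'| ≤ 4 * q * q') (i j : ℕ) (hi : 1 ≤ i) (hj : 3 * (i + 1) ≤ j)
    (Q : Finset ℕ) (hQ : ∀ q ∈ Q, q.Prime ∧ 2 < q ∧ q < 2 ^ (i + 1) ∧ 1 / (i : ℝ) ^ 6 < |tj χ w j q|) :
    (Q.card : ℝ) ≤ 20 * (D : ℝ) ^ 2 * (i : ℝ) ^ 12 := by
  obtain ⟨a, ha⟩ : ∃ a : ℕ → ℝ, a = fun l => if l.Prime then w l / l else 0 := ⟨_, rfl⟩
  have hz : (2 : ℕ) ^ (j + 1) = 2 * 2 ^ j := by rw [pow_succ, mul_comm]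
  have hj6 : 6 ≤ j := by omega
  have h64 : 2 < 2 ^ j := by
    calc 2 < 2 ^ 6 := by norm_num
      _ ≤ 2 ^ j := Nat.pow_le_pow_right (by norm_num) hj6
  have hT : ∀ q ∈ Q, ∑ l ∈ Ico (2 ^ j) (2 * 2 ^ j), a l * ψ l q = tj χ w j q := by
    intro q hq
    unfold tj pr
    rw [Finset.sum_filter, hz]
    refine sum_congr rfl fun l hl => ?_
    rw [mem_Ico] at hl
    rw [ha]
    by_cases hp : l.Prime
    · simp only [if_pos hp]
      rw [h3 l q hp (hQ q hq).1 (by omega) (hQ q hq).2.1]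
      ring
    · simp only [if_neg hp, zero_mul]
  have h2j : (0 : ℝ) < (2 : ℝ) ^ j := by positivity
  have haD : ∀ l ∈ Ico (2 ^ j) (2 * 2 ^ j), a l ^ 2 ≤ ((D : ℝ) / 2 ^ j) ^ 2 := by
    intro l hl
    rw [mem_Ico] at hl
    have hl' : ((2 : ℝ) ^ j) ≤ l := by exact_mod_cast hl.1
    rw [ha]
    by_cases hp : l.Prime
    · simp only [if_pos hp]
      refine pow_le_pow_left₀ (div_nonneg (hw0 l) (Nat.cast_nonneg _)) ?_ 2
      exact div_le_div₀ (Nat.cast_nonneg _) (hwD l) h2j hl'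
    · simp only [if_neg hp]
      rw [zero_pow two_ne_zero]
      positivity
  have hsum : ∑ l ∈ Ico (2 ^ j) (2 * 2 ^ j), a l ^ 2 ≤ 2 ^ j * ((D : ℝ) / 2 ^ j) ^ 2 := by
    refine (sum_le_sum haD).trans (le_of_eq ?_)
    rw [sum_const, Nat.card_Ico, nsmul_eq_mul]
    have : 2 * 2 ^ j - 2 ^ j = 2 ^ j := by omega
    rw [this]
    push_cast
    ring
  have hmain := dual_ls ψ Q (2 ^ (i + 1)) (2 ^ j) (fun q hq => ⟨by have := (hQ q hq).2.1; omega, (hQ q hq).2.2.1.le⟩)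
    (Nat.one_le_pow _ _ (by norm_num)) (by
      rw [← pow_mul]
      exact Nat.pow_le_pow_right (by norm_num) (by omega)) h1
    (fun q hq q' hq' hne N => h2 q q' N (hQ q hq).1 (hQ q' hq').1 (hQ q hq).2.1 (hQ q' hq').2.1 hne) a
  have hi0 : (0 : ℝ) < i := by exact_mod_cast hi
  have hlow : (Q.card : ℝ) * (1 / (i : ℝ) ^ 6) ^ 2 ≤
      ∑ q ∈ Q, (∑ l ∈ Ico (2 ^ j) (2 * 2 ^ j), a l * ψ l q) ^ 2 := by
    rw [← nsmul_eq_mul, ← sum_const]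
    refine sum_le_sum fun q hq => ?_
    rw [hT q hq, ← sq_abs (tj χ w j q)]
    exact pow_le_pow_left₀ (by positivity) (hQ q hq).2.2.2.le 2
  have hup : (Q.card : ℝ) * (1 / (i : ℝ) ^ 6) ^ 2 ≤ 20 * (D : ℝ) ^ 2 := by
    refine hlow.trans (hmain.trans ?_)
    push_cast
    calc 20 * (2 : ℝ) ^ j * ∑ l ∈ Ico (2 ^ j) (2 * 2 ^ j), a l ^ 2
        ≤ 20 * (2 : ℝ) ^ j * (2 ^ j * ((D : ℝ) / 2 ^ j) ^ 2) :=
          mul_le_mul_of_nonneg_left hsum (by positivity)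
      _ = 20 * (D : ℝ) ^ 2 := by field_simp
  have e : (Q.card : ℝ) = (Q.card : ℝ) * (1 / (i : ℝ) ^ 6) ^ 2 * (i : ℝ) ^ 12 := by
    field_simp
  rw [e]
  exact mul_le_mul_of_nonneg_right hup (by positivity)

private theorem card_i (χ ψ : ℕ → ℕ → ℝ) (w : ℕ → ℝ) (D : ℕ) (hw0 : ∀ l, 0 ≤ w l) (hwD : ∀ l, w l ≤ D)
    (h1 : ∀ l m, |ψ l m| ≤ 1) (h3 : ∀ l m : ℕ, l.Prime → m.Prime → 2 < l → 2 < m → χ l m = ψ l m)
    (h2 : ∀ q q' N : ℕ, q.Prime → q'.Prime → 2 < q → 2 < q' → q ≠ q' →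
      |∑ l ∈ Icc 1 N, ψ l q * ψ l q'| ≤ 4 * q * q') (i : ℕ) (hi : 1 ≤ i)
    (S : Finset ℕ) (hS : ∀ m ∈ S, (m.Prime ∧ 2 < m ∧ LB χ w m) ∧ Nat.log 2 m = i) :
    (S.card : ℝ) ≤ 20 * (D : ℝ) ^ 2 * (i : ℝ) ^ 18 := by
  classical
  have hsub : S ⊆ (range (i ^ 6)).biUnion fun j =>
      S.filter fun m => 3 * (i + 1) ≤ j ∧ 1 / (i : ℝ) ^ 6 < |tj χ w j m| := by
    intro m hm
    obtain ⟨⟨_, _, j, hj1, hj2, hj3⟩, hlog⟩ := hS m hm
    rw [hlog] at hj1 hj2 hj3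
    rw [mem_biUnion]
    exact ⟨j, mem_range.2 hj2, mem_filter.2 ⟨hm, hj1, hj3⟩⟩
  have hc : (S.card : ℝ) ≤ ∑ j ∈ range (i ^ 6),
      ((S.filter fun m => 3 * (i + 1) ≤ j ∧ 1 / (i : ℝ) ^ 6 < |tj χ w j m|).card : ℝ) := by
    have h4 := (card_le_card hsub).trans card_biUnion_le
    exact_mod_cast h4
  refine hc.trans ?_
  have h5 : ∀ j ∈ range (i ^ 6),
      ((S.filter fun m => 3 * (i + 1) ≤ j ∧ 1 / (i : ℝ) ^ 6 < |tj χ w j m|).card : ℝ) ≤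
        20 * (D : ℝ) ^ 2 * (i : ℝ) ^ 12 := by
    intro j _
    by_cases hj : 3 * (i + 1) ≤ j
    · refine card_ij χ ψ w D hw0 hwD h1 h3 h2 i j hi hj _ fun q hq => ?_
      rw [mem_filter] at hq
      obtain ⟨⟨p1, p2, _⟩, hlog⟩ := hS q hq.1
      refine ⟨p1, p2, ?_, hq.2.2⟩
      rw [← hlog]
      exact Nat.lt_pow_succ_log_self (by norm_num) q
    · have h6 : (S.filter fun m => 3 * (i + 1) ≤ j ∧ 1 / (i : ℝ) ^ 6 < |tj χ w j m|) = ∅ := by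
        rw [filter_eq_empty_iff]
        intro m _ h7
        exact hj h7.1
      rw [h6, card_empty, Nat.cast_zero]
      positivity
  refine (sum_le_sum h5).trans (le_of_eq ?_)
  rw [sum_const, card_range, nsmul_eq_mul]
  push_cast
  ring

theorem lb_sum (χ ψ : ℕ → ℕ → ℝ) (w : ℕ → ℝ) (D : ℕ) (hw0 : ∀ l, 0 ≤ w l) (hwD : ∀ l, w l ≤ D)
    (h1 : ∀ l m, |ψ l m| ≤ 1) (h3 : ∀ l m : ℕ, l.Prime → m.Prime → 2 < l → 2 < m → χ l m = ψ l m)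
    (h2 : ∀ q q' N : ℕ, q.Prime → q'.Prime → 2 < q → 2 < q' → q ≠ q' →
      |∑ l ∈ Icc 1 N, ψ l q * ψ l q'| ≤ 4 * q * q') :
    ∃ C : ℝ, 0 ≤ C ∧ ∀ S : Finset ℕ, (∀ m ∈ S, m.Prime ∧ 2 < m ∧ LB χ w m) →
      ∑ m ∈ S, Real.log m / m ≤ C := by
  classical
  obtain ⟨f, hf⟩ : ∃ f : ℕ → ℝ, ∀ i : ℕ, f i =
      20 * (D : ℝ) ^ 2 * ((i : ℝ) ^ 19 * (1 / 2 : ℝ) ^ i + (i : ℝ) ^ 18 * (1 / 2 : ℝ) ^ i) :=
    ⟨fun i => 20 * (D : ℝ) ^ 2 * ((i : ℝ) ^ 19 * (1 / 2 : ℝ) ^ i + (i : ℝ) ^ 18 * (1 / 2 : ℝ) ^ i), fun i => rfl⟩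
  have hf0 : ∀ i, 0 ≤ f i := by
    intro i
    rw [hf]
    positivity
  have hsm : Summable f := by
    rw [funext hf]
    refine Summable.mul_left _ (Summable.add ?_ ?_)
    · exact summable_pow_mul_geometric_of_norm_lt_one 19 (by norm_num)
    · exact summable_pow_mul_geometric_of_norm_lt_one 18 (by norm_num)
  refine ⟨∑' i, f i, tsum_nonneg hf0, fun S hS => ?_⟩
  rw [← sum_fiberwise_of_maps_to (s := S) (t := S.image (Nat.log 2)) (g := Nat.log 2)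
    (fun m hm => mem_image_of_mem _ hm)]
  refine le_trans (sum_le_sum (g := f) fun i hi => ?_) (hsm.sum_le_tsum _ fun i _ => hf0 i)
  obtain ⟨m0, hm0, rfl⟩ := mem_image.1 hi
  set i := Nat.log 2 m0 with hi0
  have hi1 : 1 ≤ i := by
    rw [hi0]
    exact (Nat.le_log_iff_pow_le (by norm_num) (by have := (hS m0 hm0).2.1; omega)).2 (by
      have := (hS m0 hm0).2.1
      omega)
  have hcard := card_i χ ψ w D hw0 hwD h1 h3 h2 i hi1 (S.filter fun m => Nat.log 2 m = i) (fun m hm => by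
    rw [mem_filter] at hm
    exact ⟨hS m hm.1, hm.2⟩)
  have h2i : (0 : ℝ) < (2 : ℝ) ^ i := by positivity
  have hterm : ∀ m ∈ S.filter (fun m => Nat.log 2 m = i), Real.log m / m ≤ ((i : ℝ) + 1) / 2 ^ i := by
    intro m hm
    rw [mem_filter] at hm
    obtain ⟨_, hm2, _⟩ := hS m hm.1
    have hlo : 2 ^ i ≤ m := by
      rw [← hm.2]
      exact Nat.pow_log_le_self 2 (by omega)
    have hup : m < 2 ^ (i + 1) := by
      rw [← hm.2]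
      exact Nat.lt_pow_succ_log_self (by norm_num) m
    have hlo' : (2 : ℝ) ^ i ≤ m := by exact_mod_cast hlo
    have hm0' : (0 : ℝ) < m := lt_of_lt_of_le h2i hlo'
    have hlog : Real.log m ≤ (i : ℝ) + 1 := by
      have h4 : Real.log m ≤ ((i + 1 : ℕ) : ℝ) * Real.log 2 := by
        rw [← Real.log_pow]
        refine Real.log_le_log hm0' ?_
        exact_mod_cast hup.le
      have h5 : Real.log 2 ≤ 1 := by
        have := Real.log_two_lt_d9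
        linarith
      have h6 : (0 : ℝ) ≤ ((i + 1 : ℕ) : ℝ) := Nat.cast_nonneg _
      calc Real.log m ≤ ((i + 1 : ℕ) : ℝ) * Real.log 2 := h4
        _ ≤ ((i + 1 : ℕ) : ℝ) * 1 := mul_le_mul_of_nonneg_left h5 h6
        _ = _ := by push_cast; ring
    exact div_le_div₀ (by positivity) hlog h2i hlo'
  calc ∑ m ∈ S.filter (fun m => Nat.log 2 m = i), Real.log m / m
      ≤ ∑ _m ∈ S.filter (fun m => Nat.log 2 m = i), ((i : ℝ) + 1) / 2 ^ i := sum_le_sum hterm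
    _ = (S.filter (fun m => Nat.log 2 m = i)).card * (((i : ℝ) + 1) / 2 ^ i) := by
        rw [sum_const, nsmul_eq_mul]
    _ ≤ 20 * (D : ℝ) ^ 2 * (i : ℝ) ^ 18 * (((i : ℝ) + 1) / 2 ^ i) :=
        mul_le_mul_of_nonneg_right hcard (by positivity)
    _ = f i := by
        rw [hf]
        simp only [one_div, inv_pow]
        field_simp

end Pool.Agent.H37.PS
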