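import Pool.Agent.H37.PS.Mom

/-!
PS Ws: the loss `W` is bounded on average over primes (note 5545, (*)).

Block: for `i ≥ 1`, `∑ p ∈ pr (2^i) (2^(i+1)), W χ w p / p ≤ C / i`: `W p / p ≤ 2^(-i) (1 + ∑ j bad 2^(j+1))`; the number of primes in the block is
`≤ C 2^i / i` (`Pool.Agent.H3.LC.brun_titchmarsh` with `x = 2^i - 1`, `y = 2^i`); `#{p : 1/2^j < |sj p|} ≤ 4^j ∑ sj² ≤ 4^j C 2^i/(i 2^(2^j))` (`mom`), and
`∑_j 2^(j+1) 4^j / 2^(2^j)` is bounded.  Then sum over the blocks `i ≤ log₂ y` (`log p ≤ (i+1) log 2`, `≥ i log 2`): `∑_{i ≤ n} √i / i ≤ C √n`,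
`∑_{i≤n} i/i = n`, `∑ 1/i³ ≤ C`.
-/

set_option autoImplicit false

namespace Pool.Agent.H37.PS

open Finset Pool.Agent.H37.PPC Pool.Agent.H37.PPD Pool.Agent.H37.PB

private theorem pow_aux (j : ℕ) : 4 * j ≤ 2 ^ j + 4 := by
  induction j with
  | zero => simp
  | succ k ih =>
    rcases Nat.lt_or_ge k 2 with h | h
    · interval_cases k <;> norm_num
    · have h2 : 2 ^ 2 ≤ 2 ^ k := Nat.pow_le_pow_right (by norm_num) h
      rw [pow_succ]
      omega

private theorem term_aux (j : ℕ) :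
    (2 : ℝ) ^ (j + 1) * (4 ^ j / 2 ^ 2 ^ j) ≤ 32 * (1 / 2) ^ j := by
  have h := pow_aux j
  have h1 : (2 : ℝ) ^ (4 * j + 1) ≤ 2 ^ (2 ^ j + 5) :=
    pow_le_pow_right₀ (by norm_num) (by omega)
  have e1 : (2 : ℝ) ^ (4 * j + 1) = 2 ^ (j + 1) * 4 ^ j * 2 ^ j := by
    have h4 : (4 : ℝ) = 2 ^ 2 := by norm_num
    rw [h4, ← pow_mul, ← pow_add, ← pow_add]
    have : 4 * j + 1 = j + 1 + 2 * j + j := by ring
    rw [this]
  have e2 : (2 : ℝ) ^ (2 ^ j + 5) = 32 * 2 ^ 2 ^ j := by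
    rw [pow_add]
    norm_num
    ring
  rw [e1, e2] at h1
  have hp : (0 : ℝ) < 2 ^ 2 ^ j := by positivity
  have hq : (0 : ℝ) < 2 ^ j := by positivity
  rw [one_div, inv_pow, ← div_eq_mul_inv, le_div_iff₀ hq, ← mul_div_assoc, div_mul_eq_mul_div,
    div_le_iff₀ hp]
  exact h1

private theorem geo_aux (n : ℕ) : ∑ j ∈ Icc 1 n, (1 / 2 : ℝ) ^ j ≤ 1 := by
  have h : ∑ j ∈ Icc 1 n, (1 / 2 : ℝ) ^ j = 1 - (1 / 2) ^ n := by
    induction n with
    | zero => simp
    | succ k ih =>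
      rw [sum_Icc_succ_top (by omega), ih]
      ring
  rw [h]
  have : (0 : ℝ) ≤ (1 / 2) ^ n := by positivity
  linarith

private theorem inv_sqrt_aux (n : ℕ) :
    ∑ j ∈ Icc 1 n, Real.sqrt j / j ≤ 2 * Real.sqrt n := by
  induction n with
  | zero => simp
  | succ k ih =>
    rw [sum_Icc_succ_top (by omega)]
    have hk : (0 : ℝ) ≤ k := Nat.cast_nonneg k
    have hk1 : (0 : ℝ) < ((k + 1 : ℕ) : ℝ) := by positivity
    have ha : Real.sqrt k ^ 2 = k := Real.sq_sqrt hk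
    have hb : Real.sqrt ((k + 1 : ℕ) : ℝ) ^ 2 = ((k + 1 : ℕ) : ℝ) := Real.sq_sqrt hk1.le
    have hb0 : 0 < Real.sqrt ((k + 1 : ℕ) : ℝ) := Real.sqrt_pos.2 hk1
    have ha0 : 0 ≤ Real.sqrt k := Real.sqrt_nonneg _
    have h : Real.sqrt ((k + 1 : ℕ) : ℝ) / ((k + 1 : ℕ) : ℝ) ≤
        2 * Real.sqrt ((k + 1 : ℕ) : ℝ) - 2 * Real.sqrt k := by
      have e : Real.sqrt ((k + 1 : ℕ) : ℝ) / ((k + 1 : ℕ) : ℝ) =
          1 / Real.sqrt ((k + 1 : ℕ) : ℝ) := by
        rw [div_eq_div_iff hk1.ne' hb0.ne', ← sq, hb]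
        ring
      rw [e, div_le_iff₀ hb0]
      have hc : ((k + 1 : ℕ) : ℝ) = k + 1 := by push_cast; ring
      nlinarith [sq_nonneg (Real.sqrt ((k + 1 : ℕ) : ℝ) - Real.sqrt k)]
    linarith

private theorem inv_cube_aux (n : ℕ) : ∑ j ∈ Icc 1 n, 1 / (j : ℝ) ^ 3 ≤ 2 := by
  have h : ∑ j ∈ Icc 1 n, 1 / (j : ℝ) ^ 3 ≤ 2 - 2 / ((n : ℝ) + 1) := by
    induction n with
    | zero => simp
    | succ k ih =>
      rw [sum_Icc_succ_top (by omega)]
      have hk : (0 : ℝ) ≤ k := Nat.cast_nonneg k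
      have h1 : 1 / ((k + 1 : ℕ) : ℝ) ^ 3 ≤ 2 / ((k : ℝ) + 1) - 2 / (((k + 1 : ℕ) : ℝ) + 1) := by
        push_cast
        have e : (2 : ℝ) / ((k : ℝ) + 1) - 2 / ((k : ℝ) + 1 + 1) = 2 / (((k : ℝ) + 1) * ((k : ℝ) + 1 + 1)) := by
          field_simp
          ring
        rw [e, div_le_div_iff₀ (by positivity) (by positivity)]
        nlinarith [mul_nonneg hk hk, mul_nonneg (mul_nonneg hk hk) hk]
      linarith
  have : (0 : ℝ) ≤ 2 / ((n : ℝ) + 1) := by positivity
  linarith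

private theorem block (χ : ℕ → ℕ → ℝ) (w : ℕ → ℝ) (D : ℕ) (hw0 : ∀ l, 0 ≤ w l)
    (hwD : ∀ l, w l ≤ D)
    (h1 : ∀ l m, |χ l m| ≤ 1) (hmul : ∀ l a b, χ l (a * b) = χ l a * χ l b)
    (h2 : ∀ l l' N : ℕ, l.Prime → l'.Prime → 2 < l → 2 < l' → l ≠ l' →
      |∑ m ∈ Icc 1 N, χ l m * χ l' m| ≤ 4 * l * l') :
    ∃ C : ℝ, 0 < C ∧ ∀ i : ℕ, 1 ≤ i →
      ∑ p ∈ pr (2 ^ i) (2 ^ (i + 1)), W χ w p / p ≤ C / i := by
  classical
  obtain ⟨C, hC, hmom⟩ := mom χ w D hw0 hwD h1 hmul h2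
  obtain ⟨B, hB, hBT⟩ := Pool.Agent.H3.LC.brun_titchmarsh
  have hl2 : 0 < Real.log 2 := Real.log_pos (by norm_num)
  refine ⟨B / Real.log 2 + 32 * C, by positivity, fun i hi => ?_⟩
  have hi0 : (0 : ℝ) < i := by exact_mod_cast hi
  have hp2 : (0 : ℝ) < 2 ^ i := by positivity
  -- the number of primes in the block
  have hcard : ((pr (2 ^ i) (2 ^ (i + 1))).card : ℝ) ≤ B / Real.log 2 * (2 ^ i / i) := by
    have h2i : 2 ≤ 2 ^ i := by
      calc 2 = 2 ^ 1 := rfl
        _ ≤ 2 ^ i := Nat.pow_le_pow_right (by norm_num) hi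
    have h := hBT (2 ^ i - 1) (2 ^ i) h2i
    have hsub : pr (2 ^ i) (2 ^ (i + 1)) ⊆
        (Icc (2 ^ i - 1 + 1) (2 ^ i - 1 + 2 ^ i)).filter Nat.Prime := by
      intro p hp
      rw [mem_pr] at hp
      rw [mem_filter, mem_Icc]
      have := pow_succ 2 i
      refine ⟨⟨?_, ?_⟩, hp.2⟩ <;> omega
    have hc : ((pr (2 ^ i) (2 ^ (i + 1))).card : ℝ) ≤
        (((Icc (2 ^ i - 1 + 1) (2 ^ i - 1 + 2 ^ i)).filter Nat.Prime).card : ℝ) := by
      exact_mod_cast card_le_card hsub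
    refine hc.trans (h.trans (le_of_eq ?_))
    push_cast
    rw [Real.log_pow]
    field_simp
  have hlog : ∀ p ∈ pr (2 ^ i) (2 ^ (i + 1)), Nat.log 2 p = i := fun p hp => by
    rw [mem_pr] at hp
    exact Nat.log_eq_of_pow_le_of_lt_pow hp.1.1 hp.1.2
  -- the bad levels
  have hbad : ∑ p ∈ pr (2 ^ i) (2 ^ (i + 1)), ∑ j ∈ bad χ w p, (2 : ℝ) ^ (j + 1) ≤
      32 * C * (2 ^ i / i) := by
    calc ∑ p ∈ pr (2 ^ i) (2 ^ (i + 1)), ∑ j ∈ bad χ w p, (2 : ℝ) ^ (j + 1)
        ≤ ∑ p ∈ pr (2 ^ i) (2 ^ (i + 1)), ∑ j ∈ (Icc 1 i).filter (fun j => 8 * 2 ^ (j + 1) ≤ i),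
            (2 : ℝ) ^ (j + 1) * (4 ^ j * sj χ w j p ^ 2) := by
          refine sum_le_sum fun p hp => ?_
          have hlp := hlog p hp
          have hs : bad χ w p ⊆ (Icc 1 i).filter (fun j => 8 * 2 ^ (j + 1) ≤ i) := by
            intro j hj
            unfold bad at hj
            rw [mem_filter, hlp] at hj
            rw [mem_filter]
            exact ⟨hj.1, hj.2.1⟩
          calc ∑ j ∈ bad χ w p, (2 : ℝ) ^ (j + 1)
              ≤ ∑ j ∈ bad χ w p, (2 : ℝ) ^ (j + 1) * (4 ^ j * sj χ w j p ^ 2) := by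
                refine sum_le_sum fun j hj => ?_
                unfold bad at hj
                rw [mem_filter] at hj
                have h3 := hj.2.2
                have h4 : (1 : ℝ) ≤ 4 ^ j * sj χ w j p ^ 2 := by
                  have hj2 : (0 : ℝ) < 2 ^ j := by positivity
                  have h5 : 1 < |sj χ w j p| * 2 ^ j := by
                    rw [div_lt_iff₀ hj2] at h3
                    exact h3
                  have h6 : (4 : ℝ) ^ j = (2 ^ j) ^ 2 := by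
                    rw [← pow_mul, mul_comm j 2, pow_mul]
                    norm_num
                  have h7 : (4 : ℝ) ^ j * sj χ w j p ^ 2 = (|sj χ w j p| * 2 ^ j) ^ 2 := by
                    rw [mul_pow, sq_abs, h6]
                    ring
                  rw [h7]
                  nlinarith
                have h5 : (0 : ℝ) ≤ 2 ^ (j + 1) := by positivity
                nlinarith
            _ ≤ _ := by
                refine sum_le_sum_of_subset_of_nonneg hs fun j _ _ => ?_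
                positivity
      _ = ∑ j ∈ (Icc 1 i).filter (fun j => 8 * 2 ^ (j + 1) ≤ i),
            (2 : ℝ) ^ (j + 1) * (4 ^ j * ∑ p ∈ pr (2 ^ i) (2 ^ (i + 1)), sj χ w j p ^ 2) := by
          rw [sum_comm]
          simp_rw [mul_sum]
      _ ≤ ∑ j ∈ (Icc 1 i).filter (fun j => 8 * 2 ^ (j + 1) ≤ i),
            C * (2 ^ i / i) * (32 * (1 / 2) ^ j) := by
          refine sum_le_sum fun j hj => ?_
          rw [mem_filter, mem_Icc] at hj
          have hm := hmom i j hj.1.1 hj.2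
          have ht := term_aux j
          calc (2 : ℝ) ^ (j + 1) * (4 ^ j * ∑ p ∈ pr (2 ^ i) (2 ^ (i + 1)), sj χ w j p ^ 2)
              ≤ (2 : ℝ) ^ (j + 1) * (4 ^ j * (C * 2 ^ i / (i * 2 ^ 2 ^ j))) := by gcongr
            _ = C * (2 ^ i / i) * ((2 : ℝ) ^ (j + 1) * (4 ^ j / 2 ^ 2 ^ j)) := by
                field_simp
            _ ≤ C * (2 ^ i / i) * (32 * (1 / 2) ^ j) := by gcongr
      _ ≤ ∑ j ∈ Icc 1 i, C * (2 ^ i / i) * (32 * (1 / 2) ^ j) := by
          refine sum_le_sum_of_subset_of_nonneg (filter_subset _ _) fun j _ _ => ?_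
          positivity
      _ = 32 * C * (2 ^ i / i) * ∑ j ∈ Icc 1 i, (1 / 2 : ℝ) ^ j := by
          rw [mul_sum]
          refine sum_congr rfl fun j _ => ?_
          ring
      _ ≤ 32 * C * (2 ^ i / i) * 1 := by
          have := geo_aux i
          gcongr
      _ = 32 * C * (2 ^ i / i) := mul_one _
  calc ∑ p ∈ pr (2 ^ i) (2 ^ (i + 1)), W χ w p / p
      ≤ ∑ p ∈ pr (2 ^ i) (2 ^ (i + 1)), W χ w p / 2 ^ i := by
        refine sum_le_sum fun p hp => ?_
        rw [mem_pr] at hp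
        have hW : 0 ≤ W χ w p := by
          unfold W
          positivity
        have hpc : (2 : ℝ) ^ i ≤ p := by exact_mod_cast hp.1.1
        gcongr
    _ = (∑ p ∈ pr (2 ^ i) (2 ^ (i + 1)), W χ w p) / 2 ^ i := by rw [sum_div]
    _ ≤ (B / Real.log 2 * (2 ^ i / i) + 32 * C * (2 ^ i / i)) / 2 ^ i := by
        gcongr
        unfold W
        rw [sum_add_distrib, sum_const, nsmul_eq_mul, mul_one]
        linarith
    _ = (B / Real.log 2 + 32 * C) / i := by
        field_simp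

private theorem blocks (f g : ℕ → ℝ) (hf : ∀ p, 0 ≤ f p)
    (h : ∀ i : ℕ, 1 ≤ i → ∑ p ∈ pr (2 ^ i) (2 ^ (i + 1)), f p ≤ g i) (y : ℕ) :
    ∑ p ∈ pr 2 (y + 1), f p ≤ ∑ i ∈ Icc 1 (Nat.log 2 y), g i := by
  have hm : ∀ p ∈ pr 2 (y + 1), Nat.log 2 p ∈ Icc 1 (Nat.log 2 y) := by
    intro p hp
    rw [mem_pr] at hp
    rw [mem_Icc]
    refine ⟨?_, Nat.log_mono_right (by omega)⟩
    exact Nat.log_pos (by norm_num) hp.1.1
  rw [← sum_fiberwise_of_maps_to hm]
  refine sum_le_sum fun i hi => ?_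
  rw [mem_Icc] at hi
  refine le_trans ?_ (h i hi.1)
  refine sum_le_sum_of_subset_of_nonneg ?_ fun p _ _ => hf p
  intro p hp
  rw [mem_filter, mem_pr] at hp
  rw [mem_pr]
  have hp0 : p ≠ 0 := hp.1.2.ne_zero
  refine ⟨⟨?_, ?_⟩, hp.1.2⟩
  · rw [← hp.2]
    exact Nat.pow_log_le_self 2 hp0
  · rw [← hp.2]
    exact Nat.lt_pow_succ_log_self (by norm_num) p

theorem W_sums (χ : ℕ → ℕ → ℝ) (w : ℕ → ℝ) (D : ℕ) (hw0 : ∀ l, 0 ≤ w l) (hwD : ∀ l, w l ≤ D)
    (h1 : ∀ l m, |χ l m| ≤ 1) (hmul : ∀ l a b, χ l (a * b) = χ l a * χ l b)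
    (h2 : ∀ l l' N : ℕ, l.Prime → l'.Prime → 2 < l → 2 < l' → l ≠ l' →
      |∑ m ∈ Icc 1 N, χ l m * χ l' m| ≤ 4 * l * l') :
    ∃ C : ℝ, 0 < C ∧ ∀ y : ℕ, 2 ≤ y →
      ∑ p ∈ pr 2 (y + 1), W χ w p * Real.log p / p ≤ C * Real.log y ∧
      ∑ p ∈ pr 2 (y + 1), W χ w p * Real.sqrt (Real.log p) / p ≤ C * Real.sqrt (Real.log y) ∧
      ∑ p ∈ pr 2 (y + 1), W χ w p / (Real.log p) ^ 2 / p ≤ C := by
  obtain ⟨C, hC, hbl⟩ := block χ w D hw0 hwD h1 hmul h2
  have hl2 : 0 < Real.log 2 := Real.log_pos (by norm_num)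
  have hW : ∀ p, 0 ≤ W χ w p := fun p => by
    unfold W
    positivity
  have hr2 : 0 < Real.sqrt 2 := Real.sqrt_pos.2 (by norm_num)
  refine ⟨2 * C + 2 * Real.sqrt 2 * C + 2 * C / Real.log 2 ^ 2, by positivity, fun y hy => ?_⟩
  have hy0 : (0 : ℝ) < y := by positivity
  have hly : 0 < Real.log y := Real.log_pos (by exact_mod_cast (by omega : 1 < y))
  have hn : (Nat.log 2 y : ℝ) * Real.log 2 ≤ Real.log y := by
    rw [← Real.log_pow]
    refine Real.log_le_log (by positivity) ?_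
    exact_mod_cast Nat.pow_log_le_self 2 (by omega)
  -- bounds for log p in a block
  have hup : ∀ i p : ℕ, 1 ≤ i → p ∈ pr (2 ^ i) (2 ^ (i + 1)) →
      Real.log p ≤ 2 * i * Real.log 2 := by
    intro i p hi hp
    rw [mem_pr] at hp
    have hp0 : (0 : ℝ) < p := by exact_mod_cast hp.2.pos
    have hpl : (p : ℝ) ≤ 2 ^ (2 * i) := by
      have : p ≤ 2 ^ (2 * i) := hp.1.2.le.trans (Nat.pow_le_pow_right (by norm_num) (by omega))
      exact_mod_cast this
    calc Real.log p ≤ Real.log (2 ^ (2 * i)) := Real.log_le_log hp0 hpl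
      _ = 2 * i * Real.log 2 := by
          rw [Real.log_pow]
          push_cast
          ring
  have hlo : ∀ i p : ℕ, 1 ≤ i → p ∈ pr (2 ^ i) (2 ^ (i + 1)) →
      i * Real.log 2 ≤ Real.log p := by
    intro i p hi hp
    rw [mem_pr] at hp
    rw [← Real.log_pow]
    refine Real.log_le_log (by positivity) ?_
    exact_mod_cast hp.1.1
  have hCpos : (0 : ℝ) ≤ 2 * C / Real.log 2 ^ 2 := by positivity
  have hCpos2 : (0 : ℝ) ≤ 2 * Real.sqrt 2 * C := by positivity
  refine ⟨?_, ?_, ?_⟩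
  · have h := blocks (fun p => W χ w p * Real.log p / p) (fun _ => 2 * C * Real.log 2)
      (fun p => by
        have := hW p
        have : 0 ≤ Real.log (p : ℝ) := Real.log_natCast_nonneg p
        positivity) (fun i hi => by
        have hi0 : (0 : ℝ) < i := by exact_mod_cast hi
        calc ∑ p ∈ pr (2 ^ i) (2 ^ (i + 1)), W χ w p * Real.log p / p
            ≤ ∑ p ∈ pr (2 ^ i) (2 ^ (i + 1)), 2 * i * Real.log 2 * (W χ w p / p) := by
              refine sum_le_sum fun p hp => ?_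
              have h3 := hup i p hi hp
              have h4 : 0 ≤ W χ w p / p := div_nonneg (hW p) (Nat.cast_nonneg p)
              calc W χ w p * Real.log p / p = Real.log p * (W χ w p / p) := by ring
                _ ≤ _ := mul_le_mul_of_nonneg_right h3 h4
          _ = 2 * i * Real.log 2 * ∑ p ∈ pr (2 ^ i) (2 ^ (i + 1)), W χ w p / p := by
              rw [mul_sum]
          _ ≤ 2 * i * Real.log 2 * (C / i) := by
              have := hbl i hi
              gcongr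
          _ = 2 * C * Real.log 2 := by
              field_simp) y
    refine h.trans ?_
    rw [sum_const, Nat.card_Icc, Nat.add_sub_cancel, nsmul_eq_mul]
    calc (Nat.log 2 y : ℝ) * (2 * C * Real.log 2) = 2 * C * (Nat.log 2 y * Real.log 2) := by ring
      _ ≤ 2 * C * Real.log y := by gcongr
      _ ≤ _ := by
          refine mul_le_mul_of_nonneg_right ?_ hly.le
          linarith
  · have h := blocks (fun p => W χ w p * Real.sqrt (Real.log p) / p)
      (fun i => Real.sqrt 2 * Real.sqrt (Real.log 2) * C * (Real.sqrt i / i))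
      (fun p => by
        have := hW p
        positivity) (fun i hi => by
        have hi0 : (0 : ℝ) < i := by exact_mod_cast hi
        calc ∑ p ∈ pr (2 ^ i) (2 ^ (i + 1)), W χ w p * Real.sqrt (Real.log p) / p
            ≤ ∑ p ∈ pr (2 ^ i) (2 ^ (i + 1)),
                Real.sqrt (2 * i * Real.log 2) * (W χ w p / p) := by
              refine sum_le_sum fun p hp => ?_
              have h3 := Real.sqrt_le_sqrt (hup i p hi hp)
              have h4 : 0 ≤ W χ w p / p := div_nonneg (hW p) (Nat.cast_nonneg p)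
              calc W χ w p * Real.sqrt (Real.log p) / p =
                    Real.sqrt (Real.log p) * (W χ w p / p) := by ring
                _ ≤ _ := mul_le_mul_of_nonneg_right h3 h4
          _ = Real.sqrt (2 * i * Real.log 2) *
                ∑ p ∈ pr (2 ^ i) (2 ^ (i + 1)), W χ w p / p := by
              rw [mul_sum]
          _ ≤ Real.sqrt (2 * i * Real.log 2) * (C / i) := by
              have := hbl i hi
              gcongr
          _ = Real.sqrt 2 * Real.sqrt (Real.log 2) * C * (Real.sqrt i / i) := by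
              rw [Real.sqrt_mul (by positivity), Real.sqrt_mul (by norm_num)]
              ring) y
    refine h.trans ?_
    rw [← mul_sum]
    have h5 := inv_sqrt_aux (Nat.log 2 y)
    have h6 : Real.sqrt (Nat.log 2 y) * Real.sqrt (Real.log 2) ≤ Real.sqrt (Real.log y) := by
      rw [← Real.sqrt_mul (Nat.cast_nonneg _)]
      exact Real.sqrt_le_sqrt hn
    calc Real.sqrt 2 * Real.sqrt (Real.log 2) * C *
          ∑ i ∈ Icc 1 (Nat.log 2 y), Real.sqrt (i : ℝ) / i
        ≤ Real.sqrt 2 * Real.sqrt (Real.log 2) * C * (2 * Real.sqrt (Nat.log 2 y)) := by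
          gcongr
      _ = 2 * Real.sqrt 2 * C * (Real.sqrt (Nat.log 2 y) * Real.sqrt (Real.log 2)) := by ring
      _ ≤ 2 * Real.sqrt 2 * C * Real.sqrt (Real.log y) := by gcongr
      _ ≤ _ := by
          refine mul_le_mul_of_nonneg_right ?_ (Real.sqrt_nonneg _)
          linarith
  · have h := blocks (fun p => W χ w p / (Real.log p) ^ 2 / p)
      (fun i => C / Real.log 2 ^ 2 * (1 / (i : ℝ) ^ 3))
      (fun p => by
        have := hW p
        positivity) (fun i hi => by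
        have hi0 : (0 : ℝ) < i := by exact_mod_cast hi
        calc ∑ p ∈ pr (2 ^ i) (2 ^ (i + 1)), W χ w p / (Real.log p) ^ 2 / p
            ≤ ∑ p ∈ pr (2 ^ i) (2 ^ (i + 1)),
                1 / (i * Real.log 2) ^ 2 * (W χ w p / p) := by
              refine sum_le_sum fun p hp => ?_
              have h3 := hlo i p hi hp
              have h4 : 0 ≤ W χ w p / p := div_nonneg (hW p) (Nat.cast_nonneg p)
              have h5 : 0 < (i : ℝ) * Real.log 2 := by positivity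
              have h6 : 1 / (Real.log (p : ℝ)) ^ 2 ≤ 1 / (i * Real.log 2) ^ 2 := by gcongr
              calc W χ w p / (Real.log p) ^ 2 / p =
                    1 / (Real.log (p : ℝ)) ^ 2 * (W χ w p / p) := by ring
                _ ≤ _ := mul_le_mul_of_nonneg_right h6 h4
          _ = 1 / (i * Real.log 2) ^ 2 *
                ∑ p ∈ pr (2 ^ i) (2 ^ (i + 1)), W χ w p / p := by
              rw [mul_sum]
          _ ≤ 1 / (i * Real.log 2) ^ 2 * (C / i) := by
              have := hbl i hi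
              gcongr
          _ = C / Real.log 2 ^ 2 * (1 / (i : ℝ) ^ 3) := by
              field_simp) y
    refine h.trans ?_
    rw [← mul_sum]
    have h5 := inv_cube_aux (Nat.log 2 y)
    calc C / Real.log 2 ^ 2 * ∑ i ∈ Icc 1 (Nat.log 2 y), 1 / (i : ℝ) ^ 3
        ≤ C / Real.log 2 ^ 2 * 2 := by gcongr
      _ = 2 * C / Real.log 2 ^ 2 := by ring
      _ ≤ _ := by linarith

end Pool.Agent.H37.PS
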