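import Pool.Agent.H37.PS.Cl
import Pool.Agent.H37.PS.Ws
import Pool.Agent.H37.PS.Lb
import Pool.Agent.H37.PS.Hs

/-!
PS Core: the count (adapted from H37/PP/Core).
-/

set_option autoImplicit false

namespace Pool.Agent.H37.PS

open Finset Polynomial Pool.Agent.H37.PPC Pool.Agent.H37.PPD Pool.Agent.H37.PB Pool.Agent.H37.PP

theorem W_ge (χ : ℕ → ℕ → ℝ) (w : ℕ → ℝ) (m : ℕ) : 1 ≤ W χ w m := by
  unfold W
  have : 0 ≤ ∑ j ∈ bad χ w m, (2 : ℝ) ^ (j + 1) := sum_nonneg fun j _ => by positivity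
  linarith

/-! ### the two characters -/

theorem ch1_mul (l a b : ℕ) : ch1 l (a * b) = ch1 l a * ch1 l b := by
  unfold ch1 psi
  by_cases ha : Odd a
  · by_cases hb : Odd b
    · rw [if_pos ha, if_pos hb, if_pos (ha.mul hb)]
      have h1 : NeZero a := ⟨by rintro rfl; simp at ha⟩
      have h2 : NeZero b := ⟨by rintro rfl; simp at hb⟩
      rw [jacobiSym.mul_right]
      push_cast
      rfl
    · rw [if_neg hb, if_neg (fun h => hb (Nat.odd_mul.1 h).2), mul_zero]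
  · rw [if_neg ha, if_neg (fun h => ha (Nat.odd_mul.1 h).1), zero_mul]

theorem ch2_mul (l a b : ℕ) : ch2 l (a * b) = ch2 l a * ch2 l b := by
  unfold ch2
  rw [Nat.cast_mul, jacobiSym.mul_left]
  push_cast
  rfl

theorem ch1_pm' (q l : ℕ) (hq : q.Prime) (hq2 : 2 < q) (hl : l.Prime) (hlq : l ≠ q) :
    ch1 l q = 1 ∨ ch1 l q = -1 := by
  have ho : Odd q := hq.odd_of_ne_two (by omega)
  have hc : Nat.Coprime l q := (Nat.coprime_primes hl hq).2 hlq
  unfold ch1 psi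
  rw [if_pos ho]
  have h0 : jacobiSym (l : ℤ) q ≠ 0 := by
    rw [Ne, jacobiSym.eq_zero_iff]
    rintro ⟨_, h⟩
    apply h
    rw [Int.gcd_natCast_natCast]
    exact hc
  rcases jacobiSym.trichotomy (l : ℤ) q with h | h | h
  · exact absurd h h0
  · left; rw [h]; norm_num
  · right; rw [h]; norm_num

theorem ch2_pm' (p l : ℕ) (hp : p.Prime) (hl : l.Prime) (hlp : l ≠ p) :
    ch2 l p = 1 ∨ ch2 l p = -1 := by
  have hc : Nat.Coprime p l := (Nat.coprime_primes hp hl).2 hlp.symm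
  unfold ch2
  have h0 : jacobiSym (p : ℤ) l ≠ 0 := by
    rw [Ne, jacobiSym.eq_zero_iff]
    rintro ⟨_, h⟩
    apply h
    rw [Int.gcd_natCast_natCast]
    exact hc
  rcases jacobiSym.trichotomy (p : ℤ) l with h | h | h
  · exact absurd h h0
  · left; rw [h]; norm_num
  · right; rw [h]; norm_num

/-! ### the weight of a pair -/

open Classical in
noncomputable def GG (U V : ℕ → ℝ) (E1 E2 : ℕ → Prop) (p q : ℕ) : ℝ :=
  (V p * U q * ((1 / Real.sqrt (Real.log p) + 1 / (Real.log q) ^ 3) *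
    (1 / Real.sqrt (Real.log q) + 1 / (Real.log p) ^ 3)) + (if E2 p then 1 else 0) + (if E1 q then 1 else 0)) *
    (Real.log p * Real.log q / (p * q))

/-- one factor -/
theorem fac {a b : ℝ} (ha : 0.69 ≤ a) (hb : 0.69 ≤ b) :
    (1 / Real.sqrt a + 1 / b ^ 3) * (1 / Real.sqrt b + 1 / a ^ 3) * (a * b) ≤
      Real.sqrt a * Real.sqrt b + 2 * (1 / a ^ 2 * b) + 2 * (a * (1 / b ^ 2)) + 1 / a ^ 2 * (1 / b ^ 2) := by
  have ha0 : 0 < a := by linarith
  have hb0 : 0 < b := by linarith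
  have hsa : 0 < Real.sqrt a := Real.sqrt_pos.2 ha0
  have hsb : 0 < Real.sqrt b := Real.sqrt_pos.2 hb0
  have ea : Real.sqrt a * Real.sqrt a = a := Real.mul_self_sqrt ha0.le
  have eb : Real.sqrt b * Real.sqrt b = b := Real.mul_self_sqrt hb0.le
  have ha1 : 0.5 ≤ Real.sqrt a := by
    apply Real.le_sqrt_of_sq_le
    linarith
  have hb1 : 0.5 ≤ Real.sqrt b := by
    apply Real.le_sqrt_of_sq_le
    linarith
  have ia : 1 / Real.sqrt a ≤ 2 := by
    rw [div_le_iff₀ hsa]; linarith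
  have ib : 1 / Real.sqrt b ≤ 2 := by
    rw [div_le_iff₀ hsb]; linarith
  have h1 : 1 / Real.sqrt a * a = Real.sqrt a := by
    field_simp
    rw [sq]; exact ea.symm
  have h2 : 1 / Real.sqrt b * b = Real.sqrt b := by
    field_simp
    rw [sq]; exact eb.symm
  have h3 : 1 / a ^ 3 * a = 1 / a ^ 2 := by field_simp
  have h4 : 1 / b ^ 3 * b = 1 / b ^ 2 := by field_simp
  have e : (1 / Real.sqrt a + 1 / b ^ 3) * (1 / Real.sqrt b + 1 / a ^ 3) * (a * b) =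
      (1 / Real.sqrt a * a) * (1 / Real.sqrt b * b) + 1 / Real.sqrt a * (1 / a ^ 3 * a) * b +
      1 / Real.sqrt b * (1 / b ^ 3 * b) * a + (1 / a ^ 3 * a) * (1 / b ^ 3 * b) := by ring
  rw [e, h1, h2, h3, h4]
  have h5 : 1 / Real.sqrt a * (1 / a ^ 2) * b ≤ 2 * (1 / a ^ 2 * b) := by
    have : 0 ≤ 1 / a ^ 2 * b := by positivity
    calc 1 / Real.sqrt a * (1 / a ^ 2) * b = 1 / Real.sqrt a * (1 / a ^ 2 * b) := by ring
      _ ≤ _ := mul_le_mul_of_nonneg_right ia this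
  have h6 : 1 / Real.sqrt b * (1 / b ^ 2) * a ≤ 2 * (a * (1 / b ^ 2)) := by
    have : 0 ≤ 1 / b ^ 2 * a := by positivity
    calc 1 / Real.sqrt b * (1 / b ^ 2) * a = 1 / Real.sqrt b * (1 / b ^ 2 * a) := by ring
      _ ≤ 2 * (1 / b ^ 2 * a) := mul_le_mul_of_nonneg_right ib this
      _ = _ := by ring
  linarith

theorem sum_GG (U V : ℕ → ℝ) (hU : ∀ m, 1 ≤ U m) (hV : ∀ m, 1 ≤ V m) (E1 E2 : ℕ → Prop) (K : ℝ) (hK : 0 < K)
    (HU : ∀ y : ℕ, 2 ≤ y →
      ∑ p ∈ pr 2 (y + 1), U p * Real.log p / p ≤ K * Real.log y ∧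
      ∑ p ∈ pr 2 (y + 1), U p * Real.sqrt (Real.log p) / p ≤ K * Real.sqrt (Real.log y) ∧
      ∑ p ∈ pr 2 (y + 1), U p / (Real.log p) ^ 2 / p ≤ K)
    (HV : ∀ y : ℕ, 2 ≤ y →
      ∑ p ∈ pr 2 (y + 1), V p * Real.log p / p ≤ K * Real.log y ∧
      ∑ p ∈ pr 2 (y + 1), V p * Real.sqrt (Real.log p) / p ≤ K * Real.sqrt (Real.log y) ∧
      ∑ p ∈ pr 2 (y + 1), V p / (Real.log p) ^ 2 / p ≤ K)
    (hE1 : ∀ S : Finset ℕ, (∀ m ∈ S, m.Prime ∧ 2 < m ∧ E1 m) → ∑ m ∈ S, Real.log m / m ≤ K)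
    (hE2 : ∀ S : Finset ℕ, (∀ m ∈ S, m.Prime ∧ 2 < m ∧ E2 m) → ∑ m ∈ S, Real.log m / m ≤ K) :
    ∀ B y : ℕ, 2 ≤ B → 2 ≤ y →
      ∑ p ∈ pr (B + 1) (y + 1), ∑ q ∈ pr (B + 1) (y + 1), GG U V E1 E2 p q ≤ 9 * K ^ 2 * Real.log y := by
  classical
  intro B y hB hy
  have hly : 0.69 ≤ Real.log y := by
    have h1 := Real.log_two_gt_d9
    have h2 : Real.log 2 ≤ Real.log y := Real.log_le_log (by norm_num) (by exact_mod_cast hy)
    linarith
  set P := pr (B + 1) (y + 1) with hP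
  have hPm : ∀ l ∈ P, l.Prime ∧ 2 < l := by
    intro l hl
    rw [hP, mem_pr] at hl
    exact ⟨hl.2, by omega⟩
  have hsub : P ⊆ pr 2 (y + 1) := by
    intro l hl
    rw [hP, mem_pr] at hl
    exact mem_pr.2 ⟨⟨by omega, hl.1.2⟩, hl.2⟩
  have hlog : ∀ l ∈ P, 0.69 ≤ Real.log l := by
    intro l hl
    have h1 := Real.log_two_gt_d9
    have h2 : Real.log 2 ≤ Real.log l := Real.log_le_log (by norm_num) (by exact_mod_cast (hPm l hl).2.le)
    linarith
  -- restricted sums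
  have hres : ∀ g : ℕ → ℝ, (∀ l, 0 ≤ g l) → ∑ l ∈ P, g l ≤ ∑ l ∈ pr 2 (y + 1), g l :=
    fun g hg => sum_le_sum_of_subset_of_nonneg hsub fun l _ _ => hg l
  have hU0 : ∀ m, 0 ≤ U m := fun m => zero_le_one.trans (hU m)
  have hV0 : ∀ m, 0 ≤ V m := fun m => zero_le_one.trans (hV m)
  have hlg0 : ∀ l : ℕ, 0 ≤ Real.log (l : ℝ) := fun l => Real.log_natCast_nonneg l
  obtain ⟨a1, a2, a3⟩ := HU y hy
  obtain ⟨b1, b2, b3⟩ := HV y hy
  have A1 : ∑ q ∈ P, U q * Real.log q / q ≤ K * Real.log y :=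
    (hres (fun q => U q * Real.log q / q) fun l => by have := hU0 l; have := hlg0 l; positivity).trans a1
  have A2 : ∑ q ∈ P, U q * Real.sqrt (Real.log q) / q ≤ K * Real.sqrt (Real.log y) :=
    (hres (fun q => U q * Real.sqrt (Real.log q) / q) fun l => by have := hU0 l; positivity).trans a2
  have A3 : ∑ q ∈ P, U q / (Real.log q) ^ 2 / q ≤ K :=
    (hres (fun q => U q / (Real.log q) ^ 2 / q) fun l => by have := hU0 l; positivity).trans a3
  have B1 : ∑ q ∈ P, V q * Real.log q / q ≤ K * Real.log y :=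
    (hres (fun q => V q * Real.log q / q) fun l => by have := hV0 l; have := hlg0 l; positivity).trans b1
  have B2 : ∑ q ∈ P, V q * Real.sqrt (Real.log q) / q ≤ K * Real.sqrt (Real.log y) :=
    (hres (fun q => V q * Real.sqrt (Real.log q) / q) fun l => by have := hV0 l; positivity).trans b2
  have B3 : ∑ q ∈ P, V q / (Real.log q) ^ 2 / q ≤ K :=
    (hres (fun q => V q / (Real.log q) ^ 2 / q) fun l => by have := hV0 l; positivity).trans b3
  have nA1 : 0 ≤ ∑ q ∈ P, U q * Real.log q / q := sum_nonneg fun l _ => by have := hU0 l; have := hlg0 l; positivity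
  have nA2 : 0 ≤ ∑ q ∈ P, U q * Real.sqrt (Real.log q) / q := sum_nonneg fun l _ => by have := hU0 l; positivity
  have nA3 : 0 ≤ ∑ q ∈ P, U q / (Real.log q) ^ 2 / q := sum_nonneg fun l _ => by have := hU0 l; positivity
  have nB1 : 0 ≤ ∑ q ∈ P, V q * Real.log q / q := sum_nonneg fun l _ => by have := hV0 l; have := hlg0 l; positivity
  have nB2 : 0 ≤ ∑ q ∈ P, V q * Real.sqrt (Real.log q) / q := sum_nonneg fun l _ => by have := hV0 l; positivity
  have nB3 : 0 ≤ ∑ q ∈ P, V q / (Real.log q) ^ 2 / q := sum_nonneg fun l _ => by have := hV0 l; positivity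
  -- sums over the exceptional primes
  have X1 : ∑ q ∈ P, (if E1 q then 1 else 0) * (Real.log q / q) ≤ K := by
    have h1 : ∑ q ∈ P, (if E1 q then (1 : ℝ) else 0) * (Real.log q / q) = ∑ q ∈ P.filter E1, Real.log q / q := by
      rw [sum_filter]
      exact sum_congr rfl fun q _ => by split_ifs <;> simp
    rw [h1]
    refine hE1 _ fun m hm => ?_
    rw [mem_filter] at hm
    exact ⟨(hPm m hm.1).1, (hPm m hm.1).2, hm.2⟩
  have X2 : ∑ q ∈ P, (if E2 q then 1 else 0) * (Real.log q / q) ≤ K := by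
    have h1 : ∑ q ∈ P, (if E2 q then (1 : ℝ) else 0) * (Real.log q / q) = ∑ q ∈ P.filter E2, Real.log q / q := by
      rw [sum_filter]
      exact sum_congr rfl fun q _ => by split_ifs <;> simp
    rw [h1]
    refine hE2 _ fun m hm => ?_
    rw [mem_filter] at hm
    exact ⟨(hPm m hm.1).1, (hPm m hm.1).2, hm.2⟩
  have hit : ∀ (E : ℕ → Prop) (q : ℕ), (0 : ℝ) ≤ (if E q then 1 else 0) := fun E q => by split_ifs <;> norm_num
  have nX1 : 0 ≤ ∑ q ∈ P, (if E1 q then 1 else 0) * (Real.log q / q) :=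
    sum_nonneg fun l _ => mul_nonneg (hit E1 l) (div_nonneg (hlg0 l) (Nat.cast_nonneg _))
  have nX2 : 0 ≤ ∑ q ∈ P, (if E2 q then 1 else 0) * (Real.log q / q) :=
    sum_nonneg fun l _ => mul_nonneg (hit E2 l) (div_nonneg (hlg0 l) (Nat.cast_nonneg _))
  have L1 : ∑ q ∈ P, Real.log q / q ≤ K * Real.log y := by
    refine (sum_le_sum fun q _ => ?_).trans A1
    refine div_le_div_of_nonneg_right ?_ (Nat.cast_nonneg _)
    exact le_mul_of_one_le_left (hlg0 q) (hU q)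
  have nL1 : 0 ≤ ∑ q ∈ P, Real.log q / q := sum_nonneg fun l _ => div_nonneg (hlg0 l) (Nat.cast_nonneg _)
  -- pointwise
  have hpt : ∀ p ∈ P, ∀ q ∈ P, GG U V E1 E2 p q ≤
      (V p * Real.sqrt (Real.log p) / p) * (U q * Real.sqrt (Real.log q) / q) +
      2 * ((V p / (Real.log p) ^ 2 / p) * (U q * Real.log q / q)) +
      2 * ((V p * Real.log p / p) * (U q / (Real.log q) ^ 2 / q)) +
      (V p / (Real.log p) ^ 2 / p) * (U q / (Real.log q) ^ 2 / q) +
      ((if E2 p then 1 else 0) * (Real.log p / p)) * (Real.log q / q) +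
      (Real.log p / p) * ((if E1 q then 1 else 0) * (Real.log q / q)) := by
    intro p hp q hq
    have hp0 : (0 : ℝ) < p := by exact_mod_cast (hPm p hp).1.pos
    have hq0 : (0 : ℝ) < q := by exact_mod_cast (hPm q hq).1.pos
    have h1 := fac (hlog p hp) (hlog q hq)
    have h2 : 0 ≤ V p * U q / (p * q) := by
      have := hU0 q
      have := hV0 p
      positivity
    have h3 := mul_le_mul_of_nonneg_left h1 h2
    have e1 : GG U V E1 E2 p q = V p * U q / (p * q) * ((1 / Real.sqrt (Real.log p) + 1 / (Real.log q) ^ 3) *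
        (1 / Real.sqrt (Real.log q) + 1 / (Real.log p) ^ 3) * (Real.log p * Real.log q)) +
        ((if E2 p then 1 else 0) * (Real.log p / p)) * (Real.log q / q) +
        (Real.log p / p) * ((if E1 q then 1 else 0) * (Real.log q / q)) := by
      unfold GG
      field_simp
    rw [e1]
    have e2 : V p * U q / (p * q) * (Real.sqrt (Real.log p) * Real.sqrt (Real.log q) +
        2 * (1 / (Real.log p) ^ 2 * Real.log q) + 2 * (Real.log p * (1 / (Real.log q) ^ 2)) +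
        1 / (Real.log p) ^ 2 * (1 / (Real.log q) ^ 2)) =
      (V p * Real.sqrt (Real.log p) / p) * (U q * Real.sqrt (Real.log q) / q) +
      2 * ((V p / (Real.log p) ^ 2 / p) * (U q * Real.log q / q)) +
      2 * ((V p * Real.log p / p) * (U q / (Real.log q) ^ 2 / q)) +
      (V p / (Real.log p) ^ 2 / p) * (U q / (Real.log q) ^ 2 / q) := by
      have hlp : Real.log p ≠ 0 := by have := hlog p hp; linarith
      have hlq : Real.log q ≠ 0 := by have := hlog q hq; linarith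
      field_simp
    rw [e2] at h3
    linarith
  have hsq : Real.sqrt (Real.log y) * Real.sqrt (Real.log y) = Real.log y := Real.mul_self_sqrt (by linarith)
  calc ∑ p ∈ P, ∑ q ∈ P, GG U V E1 E2 p q ≤ ∑ p ∈ P, ∑ q ∈ P,
      ((V p * Real.sqrt (Real.log p) / p) * (U q * Real.sqrt (Real.log q) / q) +
      2 * ((V p / (Real.log p) ^ 2 / p) * (U q * Real.log q / q)) +
      2 * ((V p * Real.log p / p) * (U q / (Real.log q) ^ 2 / q)) +
      (V p / (Real.log p) ^ 2 / p) * (U q / (Real.log q) ^ 2 / q) +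
      ((if E2 p then 1 else 0) * (Real.log p / p)) * (Real.log q / q) +
      (Real.log p / p) * ((if E1 q then 1 else 0) * (Real.log q / q))) :=
        sum_le_sum fun p hp => sum_le_sum fun q hq => hpt p hp q hq
    _ = (∑ p ∈ P, V p * Real.sqrt (Real.log p) / p) * (∑ q ∈ P, U q * Real.sqrt (Real.log q) / q) +
      2 * ((∑ p ∈ P, V p / (Real.log p) ^ 2 / p) * (∑ q ∈ P, U q * Real.log q / q)) +
      2 * ((∑ p ∈ P, V p * Real.log p / p) * (∑ q ∈ P, U q / (Real.log q) ^ 2 / q)) +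
      (∑ p ∈ P, V p / (Real.log p) ^ 2 / p) * (∑ q ∈ P, U q / (Real.log q) ^ 2 / q) +
      (∑ p ∈ P, (if E2 p then 1 else 0) * (Real.log p / p)) * (∑ q ∈ P, Real.log q / q) +
      (∑ p ∈ P, Real.log p / p) * (∑ q ∈ P, (if E1 q then 1 else 0) * (Real.log q / q)) := by
        rw [sum_mul_sum, sum_mul_sum, sum_mul_sum, sum_mul_sum, sum_mul_sum, sum_mul_sum]
        simp only [sum_add_distrib, mul_sum]
    _ ≤ (K * Real.sqrt (Real.log y)) * (K * Real.sqrt (Real.log y)) + 2 * (K * (K * Real.log y)) +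
      2 * ((K * Real.log y) * K) + K * K + K * (K * Real.log y) + (K * Real.log y) * K := by
        have c1 := mul_le_mul B2 A2 nA2 (by positivity)
        have c2 := mul_le_mul B3 A1 nA1 hK.le
        have c3 := mul_le_mul B1 A3 nA3 (by positivity)
        have c4 := mul_le_mul B3 A3 nA3 hK.le
        have c5 := mul_le_mul X2 L1 nL1 hK.le
        have c6 := mul_le_mul L1 X1 nX1 (by positivity)
        linarith
    _ ≤ _ := by
        have c : K * Real.sqrt (Real.log y) * (K * Real.sqrt (Real.log y)) = K ^ 2 * Real.log y := by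
          calc K * Real.sqrt (Real.log y) * (K * Real.sqrt (Real.log y)) =
              K ^ 2 * (Real.sqrt (Real.log y) * Real.sqrt (Real.log y)) := by ring
            _ = _ := by rw [hsq]
        rw [c]
        have c2 : K * K ≤ 2 * (K ^ 2 * Real.log y) := by
          have : 0 < K ^ 2 := by positivity
          nlinarith
        nlinarith

/-! ### the counts -/

section

variable {h0 h1 h2 : ℤ[X]} {B D : ℕ} {C : ℝ} {w0 w1 w2 : ℕ → ℝ}

/-- no prime divisor of `h1(m)`, or none of `h2(m)` -/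
theorem count_none (t : Bool) (T : Tr h0 h1 h2 B D C w0 w1 w2) :
    ∃ K : ℝ, 0 < K ∧ ∃ s : ℕ, 0 < s ∧ ∀ (Y y : ℕ) (M : ℤ), 2 ≤ y → y ^ s ≤ Y → B ≤ y → ∀ S : Finset ℤ,
    (∀ m ∈ S, M < m ∧ m ≤ M + Y ∧ (t = true → ∀ l ∈ pr (B + 1) (y + 1), ¬ (l : ℤ) ∣ h0.eval m) ∧
      ((∀ l ∈ pr (B + 1) (y + 1), ¬ (l : ℤ) ∣ h1.eval m) ∨
      (∀ l ∈ pr (B + 1) (y + 1), ¬ (l : ℤ) ∣ h2.eval m))) →
    (S.card : ℝ) ≤ K * Y * (Real.exp (-g0 t y) * Real.exp (-ll y)) := by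
  classical
  obtain ⟨K, hK, s, hs, H⟩ := free_count t T
  refine ⟨2 * (K * Real.exp (C + ll (B + 1))), by positivity, s, hs, ?_⟩
  intro Y y M hy hyY hBy S hS
  have hm : ∀ (h : ℤ[X]) (w : ℕ → ℝ), Wt h B D C w →
      Real.exp (-g0 t y) * Real.exp (-(∑ l ∈ pr (B + 1) (y + 1), w l / l)) ≤
        Real.exp (C + ll (B + 1)) * (Real.exp (-g0 t y) * Real.exp (-ll y)) := by
    intro h w hw
    have h3 := sum_all hw T.hB2 hy hBy
    rw [← Real.exp_add, ← Real.exp_add, ← Real.exp_add]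
    apply Real.exp_le_exp.2
    linarith
  obtain ⟨N1, hN1⟩ : ∃ N : ℤ → Prop, ∀ m, N m ↔ ∀ l ∈ pr (B + 1) (y + 1), ¬ (l : ℤ) ∣ h1.eval m :=
    ⟨_, fun m => Iff.rfl⟩
  obtain ⟨N2, hN2⟩ : ∃ N : ℤ → Prop, ∀ m, N m ↔ ∀ l ∈ pr (B + 1) (y + 1), ¬ (l : ℤ) ∣ h2.eval m :=
    ⟨_, fun m => Iff.rfl⟩
  have hS1 := H Y y M hy hBy hyY (pr (B + 1) (y + 1)) ∅ (Subset.refl _) (empty_subset _) (S.filter N1) (by
      intro m hm
      rw [mem_filter] at hm
      exact ⟨(hS m hm.1).1, (hS m hm.1).2.1, (hS m hm.1).2.2.1, (hN1 m).1 hm.2, by simp⟩)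
  have hS2 := H Y y M hy hBy hyY ∅ (pr (B + 1) (y + 1)) (empty_subset _) (Subset.refl _) (S.filter N2) (by
      intro m hm
      rw [mem_filter] at hm
      exact ⟨(hS m hm.1).1, (hS m hm.1).2.1, (hS m hm.1).2.2.1, by simp, (hN2 m).1 hm.2⟩)
  rw [sum_empty, sub_zero] at hS1
  rw [sum_empty, neg_zero, zero_sub] at hS2
  have hcov : S ⊆ (S.filter N1) ∪ (S.filter N2) := by
    intro m hm
    rw [mem_union, mem_filter, mem_filter]
    rcases (hS m hm).2.2.2 with h | h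
    · exact Or.inl ⟨hm, (hN1 m).2 h⟩
    · exact Or.inr ⟨hm, (hN2 m).2 h⟩
  have h3 : (S.card : ℝ) ≤ ((S.filter N1).card : ℝ) + ((S.filter N2).card : ℝ) := by
    have := (card_le_card hcov).trans (card_union_le _ _)
    exact_mod_cast this
  have hKY : 0 ≤ K * (Y : ℝ) := by positivity
  have e1 := mul_le_mul_of_nonneg_left (hm h1 w1 T.W1) hKY
  have e2 := mul_le_mul_of_nonneg_left (hm h2 w2 T.W2) hKY
  calc (S.card : ℝ) ≤ K * Y * (Real.exp (C + ll (B + 1)) * (Real.exp (-g0 t y) * Real.exp (-ll y))) +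
        K * Y * (Real.exp (C + ll (B + 1)) * (Real.exp (-g0 t y) * Real.exp (-ll y))) := by linarith
    _ = _ := by ring

theorem count_pair (t : Bool) (T : Tr h0 h1 h2 B D C w0 w1 w2) :
    ∃ K : ℝ, 0 < K ∧ ∃ s : ℕ, 0 < s ∧ ∀ (Y y : ℕ) (M : ℤ), 2 ≤ y → B ≤ y → y ^ (s + 2) ≤ Y →
    ∀ p q : ℕ, p ∈ pr (B + 1) (y + 1) → q ∈ pr (B + 1) (y + 1) → ∀ S : Finset ℤ,
    (∀ m ∈ S, M < m ∧ m ≤ M + Y ∧ (p : ℤ) ∣ h1.eval m ∧ (q : ℤ) ∣ h2.eval m ∧
      (t = true → ∀ l ∈ pr (B + 1) (y + 1), ¬ (l : ℤ) ∣ h0.eval m) ∧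
      (∀ l ∈ pr (p + 1) (y + 1), ¬ (l : ℤ) ∣ h1.eval m) ∧ (∀ l ∈ pr (q + 1) (y + 1), ¬ (l : ℤ) ∣ h2.eval m) ∧
      ∀ p q : ℕ, p.Prime → q.Prime → B < p → B < q → (p : ℤ) ∣ h1.eval m → (q : ℤ) ∣ h2.eval m →
        jacobiSym (p : ℤ) q ≠ -1) →
    (S.card : ℝ) ≤ K * Y * (Real.exp (-g0 t y) * Real.exp (-(2 * ll y)) *
      GG (W ch1 w1) (W ch2 w2) (LB ch1 w1) (LB ch2 w2) p q) := by
  classical
  obtain ⟨K, hK, s, hs, H⟩ := pair_count t T
  have hB2 := T.hB2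
  have hC0 : 0 ≤ C := (abs_nonneg _).trans (T.W1.me 2 2 le_rfl le_rfl)
  obtain ⟨c1, hc1, H1⟩ := half_all h1 B D C w1 T.W1 ch1
  obtain ⟨c2, hc2, H2⟩ := half_all h2 B D C w2 T.W2 ch2
  refine ⟨K * (Real.exp (2 * C + 2) * (c1 * c2 + 1)), by positivity, s, hs, ?_⟩
  intro Y y M hy hBy hyY p q hp hq S hS
  have hp' := mem_pr.1 hp
  have hq' := mem_pr.1 hq
  have hp0 : (0 : ℝ) < p := by exact_mod_cast hp'.2.pos
  have hq0 : (0 : ℝ) < q := by exact_mod_cast hq'.2.pos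
  have hlp : 0 < Real.log p := Real.log_pos (by exact_mod_cast hp'.2.one_lt)
  have hlq : 0 < Real.log q := Real.log_pos (by exact_mod_cast hq'.2.one_lt)
  have hLy := ll_ge hy
  have hW1 := W_ge ch1 w1 q
  have hW2 := W_ge ch2 w2 p
  have hit : ∀ (E : ℕ → Prop) (q : ℕ), (0 : ℝ) ≤ (if E q then 1 else 0) := fun E q => by split_ifs <;> norm_num
  obtain ⟨X, hX⟩ : ∃ X : ℝ, X = W ch2 w2 p * W ch1 w1 q * ((1 / Real.sqrt (Real.log p) + 1 / (Real.log q) ^ 3) *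
    (1 / Real.sqrt (Real.log q) + 1 / (Real.log p) ^ 3)) := ⟨_, rfl⟩
  have hX0 : 0 ≤ X := by rw [hX]; positivity
  have hgg : GG (W ch1 w1) (W ch2 w2) (LB ch1 w1) (LB ch2 w2) p q * (p * q) =
      (X + (if LB ch2 w2 p then 1 else 0) + (if LB ch1 w1 q then 1 else 0)) * (Real.log p * Real.log q) := by
    unfold GG
    rw [← hX]
    field_simp
  have hG0 : 0 ≤ GG (W ch1 w1) (W ch2 w2) (LB ch1 w1) (LB ch2 w2) p q := by
    unfold GG
    rw [← hX]
    have i1 := hit (LB ch2 w2) p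
    have i2 := hit (LB ch1 w1) q
    positivity
  by_cases hpq : p = q
  · have hSe : S = ∅ := by
      rw [eq_empty_iff_forall_notMem]
      intro m hm
      obtain ⟨a1, a2, a3, a4, -⟩ := hS m hm
      rw [← hpq] at a4
      exact T.c12 p hp'.2 (by omega) m a3 a4
    rw [hSe, card_empty, Nat.cast_zero]
    positivity
  -- the basic sums
  have hbase : ∀ (w : ℕ → ℝ) (t : ℕ), (∀ a b : ℕ, 2 ≤ a → a ≤ b → |∑ l ∈ pr a b, w l / l - (ll b - ll a)| ≤ C) →
      2 ≤ t → t ≤ y → ll y - ll t - C - 1 ≤ ∑ l ∈ pr (t + 1) (y + 1), w l / l := by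
    intro w t hw ht hty
    have h3 := (abs_le.1 (hw (t + 1) (y + 1) (by omega) (by omega))).1
    have h4 := ll_mono hy (by omega : y ≤ y + 1)
    have h5 := ll_succ ht
    linarith
  have hb1 := hbase w1 p T.W1.me (by omega) (by omega)
  have hb2 := hbase w2 q T.W2.me (by omega) (by omega)
  have hsubp : pr (p + 1) (y + 1) ⊆ pr (B + 1) (y + 1) := by
    intro l hl
    rw [mem_pr] at hl ⊢
    exact ⟨⟨by omega, hl.1.2⟩, hl.2⟩
  have hsubq : pr (q + 1) (y + 1) ⊆ pr (B + 1) (y + 1) := by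
    intro l hl
    rw [mem_pr] at hl ⊢
    exact ⟨⟨by omega, hl.1.2⟩, hl.2⟩
  have hb3 : Real.exp (-(∑ l ∈ pr (p + 1) (y + 1), w1 l / l) - ∑ l ∈ pr (q + 1) (y + 1), w2 l / l) ≤
      Real.exp (2 * C + 2) * (Real.exp (-(2 * ll y)) * (Real.log p * Real.log q)) := by
    rw [← exp_ll (a := p) (by omega), ← exp_ll (a := q) (by omega), ← Real.exp_add, ← Real.exp_add,
      ← Real.exp_add]
    apply Real.exp_le_exp.2
    linarith
  -- it suffices to bound the exponential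
  have hfin : ∀ E : ℝ, (S.card : ℝ) ≤ K * (Y / (p * q)) * (Real.exp (-g0 t y) * Real.exp E) →
      Real.exp E ≤ Real.exp (2 * C + 2) * (c1 * c2 + 1) * (Real.exp (-(2 * ll y)) *
        (GG (W ch1 w1) (W ch2 w2) (LB ch1 w1) (LB ch2 w2) p q * (p * q))) →
      (S.card : ℝ) ≤ K * (Real.exp (2 * C + 2) * (c1 * c2 + 1)) * Y *
        (Real.exp (-g0 t y) * Real.exp (-(2 * ll y)) * GG (W ch1 w1) (W ch2 w2) (LB ch1 w1) (LB ch2 w2) p q) := by
    intro E h3 h4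
    have hYpq : (0 : ℝ) ≤ K * (Y / (p * q)) := by positivity
    refine h3.trans ((mul_le_mul_of_nonneg_left (mul_le_mul_of_nonneg_left h4 (Real.exp_pos _).le)
      hYpq).trans (le_of_eq ?_))
    field_simp
  by_cases hex : LB ch2 w2 p ∨ LB ch1 w1 q
  · -- exceptional pair
    have h3 := H Y y M hy hBy hyY p q hp hq hpq (pr (p + 1) (y + 1)) (pr (q + 1) (y + 1)) hsubp hsubq S (by
      intro m hm
      obtain ⟨a1, a2, a3, a4, a0, a5, a6, -⟩ := hS m hm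
      exact ⟨a1, a2, a3, a4, a0, a5, a6⟩)
    refine hfin _ h3 ?_
    rw [hgg]
    refine hb3.trans ?_
    have h5 : Real.log p * Real.log q ≤
        (X + (if LB ch2 w2 p then 1 else 0) + (if LB ch1 w1 q then 1 else 0)) * (Real.log p * Real.log q) := by
      apply le_mul_of_one_le_left (by positivity)
      have i1 := hit (LB ch2 w2) p
      have i2 := hit (LB ch1 w1) q
      rcases hex with h | h
      · rw [if_pos h]
        linarith
      · rw [if_pos h]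
        linarith
    have h6 : (1 : ℝ) ≤ c1 * c2 + 1 := by
      have : 0 < c1 * c2 := by positivity
      linarith
    have h7 : 0 ≤ (X + (if LB ch2 w2 p then 1 else 0) + (if LB ch1 w1 q then 1 else 0)) *
        (Real.log p * Real.log q) := le_trans (by positivity) h5
    calc Real.exp (2 * C + 2) * (Real.exp (-(2 * ll y)) * (Real.log p * Real.log q)) ≤
          Real.exp (2 * C + 2) * (Real.exp (-(2 * ll y)) *
          ((X + (if LB ch2 w2 p then 1 else 0) + (if LB ch1 w1 q then 1 else 0)) * (Real.log p * Real.log q))) :=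
          mul_le_mul_of_nonneg_left (mul_le_mul_of_nonneg_left h5 (Real.exp_pos _).le) (Real.exp_pos _).le
      _ ≤ _ := by
          apply mul_le_mul_of_nonneg_right _ (by positivity)
          exact le_mul_of_one_le_right (Real.exp_pos _).le h6
  · push Not at hex
    obtain ⟨hex1, hex2⟩ := hex
    have g1 := H1 q p (by omega) hex2 (fun l hl hl2 hlq => ch1_pm' q l hq'.2 (by omega) hl hlq)
      (fun l => ch1_abs l q) (by omega)
    have g2 := H2 p q (by omega) hex1 (fun l hl hl2 hlp => ch2_pm' p l hp'.2 hl hlp)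
      (fun l => ch2_abs l p) (by omega)
    set F1 : Finset ℕ := NF ch1 B q p with hF1
    set F2 : Finset ℕ := NF ch2 B p q with hF2
    have hF1m : ∀ l ∈ F1, l < p ∧ l.Prime ∧ B < l ∧ 2 < l ∧ ch1 l q = -1 := by
      intro l hl
      rw [hF1, NF, mem_filter, mem_pr] at hl
      exact ⟨hl.1.1.2, hl.1.2, hl.2.1, hl.2.2.1, hl.2.2.2⟩
    have hF2m : ∀ l ∈ F2, l < q ∧ l.Prime ∧ B < l ∧ 2 < l ∧ ch2 l p = -1 := by
      intro l hl
      rw [hF2, NF, mem_filter, mem_pr] at hl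
      exact ⟨hl.1.1.2, hl.1.2, hl.2.1, hl.2.2.1, hl.2.2.2⟩
    have d1 : Disjoint (pr (p + 1) (y + 1)) F1 := by
      rw [disjoint_left]
      intro l hl hl'
      have a := mem_pr.1 hl
      have b := hF1m l hl'
      omega
    have d2 : Disjoint (pr (q + 1) (y + 1)) F2 := by
      rw [disjoint_left]
      intro l hl hl'
      have a := mem_pr.1 hl
      have b := hF2m l hl'
      omega
    have h3 := H Y y M hy hBy hyY p q hp hq hpq (pr (p + 1) (y + 1) ∪ F1) (pr (q + 1) (y + 1) ∪ F2) (by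
        apply union_subset hsubp
        intro l hl
        have b := hF1m l hl
        rw [mem_pr]
        exact ⟨⟨by omega, by omega⟩, b.2.1⟩) (by
        apply union_subset hsubq
        intro l hl
        have b := hF2m l hl
        rw [mem_pr]
        exact ⟨⟨by omega, by omega⟩, b.2.1⟩) S (by
      intro m hm
      obtain ⟨a1, a2, a3, a4, a0, a5, a6, a7⟩ := hS m hm
      refine ⟨a1, a2, a3, a4, a0, ?_, ?_⟩
      · intro l hl
        rcases mem_union.1 hl with h | h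
        · exact a5 l h
        · intro hd
          have b := hF1m l h
          have hj := a7 l q b.2.1 hq'.2 b.2.2.1 (by omega) hd a4
          have ho : Odd q := hq'.2.odd_of_ne_two (by omega)
          have e := b.2.2.2.2
          unfold ch1 psi at e
          rw [if_pos ho] at e
          exact hj (by exact_mod_cast e)
      · intro l hl
        rcases mem_union.1 hl with h | h
        · exact a6 l h
        · intro hd
          have b := hF2m l h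
          have hj := a7 p l hp'.2 b.2.1 (by omega) b.2.2.1 a3 hd
          have e := b.2.2.2.2
          unfold ch2 at e
          exact hj (by exact_mod_cast e))
    rw [sum_union d1, sum_union d2] at h3
    refine hfin _ h3 ?_
    rw [hgg, if_neg hex1, if_neg hex2, add_zero, add_zero]
    have e3 : Real.exp (-(∑ l ∈ pr (p + 1) (y + 1), w1 l / l + ∑ l ∈ F1, w1 l / l) -
        (∑ l ∈ pr (q + 1) (y + 1), w2 l / l + ∑ l ∈ F2, w2 l / l)) =
        Real.exp (-(∑ l ∈ pr (p + 1) (y + 1), w1 l / l) - ∑ l ∈ pr (q + 1) (y + 1), w2 l / l) *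
        (Real.exp (-∑ l ∈ F1, w1 l / l) * Real.exp (-∑ l ∈ F2, w2 l / l)) := by
      rw [← Real.exp_add, ← Real.exp_add]
      congr 1
      ring
    rw [e3]
    have h8 : Real.exp (-∑ l ∈ F1, w1 l / l) * Real.exp (-∑ l ∈ F2, w2 l / l) ≤ c1 * c2 * X := by
      refine (mul_le_mul g1 g2 (Real.exp_pos _).le (by positivity)).trans (le_of_eq ?_)
      rw [hX]
      ring
    have h9 := mul_le_mul hb3 h8 (by positivity) (by positivity)
    refine h9.trans ?_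
    have h10 : c1 * c2 * X ≤ (c1 * c2 + 1) * X := mul_le_mul_of_nonneg_right (by linarith) hX0
    calc Real.exp (2 * C + 2) * (Real.exp (-(2 * ll y)) * (Real.log p * Real.log q)) * (c1 * c2 * X) ≤
        Real.exp (2 * C + 2) * (Real.exp (-(2 * ll y)) * (Real.log p * Real.log q)) * ((c1 * c2 + 1) * X) :=
          mul_le_mul_of_nonneg_left h10 (by positivity)
      _ = _ := by ring

end

/-! ### the rate -/

theorem rs_pos (t : Bool) {Y : ℕ} (hY : 3 ≤ Y) : 0 < (Y : ℝ) / Real.log Y ^ ex t := by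
  have h2 : 0 < Real.log Y := Real.log_pos (by exact_mod_cast (by omega : 1 < Y))
  have h3 : (0 : ℝ) < Y := by exact_mod_cast (by omega : 0 < Y)
  positivity

theorem rs_small (t : Bool) (Y0 : ℕ) : ∃ C : ℝ, 0 < C ∧ ∀ Y : ℕ, 3 ≤ Y → Y ≤ Y0 →
    (Y : ℝ) ≤ C * ((Y : ℝ) / Real.log Y ^ ex t) := by
  have h0 : 0 < Real.log ((Y0 : ℝ) + 2) := Real.log_pos (by linarith [(Nat.cast_nonneg Y0 : (0 : ℝ) ≤ Y0)])
  refine ⟨(Real.log (Y0 + 2)) ^ ex t, by positivity, ?_⟩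
  intro Y hY hY0
  have h2 : 0 < Real.log Y := Real.log_pos (by exact_mod_cast (by omega : 1 < Y))
  have h3 : (0 : ℝ) < Y := by exact_mod_cast (by omega : 0 < Y)
  have h4 : Real.log Y ≤ Real.log ((Y0 : ℝ) + 2) := by
    apply Real.log_le_log h3
    have : (Y : ℝ) ≤ Y0 := by exact_mod_cast hY0
    linarith
  have h4' : Real.log Y ^ ex t ≤ Real.log ((Y0 : ℝ) + 2) ^ ex t := pow_le_pow_left₀ h2.le h4 _
  rw [← mul_div_assoc, le_div_iff₀ (by positivity), mul_comm]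
  exact mul_le_mul_of_nonneg_right h4' h3.le

/-- comparison of `y` and `Y` -/
theorem rs_conv (t : Bool) {T y Y : ℕ} (hT : 1 ≤ T) (hy : 2 ≤ y) (hyY : y ^ T ≤ Y) (hYy : Y < (y + 1) ^ T) :
    Real.exp (-g0 t y) * Real.exp (-ll y) ≤ (2 * T) ^ ex t / Real.log Y ^ ex t := by
  cases t
  · have h1 := exp_ll_le hT hy hyY hYy 1 zero_le_one
    rw [Real.rpow_one, Real.rpow_one, neg_mul, one_mul] at h1
    simpa [g0, ex] using h1
  · have h1 := exp_ll_le hT hy hyY hYy 2 zero_le_two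
    rw [Real.rpow_two, Real.rpow_two] at h1
    have h2 : -2 * ll y = -ll y + -ll y := by ring
    rw [h2, Real.exp_add] at h1
    simpa [g0, ex] using h1

theorem core (t : Bool) (h0 h1 h2 : ℤ[X]) (hd0 : 1 ≤ h0.natDegree) (hd1 : 1 ≤ h1.natDegree) (hd2 : 1 ≤ h2.natDegree)
    (B0 : ℕ) (hc01 : Cop B0 h0 h1) (hc02 : Cop B0 h0 h2) (hc12 : Cop B0 h1 h2) :
    ∃ C : ℝ, 0 < C ∧ ∀ (Y : ℕ) (M : ℤ), 3 ≤ Y → ∀ S : Finset ℤ, (∀ m ∈ S, M < m ∧ m ≤ M + Y) →
      (t = true → ∀ m ∈ S, ∀ l : ℕ, l.Prime → l ^ 2 ≤ Y → ¬ (l : ℤ) ∣ h0.eval m) →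
      (∀ m ∈ S, ∀ p q : ℕ, p.Prime → q.Prime → B0 < p → B0 < q → (p : ℤ) ∣ h1.eval m → (q : ℤ) ∣ h2.eval m →
        jacobiSym (p : ℤ) q ≠ -1) →
      (S.card : ℝ) ≤ C * ((Y : ℝ) / Real.log Y ^ ex t) := by
  classical
  obtain ⟨B', D', C', w0, hw0⟩ := exists_wt h0 hd0
  obtain ⟨B1, D1, C1, w1, hw1⟩ := exists_wt h1 hd1
  obtain ⟨B2, D2, C2, w2, hw2⟩ := exists_wt h2 hd2
  obtain ⟨D, hD⟩ : ∃ D : ℕ, D = D' + D1 + D2 := ⟨_, rfl⟩
  obtain ⟨B, hB⟩ : ∃ B : ℕ, B = B0 + B' + B1 + B2 + 3 * D + 2 := ⟨_, rfl⟩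
  obtain ⟨C, hC⟩ : ∃ C : ℝ, C = max C' (max C1 C2) := ⟨_, rfl⟩
  have hCop : ∀ h h' : ℤ[X], Cop B0 h h' → Cop B h h' := fun h h' hh l hl hBl => hh l hl (by omega)
  have T : Tr h0 h1 h2 B D C w0 w1 w2 :=
    ⟨hCop _ _ hc01, hCop _ _ hc02, hCop _ _ hc12,
      hw0.mono (by omega) (by omega) (by rw [hC]; exact le_max_left _ _),
      hw1.mono (by omega) (by omega) (by rw [hC]; exact (le_max_left _ _).trans (le_max_right _ _)),
      hw2.mono (by omega) (by omega) (by rw [hC]; exact (le_max_right _ _).trans (le_max_right _ _)),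
      by omega, by omega⟩
  obtain ⟨Ka, hKa, sa, hsa, HA⟩ := count_none t T
  obtain ⟨Kb, hKb, sb, hsb, HB⟩ := count_pair t T
  have P1 : ∀ l l' N : ℕ, l.Prime → l'.Prime → 2 < l → 2 < l' → l ≠ l' →
      |∑ m ∈ Icc 1 N, ch1 l m * ch1 l' m| ≤ 4 * l * l' := by
    intro l l' N hl hl' _ _ hne
    exact psi_prod l l' N hl hl' hne
  have P2 : ∀ l l' N : ℕ, l.Prime → l'.Prime → 2 < l → 2 < l' → l ≠ l' →
      |∑ m ∈ Icc 1 N, ch2 l m * ch2 l' m| ≤ 4 * l * l' := by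
    intro l l' N hl hl' h2 h2' hne
    exact jac_prod l l' N hl hl' hne h2 h2'
  obtain ⟨k1, hk1, HU⟩ := W_sums ch1 w1 D T.W1.nn T.W1.le ch1_abs ch1_mul P1
  obtain ⟨k2, hk2, HV⟩ := W_sums ch2 w2 D T.W2.nn T.W2.le ch2_abs ch2_mul P2
  obtain ⟨k3, hk3, HE1⟩ := lb_sum ch1 (fun l m => (jacobiSym (l : ℤ) m : ℝ)) w1 D T.W1.nn T.W1.le
    (fun l m => by rcases jacobiSym.trichotomy (l : ℤ) m with h | h | h <;> rw [h] <;> norm_num)
    (fun l m hl hm hl2 hm2 => by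
      unfold ch1 psi
      rw [if_pos (hm.odd_of_ne_two (by omega))])
    (fun q q' N hq hq' h2 h2' hne => jac_prod q q' N hq hq' hne h2 h2')
  obtain ⟨k4, hk4, HE2⟩ := lb_sum ch2 (fun l m => psi (m : ℤ) l) w2 D T.W2.nn T.W2.le
    (fun l m => ch1_abs m l)
    (fun l m hl hm hl2 hm2 => by
      unfold ch2 psi
      rw [if_pos (hl.odd_of_ne_two (by omega))])
    (fun q q' N hq hq' h2 h2' hne => psi_prod q q' N hq hq' hne)
  obtain ⟨k, hk⟩ : ∃ k : ℝ, k = k1 + k2 + k3 + k4 := ⟨_, rfl⟩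
  have hk0 : 0 < k := by rw [hk]; positivity
  have mono3 : ∀ (U : ℕ → ℝ) (c : ℝ), c ≤ k → (∀ y : ℕ, 2 ≤ y →
      ∑ p ∈ pr 2 (y + 1), U p * Real.log p / p ≤ c * Real.log y ∧
      ∑ p ∈ pr 2 (y + 1), U p * Real.sqrt (Real.log p) / p ≤ c * Real.sqrt (Real.log y) ∧
      ∑ p ∈ pr 2 (y + 1), U p / (Real.log p) ^ 2 / p ≤ c) → ∀ y : ℕ, 2 ≤ y →
      ∑ p ∈ pr 2 (y + 1), U p * Real.log p / p ≤ k * Real.log y ∧
      ∑ p ∈ pr 2 (y + 1), U p * Real.sqrt (Real.log p) / p ≤ k * Real.sqrt (Real.log y) ∧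
      ∑ p ∈ pr 2 (y + 1), U p / (Real.log p) ^ 2 / p ≤ k := by
    intro U c hc HU y hy
    obtain ⟨a1, a2, a3⟩ := HU y hy
    exact ⟨a1.trans (mul_le_mul_of_nonneg_right hc (Real.log_natCast_nonneg y)),
      a2.trans (mul_le_mul_of_nonneg_right hc (Real.sqrt_nonneg _)), a3.trans hc⟩
  have HG := sum_GG (W ch1 w1) (W ch2 w2) (W_ge _ _) (W_ge _ _) (LB ch1 w1) (LB ch2 w2) k hk0
    (mono3 _ k1 (by linarith) HU) (mono3 _ k2 (by linarith) HV)
    (fun S hS => (HE1 S hS).trans (by linarith)) (fun S hS => (HE2 S hS).trans (by linarith))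
  obtain ⟨Kg, hKg⟩ : ∃ Kg : ℝ, Kg = 9 * k ^ 2 := ⟨_, rfl⟩
  have hKg0 : 0 < Kg := by rw [hKg]; positivity
  rw [← hKg] at HG
  obtain ⟨T0, hT0⟩ : ∃ T : ℕ, T = sa + sb + 2 := ⟨_, rfl⟩
  obtain ⟨C0, hC0, H0⟩ := rs_small t ((B + 2) ^ T0)
  refine ⟨C0 + (Ka + Kb * Kg) * (2 * T0) ^ ex t, by positivity, ?_⟩
  intro Y M hY S hSI hS0' hS
  have hr := rs_pos t hY
  have hSY : (S.card : ℝ) ≤ Y := by exact_mod_cast card_le_Y hSI
  by_cases hY0 : Y ≤ (B + 2) ^ T0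
  · have h3 := H0 Y hY hY0
    have h4 : 0 ≤ (Ka + Kb * Kg) * (2 * T0) ^ ex t * ((Y : ℝ) / Real.log Y ^ ex t) := by positivity
    nlinarith
  push Not at hY0
  have h2T : 2 ^ T0 ≤ Y := (Nat.pow_le_pow_left (by omega) T0).trans hY0.le
  obtain ⟨y, hy, hyY, hYy⟩ := exists_root T0 Y (by omega) h2T
  have hBy : B + 2 ≤ y := by
    by_contra hlt
    have h3 : (y + 1) ^ T0 ≤ (B + 2) ^ T0 := Nat.pow_le_pow_left (by omega) T0
    omega
  have hconv := rs_conv t (T := T0) (by omega) hy hyY hYy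
  have hya : y ^ sa ≤ Y := (Nat.pow_le_pow_right (by omega) (by omega)).trans hyY
  have hyb : y ^ (sb + 2) ≤ Y := (Nat.pow_le_pow_right (by omega) (by omega)).trans hyY
  have hy2 : y ^ 2 ≤ Y := (Nat.pow_le_pow_right (by omega) (by omega)).trans hyY
  have hLy := ll_ge hy
  set P := pr (B + 1) (y + 1) with hP
  have hPh0 : ∀ m ∈ S, t = true → ∀ l ∈ P, ¬ (l : ℤ) ∣ h0.eval m := by
    intro m hm ht l hl
    have h3 := mem_pr.1 hl
    exact hS0' ht m hm l h3.2 ((Nat.pow_le_pow_left (by omega) 2).trans hy2)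
  -- the sets
  set S0 : Finset ℤ := S.filter (fun m => (∀ l ∈ P, ¬ (l : ℤ) ∣ h1.eval m) ∨ (∀ l ∈ P, ¬ (l : ℤ) ∣ h2.eval m)) with hS0
  obtain ⟨Pp, hPp⟩ : ∃ Pp : ℕ → ℕ → ℤ → Prop, ∀ p q m, Pp p q m ↔ ((p : ℤ) ∣ h1.eval m ∧ (q : ℤ) ∣ h2.eval m ∧
    (∀ l ∈ pr (p + 1) (y + 1), ¬ (l : ℤ) ∣ h1.eval m) ∧ (∀ l ∈ pr (q + 1) (y + 1), ¬ (l : ℤ) ∣ h2.eval m)) :=
    ⟨_, fun p q m => Iff.rfl⟩
  set Sp : ℕ → ℕ → Finset ℤ := fun p q => S.filter (Pp p q) with hSp
  have hcov : S ⊆ S0 ∪ P.biUnion (fun p => P.biUnion (fun q => Sp p q)) := by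
    intro m hm
    rw [mem_union]
    by_cases h3 : (∀ l ∈ P, ¬ (l : ℤ) ∣ h1.eval m) ∨ (∀ l ∈ P, ¬ (l : ℤ) ∣ h2.eval m)
    · left
      rw [hS0, mem_filter]
      exact ⟨hm, h3⟩
    · right
      push Not at h3
      obtain ⟨⟨l1, hl1, hd1'⟩, ⟨l2, hl2, hd2'⟩⟩ := h3
      have hmax : ∀ h : ℤ[X], (∃ l ∈ P, (l : ℤ) ∣ h.eval m) → ∃ p ∈ P, (p : ℤ) ∣ h.eval m ∧
          ∀ l ∈ pr (p + 1) (y + 1), ¬ (l : ℤ) ∣ h.eval m := by
        rintro h ⟨l, hl, hd⟩
        have hne : (P.filter fun l : ℕ => (l : ℤ) ∣ h.eval m).Nonempty := ⟨l, mem_filter.2 ⟨hl, hd⟩⟩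
        obtain ⟨p, hp, hpm⟩ := (P.filter fun l : ℕ => (l : ℤ) ∣ h.eval m).exists_max_image id hne
        rw [mem_filter] at hp
        refine ⟨p, hp.1, hp.2, fun l' hl' hd' => ?_⟩
        have h4 := mem_pr.1 hl'
        have h5 := mem_pr.1 hp.1
        have h6 : l' ∈ P.filter fun l : ℕ => (l : ℤ) ∣ h.eval m := by
          rw [mem_filter]
          exact ⟨mem_pr.2 ⟨⟨by omega, h4.1.2⟩, h4.2⟩, hd'⟩
        have h7 : l' ≤ p := hpm l' h6
        omega
      obtain ⟨p, hp, hpd, hpm⟩ := hmax h1 ⟨l1, hl1, hd1'⟩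
      obtain ⟨q, hq, hqd, hqm⟩ := hmax h2 ⟨l2, hl2, hd2'⟩
      rw [mem_biUnion]
      refine ⟨p, hp, ?_⟩
      rw [mem_biUnion]
      refine ⟨q, hq, ?_⟩
      show m ∈ S.filter (Pp p q)
      rw [mem_filter]
      exact ⟨hm, (hPp p q m).2 ⟨hpd, hqd, hpm, hqm⟩⟩
  have hc0 : (S0.card : ℝ) ≤ Ka * Y * (Real.exp (-g0 t y) * Real.exp (-ll y)) := by
    refine HA Y y M hy hya (by omega) S0 fun m hm => ?_
    rw [hS0, mem_filter] at hm
    exact ⟨(hSI m hm.1).1, (hSI m hm.1).2, hPh0 m hm.1, hm.2⟩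
  have hcp : ∀ p ∈ P, ∀ q ∈ P, ((Sp p q).card : ℝ) ≤
      Kb * Y * (Real.exp (-g0 t y) * Real.exp (-(2 * ll y)) *
        GG (W ch1 w1) (W ch2 w2) (LB ch1 w1) (LB ch2 w2) p q) := by
    intro p hp q hq
    refine HB Y y M hy (by omega) hyb p q hp hq (Sp p q) fun m hm => ?_
    change m ∈ S.filter (Pp p q) at hm
    rw [mem_filter, hPp] at hm
    exact ⟨(hSI m hm.1).1, (hSI m hm.1).2, hm.2.1, hm.2.2.1, hPh0 m hm.1, hm.2.2.2.1, hm.2.2.2.2,
      fun p q hp hq hBp hBq => hS m hm.1 p q hp hq (by omega) (by omega)⟩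
  have hcard : (S.card : ℝ) ≤ S0.card + ∑ p ∈ P, ∑ q ∈ P, ((Sp p q).card : ℝ) := by
    have h3 : S.card ≤ S0.card + ∑ p ∈ P, ∑ q ∈ P, (Sp p q).card := by
      refine (card_le_card hcov).trans ((card_union_le _ _).trans ?_)
      refine Nat.add_le_add_left ?_ _
      refine card_biUnion_le.trans (sum_le_sum fun p _ => card_biUnion_le)
    exact_mod_cast h3
  have hsum : ∑ p ∈ P, ∑ q ∈ P, ((Sp p q).card : ℝ) ≤
      Kb * Y * (Real.exp (-g0 t y) * Real.exp (-(2 * ll y)) * (Kg * Real.log y)) := by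
    calc ∑ p ∈ P, ∑ q ∈ P, ((Sp p q).card : ℝ) ≤ ∑ p ∈ P, ∑ q ∈ P,
          Kb * Y * (Real.exp (-g0 t y) * Real.exp (-(2 * ll y)) *
            GG (W ch1 w1) (W ch2 w2) (LB ch1 w1) (LB ch2 w2) p q) :=
          sum_le_sum fun p hp => sum_le_sum fun q hq => hcp p hp q hq
      _ = Kb * Y * (Real.exp (-g0 t y) * Real.exp (-(2 * ll y)) * ∑ p ∈ P, ∑ q ∈ P,
            GG (W ch1 w1) (W ch2 w2) (LB ch1 w1) (LB ch2 w2) p q) := by
          simp only [← mul_sum]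
      _ ≤ _ := by
          apply mul_le_mul_of_nonneg_left _ (by positivity)
          apply mul_le_mul_of_nonneg_left _ (by positivity)
          exact HG B y T.hB2 hy
  have hE : Real.exp (-(2 * ll y)) * Real.log y = Real.exp (-ll y) := by
    rw [← exp_ll hy, ← Real.exp_add]
    congr 1
    ring
  have h8 : Kb * Y * (Real.exp (-g0 t y) * Real.exp (-(2 * ll y)) * (Kg * Real.log y)) =
      Kb * Kg * (Y * (Real.exp (-g0 t y) * Real.exp (-ll y))) := by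
    rw [← hE]
    ring
  rw [h8] at hsum
  have h9 : (S.card : ℝ) ≤ (Ka + Kb * Kg) * (Y * (Real.exp (-g0 t y) * Real.exp (-ll y))) := by linarith
  have hY' : (0 : ℝ) ≤ Y := Nat.cast_nonneg Y
  have h10 := mul_le_mul_of_nonneg_left (mul_le_mul_of_nonneg_left hconv hY') (by positivity : 0 ≤ Ka + Kb * Kg)
  have h11 : 0 ≤ C0 * ((Y : ℝ) / Real.log Y ^ ex t) := by positivity
  calc (S.card : ℝ) ≤ (Ka + Kb * Kg) * (Y * (Real.exp (-g0 t y) * Real.exp (-ll y))) := h9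
    _ ≤ (Ka + Kb * Kg) * (Y * ((2 * T0) ^ ex t / Real.log Y ^ ex t)) := h10
    _ = (Ka + Kb * Kg) * (2 * T0) ^ ex t * ((Y : ℝ) / Real.log Y ^ ex t) := by ring
    _ ≤ _ := by
      rw [add_mul]
      linarith

end Pool.Agent.H37.PS
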