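import Pool.Agent.H37.PS.Defs

/-!
PS Dual: the dual large sieve (note 5545, (2)(B)).

`T q = ∑_{l} a l ψ l q`, `E = ∑ q T q²`.  `E = ∑_l a l (∑_q T q ψ l q) ≤ √(∑ a²) √(∑_l (∑_q T q ψ l q)²)` (Cauchy-Schwarz) and, over ALL integers
`z ≤ l < 2z`, `∑_l (∑_q T q ψ l q)² = ∑_{q,q'} T q T q' ∑_l ψ l q ψ l q' ≤ z ∑ T² + 8 P² (∑ |T|)² ≤ (z + 8 P² |Q|) ∑ T² ≤ 9 z ∑ T²`
(`∑_{z ≤ l < 2z}` = difference of two sums `∑ l ∈ Icc 1 N`; `|Q| ≤ P` since `1 ≤ q ≤ P`).  So `E² ≤ ∑ a² · 9 z E`, `E ≤ 9 z ∑ a²`.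
-/

set_option autoImplicit false

namespace Pool.Agent.H37.PS

open Finset

theorem dual_ls (ψ : ℕ → ℕ → ℝ) (Q : Finset ℕ) (P z : ℕ) (hQ : ∀ q ∈ Q, 1 ≤ q ∧ q ≤ P) (hz1 : 1 ≤ z) (hz : P ^ 3 ≤ z)
    (h1 : ∀ l q, |ψ l q| ≤ 1)
    (h2 : ∀ q ∈ Q, ∀ q' ∈ Q, q ≠ q' → ∀ N : ℕ, |∑ l ∈ Icc 1 N, ψ l q * ψ l q'| ≤ 4 * q * q') (a : ℕ → ℝ) :
    ∑ q ∈ Q, (∑ l ∈ Ico z (2 * z), a l * ψ l q) ^ 2 ≤ 20 * z * ∑ l ∈ Ico z (2 * z), a l ^ 2 := by
  classical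
  set T : ℕ → ℝ := fun q => ∑ l ∈ Ico z (2 * z), a l * ψ l q with hT
  set S : ℝ := ∑ q ∈ Q, T q ^ 2 with hS
  have hS0 : 0 ≤ S := Finset.sum_nonneg fun q _ => sq_nonneg _
  have hz0 : (0 : ℝ) < z := by exact_mod_cast hz1
  have hzP : ((P : ℝ)) ^ 3 ≤ z := by exact_mod_cast hz
  have hP0 : (0 : ℝ) ≤ P := Nat.cast_nonneg _
  -- the number of elements of `Q`
  have hcard : (Q.card : ℝ) ≤ P := by
    have h : Q ⊆ Icc 1 P := fun q hq => mem_Icc.2 (hQ q hq)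
    have := card_le_card h
    rw [Nat.card_Icc] at this
    exact_mod_cast (by omega : Q.card ≤ P)
  -- S = ∑ a l * (∑ T q ψ l q)
  have e1 : S = ∑ l ∈ Ico z (2 * z), a l * ∑ q ∈ Q, T q * ψ l q := by
    have h1' : ∀ q ∈ Q, T q ^ 2 = ∑ l ∈ Ico z (2 * z), a l * (T q * ψ l q) := by
      intro q _
      have h2' : T q ^ 2 = T q * ∑ l ∈ Ico z (2 * z), a l * ψ l q := by rw [sq]
      rw [h2', Finset.mul_sum]
      exact Finset.sum_congr rfl fun l _ => by ring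
    rw [hS, Finset.sum_congr rfl h1', Finset.sum_comm]
    exact Finset.sum_congr rfl fun l _ => by rw [Finset.mul_sum]
  have hCS : S ^ 2 ≤ (∑ l ∈ Ico z (2 * z), a l ^ 2) *
      ∑ l ∈ Ico z (2 * z), (∑ q ∈ Q, T q * ψ l q) ^ 2 := by
    conv_lhs => rw [e1]
    exact Finset.sum_mul_sq_le_sq_mul_sq _ _ _
  -- the sums over dyadic intervals
  have hoff : ∀ q ∈ Q, ∀ q' ∈ Q, q ≠ q' →
      |∑ l ∈ Ico z (2 * z), ψ l q * ψ l q'| ≤ 8 * (P : ℝ) ^ 2 := by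
    intro q hq q' hq' hne
    have e2 : ∑ l ∈ Ico z (2 * z), ψ l q * ψ l q' =
        ∑ l ∈ Icc 1 (2 * z - 1), ψ l q * ψ l q' - ∑ l ∈ Icc 1 (z - 1), ψ l q * ψ l q' := by
      have h3 : Icc 1 (2 * z - 1) = Icc 1 (z - 1) ∪ Ico z (2 * z) := by
        ext l
        simp only [mem_union, mem_Icc, mem_Ico]
        omega
      have h4 : Disjoint (Icc 1 (z - 1)) (Ico z (2 * z)) := by
        rw [Finset.disjoint_left]
        intro l hl hl'
        simp only [mem_Icc, mem_Ico] at hl hl'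
        omega
      rw [h3, Finset.sum_union h4]
      ring
    rw [e2]
    have ha := h2 q hq q' hq' hne (2 * z - 1)
    have hb := h2 q hq q' hq' hne (z - 1)
    have hqP : (q : ℝ) ≤ P := by exact_mod_cast (hQ q hq).2
    have hqP' : (q' : ℝ) ≤ P := by exact_mod_cast (hQ q' hq').2
    have hqq : (q : ℝ) * q' ≤ (P : ℝ) ^ 2 := by
      rw [sq]
      exact mul_le_mul hqP hqP' (Nat.cast_nonneg _) hP0
    calc |_ - _| ≤ |∑ l ∈ Icc 1 (2 * z - 1), ψ l q * ψ l q'|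
          + |∑ l ∈ Icc 1 (z - 1), ψ l q * ψ l q'| := abs_sub _ _
      _ ≤ 4 * q * q' + 4 * q * q' := add_le_add ha hb
      _ = 8 * (q * q') := by ring
      _ ≤ 8 * (P : ℝ) ^ 2 := by linarith
  have hdiag : ∀ q, |∑ l ∈ Ico z (2 * z), ψ l q * ψ l q| ≤ z := by
    intro q
    calc |∑ l ∈ Ico z (2 * z), ψ l q * ψ l q| ≤ ∑ l ∈ Ico z (2 * z), |ψ l q * ψ l q| :=
          Finset.abs_sum_le_sum_abs _ _
      _ ≤ ∑ _l ∈ Ico z (2 * z), (1 : ℝ) := by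
          refine Finset.sum_le_sum fun l _ => ?_
          rw [abs_mul]
          have := h1 l q
          exact mul_le_one₀ this (abs_nonneg _) this
      _ = z := by
          rw [Finset.sum_const, Nat.card_Ico, nsmul_eq_mul, mul_one]
          have : 2 * z - z = z := by omega
          rw [this]
  have hexp : ∑ l ∈ Ico z (2 * z), (∑ q ∈ Q, T q * ψ l q) ^ 2 =
      ∑ q ∈ Q, ∑ q' ∈ Q, T q * T q' * ∑ l ∈ Ico z (2 * z), ψ l q * ψ l q' := by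
    have h3 : ∀ l, (∑ q ∈ Q, T q * ψ l q) ^ 2 =
        ∑ q ∈ Q, ∑ q' ∈ Q, T q * T q' * (ψ l q * ψ l q') := by
      intro l
      rw [sq, Finset.sum_mul_sum]
      refine Finset.sum_congr rfl fun q _ => Finset.sum_congr rfl fun q' _ => by ring
    rw [Finset.sum_congr rfl fun l _ => h3 l, Finset.sum_comm]
    refine Finset.sum_congr rfl fun q _ => ?_
    rw [Finset.sum_comm]
    refine Finset.sum_congr rfl fun q' _ => ?_
    exact (Finset.mul_sum _ _ _).symm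
  have hterm : ∀ q ∈ Q, ∀ q' ∈ Q, T q * T q' * ∑ l ∈ Ico z (2 * z), ψ l q * ψ l q' ≤
      (if q = q' then z * T q ^ 2 else 0) + 8 * (P : ℝ) ^ 2 * (|T q| * |T q'|) := by
    intro q hq q' hq'
    have hab : T q * T q' * ∑ l ∈ Ico z (2 * z), ψ l q * ψ l q' ≤
        |T q| * |T q'| * |∑ l ∈ Ico z (2 * z), ψ l q * ψ l q'| := by
      rw [← abs_mul, ← abs_mul]
      exact le_abs_self _
    have hTT : 0 ≤ |T q| * |T q'| := mul_nonneg (abs_nonneg _) (abs_nonneg _)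
    by_cases h : q = q'
    · subst h
      rw [if_pos rfl]
      have h5 := mul_le_mul_of_nonneg_left (hdiag q) hTT
      have h6 : |T q| * |T q| = T q ^ 2 := by rw [← sq, sq_abs]
      have h7 : 0 ≤ 8 * (P : ℝ) ^ 2 * (|T q| * |T q|) := by positivity
      rw [h6] at h5 hab h7 ⊢
      linarith
    · rw [if_neg h, zero_add]
      have h5 := mul_le_mul_of_nonneg_left (hoff q hq q' hq' h) hTT
      linarith
  have hsum : ∑ l ∈ Ico z (2 * z), (∑ q ∈ Q, T q * ψ l q) ^ 2 ≤ 9 * z * S := by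
    rw [hexp]
    have h5 : ∑ q ∈ Q, ∑ q' ∈ Q, T q * T q' * ∑ l ∈ Ico z (2 * z), ψ l q * ψ l q' ≤
        ∑ q ∈ Q, ∑ q' ∈ Q, ((if q = q' then z * T q ^ 2 else 0)
          + 8 * (P : ℝ) ^ 2 * (|T q| * |T q'|)) :=
      Finset.sum_le_sum fun q hq => Finset.sum_le_sum fun q' hq' => hterm q hq q' hq'
    have h6 : ∑ q ∈ Q, ∑ q' ∈ Q, ((if q = q' then (z : ℝ) * T q ^ 2 else 0)
          + 8 * (P : ℝ) ^ 2 * (|T q| * |T q'|)) = z * S + 8 * (P : ℝ) ^ 2 * (∑ q ∈ Q, |T q|) ^ 2 := by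
      simp only [Finset.sum_add_distrib]
      congr 1
      · rw [hS, Finset.mul_sum]
        refine Finset.sum_congr rfl fun q hq => ?_
        rw [Finset.sum_ite_eq, if_pos hq]
      · rw [sq (∑ q ∈ Q, |T q|), Finset.sum_mul_sum, Finset.mul_sum]
        refine Finset.sum_congr rfl fun q _ => ?_
        rw [Finset.mul_sum]
    have h7 : (∑ q ∈ Q, |T q|) ^ 2 ≤ P * S := by
      have h8 := Finset.sum_mul_sq_le_sq_mul_sq Q (fun _ => (1 : ℝ)) (fun q => |T q|)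
      simp only [one_mul, one_pow, sq_abs, Finset.sum_const, nsmul_eq_mul, mul_one] at h8
      exact h8.trans (mul_le_mul_of_nonneg_right hcard hS0)
    have h8 : 8 * (P : ℝ) ^ 2 * (∑ q ∈ Q, |T q|) ^ 2 ≤ 8 * (P : ℝ) ^ 2 * (P * S) :=
      mul_le_mul_of_nonneg_left h7 (by positivity)
    have h9 : 8 * (P : ℝ) ^ 2 * (P * S) = 8 * ((P : ℝ) ^ 3 * S) := by ring
    have h10 : (P : ℝ) ^ 3 * S ≤ z * S := mul_le_mul_of_nonneg_right hzP hS0
    linarith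
  have hA0 : 0 ≤ ∑ l ∈ Ico z (2 * z), a l ^ 2 := Finset.sum_nonneg fun l _ => sq_nonneg _
  have hfin : S ^ 2 ≤ (∑ l ∈ Ico z (2 * z), a l ^ 2) * (9 * z * S) :=
    hCS.trans (mul_le_mul_of_nonneg_left hsum hA0)
  change S ≤ _
  rcases hS0.eq_or_lt with h0 | h0
  · rw [← h0]
    positivity
  · have h5 : S * S ≤ (9 * z * ∑ l ∈ Ico z (2 * z), a l ^ 2) * S := by
      calc S * S = S ^ 2 := by ring
        _ ≤ _ := hfin
        _ = _ := by ring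
    have h6 := le_of_mul_le_mul_right h5 h0
    have h7 : 0 ≤ (z : ℝ) * ∑ l ∈ Ico z (2 * z), a l ^ 2 := mul_nonneg hz0.le hA0
    linarith

end Pool.Agent.H37.PS
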