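import Pool.Agent.H37.PS.Core
import Pool.Agent.H37.PS.Sq
import Pool.Agent.H37.PU.Rat
import Pool.Agent.H37.PW.Base

/-!
PS FinB: polynomial values at primes, rate `Y / (log Y)²` (adapted from PP/Fin.lean).
-/

set_option autoImplicit false

namespace Pool.Agent.H37.PS

open Finset Polynomial Pool.Agent.H37.PPC Pool.Agent.H37.PPD Pool.Agent.H37.PB Pool.Agent.H37.PP Pool.Agent.H37.PV Pool.Agent.H37.PU

/-- the rate `Y / (log Y)²` -/
noncomputable def rs2 (Y : ℕ) : ℝ := (Y : ℝ) / Real.log Y ^ ex true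

theorem ex_true : ex true = 2 := rfl

/-- at most `C rs2 Y` primes `> √Y` in every interval of length `Y` -/
def RP (S : Set ℤ) : Prop := ∃ C : ℝ, 0 < C ∧ ∀ (Y : ℕ) (M : ℤ), 3 ≤ Y → ∀ T : Finset ℤ,
  (∀ m ∈ T, M < m ∧ m ≤ M + Y) → (∀ m ∈ T, ∃ l : ℕ, l.Prime ∧ (l : ℤ) = m ∧ Y < l ^ 2) → (∀ m ∈ T, m ∈ S) →
  (T.card : ℝ) ≤ C * rs2 Y

theorem RP.mono {S T : Set ℤ} (h : RP T) (hST : S ⊆ T) : RP S := by
  obtain ⟨C, hC, H⟩ := h
  exact ⟨C, hC, fun Y M hY U hU hp hUS => H Y M hY U hU hp fun m hm => hST (hUS m hm)⟩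

theorem RP.union {S T : Set ℤ} (h : RP S) (h' : RP T) : RP (S ∪ T) := by
  classical
  obtain ⟨C, hC, H⟩ := h
  obtain ⟨C', hC', H'⟩ := h'
  refine ⟨C + C', by positivity, fun Y M hY U hU hp hUS => ?_⟩
  have h1 := H Y M hY (U.filter fun m => m ∈ S) (fun m hm => hU m (mem_filter.1 hm).1)
    (fun m hm => hp m (mem_filter.1 hm).1) (fun m hm => (mem_filter.1 hm).2)
  have h2 := H' Y M hY (U.filter fun m => m ∈ T) (fun m hm => hU m (mem_filter.1 hm).1)
    (fun m hm => hp m (mem_filter.1 hm).1) (fun m hm => (mem_filter.1 hm).2)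
  have h3 : U ⊆ (U.filter fun m => m ∈ S) ∪ (U.filter fun m => m ∈ T) := by
    intro m hm
    rw [mem_union, mem_filter, mem_filter]
    rcases hUS m hm with h | h
    · exact Or.inl ⟨hm, h⟩
    · exact Or.inr ⟨hm, h⟩
  have h4 : (U.card : ℝ) ≤ ((U.filter fun m => m ∈ S).card : ℝ) + ((U.filter fun m => m ∈ T).card : ℝ) := by
    have := (card_le_card h3).trans (card_union_le _ _)
    exact_mod_cast this
  rw [add_mul]
  linarith

theorem log_sq_le {Y : ℕ} (hY : 3 ≤ Y) : Real.log Y ^ 2 ≤ 4 * Real.sqrt Y * Real.sqrt Y := by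
  have h3 : (0 : ℝ) < Y := by exact_mod_cast (by omega : 0 < Y)
  have h2 : 0 < Real.log Y := Real.log_pos (by exact_mod_cast (by omega : 1 < Y))
  have h5 : Real.log (Real.sqrt Y) ≤ Real.sqrt Y := by
    have := Real.log_le_sub_one_of_pos (Real.sqrt_pos.2 h3)
    linarith
  rw [Real.log_sqrt h3.le] at h5
  have h6 : Real.log Y ≤ 2 * Real.sqrt Y := by linarith
  have h7 := mul_self_le_mul_self h2.le h6
  nlinarith

/-- `rs2` is bounded below by a constant times `√Y` -/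
theorem rs2_sqrt : ∃ c : ℝ, 0 < c ∧ ∀ Y : ℕ, 3 ≤ Y → Real.sqrt Y ≤ c * rs2 Y := by
  refine ⟨16, by norm_num, fun Y hY => ?_⟩
  have h2 : 0 < Real.log Y := Real.log_pos (by exact_mod_cast (by omega : 1 < Y))
  have h3 : (0 : ℝ) < Y := by exact_mod_cast (by omega : 0 < Y)
  -- `log Y ≤ 4 Y^(1/4)`
  obtain ⟨t, ht⟩ : ∃ t : ℝ, t = Real.sqrt (Real.sqrt Y) := ⟨_, rfl⟩
  have hs0 : 0 < Real.sqrt Y := Real.sqrt_pos.2 h3
  have ht0 : 0 < t := by rw [ht]; exact Real.sqrt_pos.2 hs0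
  have ht2 : t * t = Real.sqrt Y := by rw [ht]; exact Real.mul_self_sqrt hs0.le
  have hY2 : Real.sqrt Y * Real.sqrt Y = Y := Real.mul_self_sqrt h3.le
  have h6 : Real.log Y ≤ 4 * t := by
    have h7 : Real.log t ≤ t := by
      have := Real.log_le_sub_one_of_pos ht0
      linarith
    rw [ht, Real.log_sqrt hs0.le, Real.log_sqrt h3.le, ← ht] at h7
    linarith
  have h7 : Real.log Y ^ 2 ≤ 16 * Real.sqrt Y := by
    have := mul_self_le_mul_self h2.le h6
    nlinarith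
  unfold rs2
  rw [ex_true]
  rw [← mul_div_assoc, le_div_iff₀ (by positivity)]
  calc Real.sqrt Y * Real.log Y ^ 2 ≤ Real.sqrt Y * (16 * Real.sqrt Y) := mul_le_mul_of_nonneg_left h7 hs0.le
    _ = 16 * Y := by linear_combination 16 * hY2

theorem RP_finite {S : Set ℤ} (h : S.Finite) : RP S := by
  obtain ⟨c, hc, hr⟩ := rs2_sqrt
  refine ⟨(h.toFinset.card + 1) * c, by positivity, fun Y M hY U _ _ hUS => ?_⟩
  have h1 : U ⊆ h.toFinset := fun m hm => h.mem_toFinset.2 (hUS m hm)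
  have h2 : (U.card : ℝ) ≤ h.toFinset.card := by exact_mod_cast card_le_card h1
  have h3 := hr Y hY
  have h4 : (0 : ℝ) ≤ h.toFinset.card := Nat.cast_nonneg _
  have h5 : (1 : ℝ) ≤ Real.sqrt Y := by
    rw [Real.one_le_sqrt]
    exact_mod_cast (by omega : 1 ≤ Y)
  have h6 : (1 : ℝ) ≤ c * rs2 Y := h5.trans h3
  calc (U.card : ℝ) ≤ (h.toFinset.card + 1) * 1 := by linarith
    _ ≤ (h.toFinset.card + 1) * (c * rs2 Y) := mul_le_mul_of_nonneg_left h6 (by linarith)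
    _ = _ := by ring

/-- primes `l ≤ B` -/
theorem RP_le (B : ℕ) : RP {m | m ≤ B} := by
  classical
  obtain ⟨c, hc, hr⟩ := rs2_sqrt
  refine ⟨(B + 1) * c, by positivity, fun Y M hY U _ hp hUS => ?_⟩
  have h1 : U ⊆ Finset.Icc (0 : ℤ) B := by
    intro m hm
    rw [Finset.mem_Icc]
    obtain ⟨l, _, hl, _⟩ := hp m hm
    exact ⟨by omega, hUS m hm⟩
  have h2 := card_le_card h1
  rw [Int.card_Icc] at h2
  have h2' : U.card ≤ B + 1 := by omega
  have h2'' : (U.card : ℝ) ≤ B + 1 := by exact_mod_cast h2'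
  have h3 := hr Y hY
  have h5 : (1 : ℝ) ≤ Real.sqrt Y := by
    rw [Real.one_le_sqrt]
    exact_mod_cast (by omega : 1 ≤ Y)
  have h6 : (1 : ℝ) ≤ c * rs2 Y := h5.trans h3
  have h4 : (0 : ℝ) ≤ B := Nat.cast_nonneg _
  calc (U.card : ℝ) ≤ (B + 1) * 1 := by linarith
    _ ≤ (B + 1) * (c * rs2 Y) := mul_le_mul_of_nonneg_left h6 (by linarith)
    _ = _ := by ring

/-- `F(m)/N` is an integer `≥ 2` with an order among its powers of exponent prime to 3 -/
def SBp (N : ℕ) (F : ℤ[X]) : Set ℤ := {m | ∃ n : ℕ, (N : ℤ) * n = F.eval m ∧ 2 ≤ n ∧ Bad n}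

theorem cop_X {h : ℤ[X]} (h0 : h.eval 0 ≠ 0) {B : ℕ} (hB : (h.eval 0).natAbs ≤ B) : Cop B X h := by
  intro l hl hBl m h1 h2
  rw [eval_X] at h1
  have h3 : (l : ℤ) ∣ h.eval m - h.eval 0 := by
    have := Polynomial.sub_dvd_eval_sub m 0 h
    rw [sub_zero] at this
    exact h1.trans this
  have h4 : (l : ℤ) ∣ h.eval 0 := by
    have := dvd_sub h2 h3
    simpa using this
  have h5 := Int.le_of_dvd (Int.natAbs_pos.2 h0 |> fun h => by exact_mod_cast h) (Int.dvd_natAbs.2 h4)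
  omega

theorem keyp (N : ℕ) (hN : 1 ≤ N) (F h : ℤ[X]) (hF : 1 ≤ F.natDegree) (hi : Irreducible h) (hd : 1 ≤ h.natDegree)
    (hh0 : h.eval 0 ≠ 0) (B : ℕ) (hhF : h ∣ F)
    (H : ∀ p l : ℕ, p.Prime → B < p → l.Prime → B < l → ∀ n : ℕ, (N : ℤ) * n = F.eval (l : ℤ) → 2 ≤ n →
      (p : ℤ) ∣ h.eval (l : ℤ) → ¬ (p : ℤ) ^ 2 ∣ h.eval (l : ℤ) → ¬ IsSquare n) : RP (SBp N F) := by
  classical
  have hN0 : (N : ℤ) ≠ 0 := by exact_mod_cast (by omega : N ≠ 0)
  have hG : 1 ≤ (F ^ 2 + (C (N : ℤ) * F + C ((N : ℤ) ^ 2))).natDegree := by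
    have h1 : (F ^ 2).natDegree = 2 * F.natDegree := natDegree_pow F 2
    have h2 : (C (N : ℤ) * F + C ((N : ℤ) ^ 2)).natDegree < (F ^ 2).natDegree := by
      refine lt_of_le_of_lt (natDegree_add_le _ _) ?_
      rw [natDegree_C, h1, natDegree_C_mul hN0]
      omega
    rw [natDegree_add_eq_left_of_natDegree_lt h2, h1]
    omega
  obtain ⟨g, hgi, hgd, hgG⟩ := exists_irr _ hG
  have hGe : ∀ m : ℤ, (F ^ 2 + (C (N : ℤ) * F + C ((N : ℤ) ^ 2))).eval m = F.eval m ^ 2 + (N * F.eval m + N ^ 2) := by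
    intro m
    rw [eval_add, eval_add, eval_mul, eval_C, eval_C, eval_pow]
  have hg0 : g.eval 0 ≠ 0 := by
    intro h3
    obtain ⟨k, hk⟩ := hgG
    have h4 := hGe 0
    rw [hk, eval_mul, h3, zero_mul] at h4
    nlinarith [sq_nonneg (2 * F.eval 0 + N), sq_pos_of_ne_zero hN0]
  have hfd : ∀ (l : ℕ) (m : ℤ), (l : ℤ) ∣ h.eval m → (l : ℤ) ∣ F.eval m := by
    intro l m hl
    obtain ⟨k, hk⟩ := hhF
    rw [hk, eval_mul]
    exact hl.mul_right _
  have hgd' : ∀ (l : ℕ) (m : ℤ), (l : ℤ) ∣ g.eval m → (l : ℤ) ∣ F.eval m ^ 2 + (N * F.eval m + N ^ 2) := by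
    intro l m hl
    obtain ⟨k, hk⟩ := hgG
    rw [← hGe m, hk, eval_mul]
    exact hl.mul_right _
  obtain ⟨B0, hB0⟩ : ∃ B0 : ℕ, B0 = B + N + (h.eval 0).natAbs + (g.eval 0).natAbs := ⟨_, rfl⟩
  have hNl : ∀ l : ℕ, l.Prime → B0 < l → ¬ (l : ℤ) ∣ N := by
    intro l _ hl hd'
    have h3 : l ∣ N := by exact_mod_cast hd'
    have h4 := Nat.le_of_dvd (by omega) h3
    omega
  have c1 : Cop B0 X h := cop_X hh0 (by omega)
  have c2 : Cop B0 X g := cop_X hg0 (by omega)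
  have c3 : Cop B0 h g := by
    intro l hl hBl m h1 h2
    have h3 := hfd l m h1
    have h4 := hgd' l m h2
    have h5 : (l : ℤ) ∣ N ^ 2 := by
      have h6 : (l : ℤ) ∣ F.eval m ^ 2 := h3.trans (dvd_pow_self _ two_ne_zero)
      have h7 : (l : ℤ) ∣ N * F.eval m := h3.mul_left _
      exact (Int.dvd_add_right h7).1 ((Int.dvd_add_right h6).1 h4)
    exact hNl l hl hBl ((Nat.prime_iff_prime_int.1 hl).dvd_of_dvd_pow h5)
  obtain ⟨C1, hC1, H1⟩ := core true X h g (by rw [natDegree_X]) hd hgd B0 c1 c2 c3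
  obtain ⟨C2, hC2, H2⟩ := sq_sharp true X h (by rw [natDegree_X]) hi hd B0 c1
  have hmain : RP (SBp N F ∩ {m | (B0 : ℤ) < m}) := by
    refine ⟨C1 + C2, by positivity, fun Y M hY U hU hp hUS => ?_⟩
    obtain ⟨Q, hQ⟩ : ∃ Q : ℤ → Prop, ∀ m, Q m ↔ ∃ n : ℕ, (N : ℤ) * n = F.eval m ∧ IsSquare n := ⟨_, fun _ => Iff.rfl⟩
    have hX : ∀ m ∈ U, ∀ l : ℕ, l.Prime → l ^ 2 ≤ Y → ¬ (l : ℤ) ∣ (X : ℤ[X]).eval m := by
      intro m hm l hl hlY hd'
      rw [eval_X] at hd'
      obtain ⟨l', hl', rfl, hY'⟩ := hp m hm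
      have h3 : l ∣ l' := by exact_mod_cast hd'
      rw [Nat.prime_dvd_prime_iff_eq hl hl'] at h3
      rw [h3] at hlY
      omega
    have b1 := H1 Y M hY (U.filter fun m => ¬ Q m) (fun m hm => hU m (mem_filter.1 hm).1)
      (fun _ m hm => hX m (mem_filter.1 hm).1) (by
      intro m hm p q hpp hqp hBp hBq hpd hqd
      rw [mem_filter] at hm
      obtain ⟨⟨n, hn, hn2, hbad⟩, _⟩ := hUS m hm.1
      have hns : ¬ IsSquare n := fun h => hm.2 ((hQ m).2 ⟨n, hn, h⟩)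
      have hM := mg_of_bad hn2 hns hbad
      have hpn : p ∣ n := by
        have h3 := hfd p m hpd
        rw [← hn] at h3
        rcases (Nat.prime_iff_prime_int.1 hpp).dvd_or_dvd h3 with h4 | h4
        · exact absurd h4 (hNl p hpp hBp)
        · exact_mod_cast h4
      have hqn : q ∣ n ^ 2 + n + 1 := by
        have h3 := hgd' q m hqd
        rw [← hn] at h3
        have h4 : ((N : ℤ) * n) ^ 2 + (N * (N * n) + N ^ 2) = N ^ 2 * ((n ^ 2 + n + 1 : ℕ) : ℤ) := by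
          push_cast
          ring
        rw [h4] at h3
        rcases (Nat.prime_iff_prime_int.1 hqp).dvd_or_dvd h3 with h5 | h5
        · exact absurd ((Nat.prime_iff_prime_int.1 hqp).dvd_of_dvd_pow h5) (hNl q hqp hBq)
        · exact_mod_cast h5
      exact Pool.Agent.H37.PW.planar_test n p q hn2 hM hns hpp hpn hqp hqn)
    have b2 := H2 Y M hY (U.filter fun m => Q m) (fun m hm => hU m (mem_filter.1 hm).1)
      (fun _ m hm => hX m (mem_filter.1 hm).1) (by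
      intro m hm p hpp hBp hpd
      by_contra hcon
      rw [mem_filter] at hm
      obtain ⟨⟨n, hn, hn2, hbad⟩, hmB⟩ := hUS m hm.1
      have hmB' : (B0 : ℤ) < m := hmB
      obtain ⟨n', hn', hsq⟩ := (hQ m).1 hm.2
      have he : n' = n := by
        have : (N : ℤ) * n' = N * n := by rw [hn', hn]
        have := mul_left_cancel₀ hN0 this
        exact_mod_cast this
      rw [he] at hsq
      obtain ⟨l, hl, rfl, _⟩ := hp m hm.1
      exact H p l hpp (by omega) hl (by omega) n hn hn2 hpd hcon hsq)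
    have h3 : (U.card : ℝ) = ((U.filter fun m => Q m).card : ℝ) + ((U.filter fun m => ¬ Q m).card : ℝ) := by
      exact_mod_cast (card_filter_add_card_filter_not (s := U) Q).symm
    rw [h3, add_mul]
    have b1' : ((U.filter fun m => ¬ Q m).card : ℝ) ≤ C1 * rs2 Y := b1
    have b2' : ((U.filter fun m => Q m).card : ℝ) ≤ C2 * rs2 Y := b2
    linarith
  refine (hmain.union (RP_le B0)).mono fun m hm => ?_
  rcases le_or_gt m (B0 : ℤ) with h3 | h3
  · exact Or.inr h3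
  · exact Or.inl ⟨hm, h3⟩

/-- an irreducible factor prime to `X` -/
def NM (F : ℤ[X]) : Prop := ∃ h : ℤ[X], Irreducible h ∧ 1 ≤ h.natDegree ∧ h.eval 0 ≠ 0 ∧ h ∣ F

theorem not_dvd_X {h : ℤ[X]} (hd : 1 ≤ h.natDegree) (hh0 : h.eval 0 ≠ 0) : ¬ h ∣ X := by
  rintro ⟨u, hu⟩
  have hX : (X : ℤ[X]) ≠ 0 := X_ne_zero
  have h0 : h ≠ 0 := by
    rintro rfl
    rw [zero_mul] at hu
    exact hX hu
  have hu0 : u ≠ 0 := by
    rintro rfl
    rw [mul_zero] at hu
    exact hX hu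
  have h1 : 1 = h.natDegree + u.natDegree := by
    rw [← natDegree_mul h0 hu0, ← hu, natDegree_X]
  have h2 : u.natDegree = 0 := by omega
  obtain ⟨c, hc⟩ := natDegree_eq_zero.1 h2
  have h3 := congrArg (eval 0) hu
  rw [eval_X, eval_mul, ← hc, eval_C] at h3
  rcases mul_eq_zero.1 h3.symm with h4 | h4
  · exact hh0 h4
  · apply hu0
    rw [← hc, h4, C_0]

theorem not_dvd_C {h : ℤ[X]} (hd : 1 ≤ h.natDegree) {c : ℤ} (hc : c ≠ 0) : ¬ h ∣ C c := by
  intro h1
  have h2 := natDegree_le_of_dvd h1 (by rwa [Ne, C_eq_zero])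
  rw [natDegree_C] at h2
  omega

theorem dvd_g {h g : ℤ[X]} (hi : Irreducible h) (hd : 1 ≤ h.natDegree) (hh0 : h.eval 0 ≠ 0) {c : ℤ} (hc : c ≠ 0) {e j : ℕ}
    (hdv : h ∣ X ^ e * (C c * g ^ j)) : h ∣ g := by
  have hp : Prime h := hi.prime
  rcases hp.dvd_or_dvd hdv with h1 | h1
  · exact absurd (hp.dvd_of_dvd_pow h1) (not_dvd_X hd hh0)
  rcases hp.dvd_or_dvd h1 with h1 | h1
  · exact absurd h1 (not_dvd_C hd hc)
  · exact hp.dvd_of_dvd_pow h1

theorem padic_sq {p n : ℕ} [hpf : Fact p.Prime] (hn : n ≠ 0) (hs : IsSquare n) : Even (padicValNat p n) := by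
  obtain ⟨t, ht⟩ := hs
  have ht0 : t ≠ 0 := by
    rintro rfl
    exact hn (by simpa using ht)
  rw [ht, padicValNat.mul ht0 ht0]
  exact ⟨_, rfl⟩

theorem padic_N {p N n : ℕ} [hpf : Fact p.Prime] (hN : ¬ p ∣ N) (hN0 : N ≠ 0) (hn : n ≠ 0) :
    padicValInt p ((N : ℤ) * n) = padicValNat p n := by
  rw [padicValInt.mul (by exact_mod_cast hN0) (by exact_mod_cast hn), padicValInt.of_nat, padicValInt.of_nat,
    padicValNat.eq_zero_of_not_dvd hN, zero_add]

theorem padic_pow {p : ℕ} [hpf : Fact p.Prime] {z : ℤ} (hz : z ≠ 0) (j : ℕ) :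
    padicValInt p (z ^ j) = j * padicValInt p z := by
  induction j with
  | zero => simp
  | succ j ih => rw [pow_succ, padicValInt.mul (pow_ne_zero _ hz) hz, ih]; ring

/-- an irreducible factor of odd multiplicity -/
theorem case_oddp (N : ℕ) (hN : 1 ≤ N) (F h k : ℤ[X]) (e : ℕ) (hF : 1 ≤ F.natDegree) (hi : Irreducible h)
    (hd : 1 ≤ h.natDegree) (hh0 : h.eval 0 ≠ 0) (he : Odd e) (hfe : F = h ^ e * k) (hk : ¬ h ∣ k) : RP (SBp N F) := by
  obtain ⟨B, hB⟩ := coprime_part h k hi hd hk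
  have he0 : e ≠ 0 := by
    rintro rfl
    exact (Nat.not_odd_zero) he
  refine keyp N hN F h hF hi hd hh0 (B + N) (by rw [hfe]; exact (dvd_pow_self h he0).mul_right k)
    fun p l hp hBp _ _ n hn hn2 h1 h2 => ?_
  have h3 := hB p hp (by omega) _ h1
  have hfm : (N : ℤ) * n = h.eval (l : ℤ) ^ e * k.eval (l : ℤ) := by rw [hn, hfe]; simp
  intro hsq
  have hpf : Fact p.Prime := ⟨hp⟩
  have hn0 : n ≠ 0 := by omega
  have hpN : ¬ p ∣ N := fun h4 => by
    have := Nat.le_of_dvd (by omega) h4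
    omega
  have hNn : (N : ℤ) * n ≠ 0 := mul_ne_zero (by exact_mod_cast (by omega : N ≠ 0)) (by exact_mod_cast hn0)
  have hh0' : h.eval (l : ℤ) ≠ 0 := by
    intro h5
    rw [hfm, h5, zero_pow he0, zero_mul] at hNn
    exact hNn rfl
  have hk0 : k.eval (l : ℤ) ≠ 0 := by
    intro h5
    rw [hfm, h5, mul_zero] at hNn
    exact hNn rfl
  have hv1 : padicValInt p (h.eval (l : ℤ)) = 1 := by
    have h5 : 1 ≤ padicValInt p (h.eval (l : ℤ)) := by
      rw [← Nat.not_lt, Nat.lt_one_iff]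
      intro h6
      rcases padicValInt.eq_zero_iff.1 h6 with h7 | h7 | h7
      · exact hp.one_lt.ne' h7
      · exact hh0' h7
      · exact h7 h1
    have h6 : ¬ 2 ≤ padicValInt p (h.eval (l : ℤ)) := by
      intro h7
      apply h2
      have h8 := (padicValInt_dvd_iff 2 (h.eval (l : ℤ))).2 (Or.inr h7)
      exact_mod_cast h8
    omega
  have hv2 : padicValInt p (k.eval (l : ℤ)) = 0 := padicValInt.eq_zero_of_not_dvd h3
  have hv3 : padicValNat p n = e := by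
    rw [← padic_N hpN (by omega) hn0, hfm, padicValInt.mul (pow_ne_zero _ hh0') hk0, hv2, padic_pow hh0', hv1]
    ring
  have hv4 := padic_sq (p := p) hn0 hsq
  rw [hv3] at hv4
  exact (Nat.not_even_iff_odd.2 he) hv4

/-- odd exponent of `X` -/
theorem case_Xodd (N : ℕ) (hN : 1 ≤ N) (F h g : ℤ[X]) (c : ℤ) (hc : c ≠ 0) (e : ℕ) (hF : 1 ≤ F.natDegree)
    (hi : Irreducible h) (hd : 1 ≤ h.natDegree) (hh0 : h.eval 0 ≠ 0) (hhF : h ∣ F) (he : Odd e)
    (hfe : F = X ^ e * (C c * g ^ 2)) : RP (SBp N F) := by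
  refine keyp N hN F h hF hi hd hh0 (N + c.natAbs) hhF fun p l _ _ hl hBl n hn hn2 _ _ => ?_
  have hfm : (N : ℤ) * n = (l : ℤ) ^ e * (c * g.eval (l : ℤ) ^ 2) := by rw [hn, hfe]; simp
  intro hsq
  have hpf : Fact l.Prime := ⟨hl⟩
  have hn0 : n ≠ 0 := by omega
  have hpN : ¬ l ∣ N := fun h4 => by
    have := Nat.le_of_dvd (by omega) h4
    omega
  have hpc : ¬ (l : ℤ) ∣ c := fun h4 => by
    have h5 := Nat.le_of_dvd (Int.natAbs_pos.2 hc) (Int.natCast_dvd.1 h4)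
    omega
  have hNn : (N : ℤ) * n ≠ 0 := mul_ne_zero (by exact_mod_cast (by omega : N ≠ 0)) (by exact_mod_cast hn0)
  have hl0 : (l : ℤ) ≠ 0 := by exact_mod_cast hl.ne_zero
  have hg0 : g.eval (l : ℤ) ≠ 0 := by
    intro h5
    rw [hfm, h5] at hNn
    exact hNn (by ring)
  have hv3 : padicValNat l n = e + 2 * padicValInt l (g.eval (l : ℤ)) := by
    rw [← padic_N hpN (by omega) hn0, hfm, padicValInt.mul (pow_ne_zero _ hl0) (mul_ne_zero hc (pow_ne_zero _ hg0)),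
      padicValInt.mul hc (pow_ne_zero _ hg0), padic_pow hl0, padic_pow hg0, padicValInt.eq_zero_of_not_dvd hpc,
      padicValInt.of_nat, padicValNat_self]
    ring
  have hv4 := padic_sq (p := l) hn0 hsq
  rw [hv3, Nat.even_add] at hv4
  have h5 : Even (2 * padicValInt l (g.eval (l : ℤ))) := even_two_mul _
  exact (Nat.not_even_iff_odd.2 he) (hv4.2 h5)

/-- a constant times a square, where the constant times `N` is no square -/
theorem case_constp (N : ℕ) (hN : 1 ≤ N) (F h w : ℤ[X]) (c : ℤ) (hF : 1 ≤ F.natDegree)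
    (hi : Irreducible h) (hd : 1 ≤ h.natDegree) (hh0 : h.eval 0 ≠ 0) (hhF : h ∣ F)
    (hfe : F = C c * w ^ 2) (hc : ¬ IsSquare (c * N)) : RP (SBp N F) := by
  refine keyp N hN F h hF hi hd hh0 0 hhF fun p l _ _ _ _ n hn hn2 _ _ => ?_
  have hfm : (N : ℤ) * n = c * w.eval (l : ℤ) ^ 2 := by rw [hn, hfe]; simp
  rintro ⟨t, ht⟩
  apply hc
  have hn0 : n ≠ 0 := by omega
  have hNn : (N : ℤ) * n ≠ 0 := mul_ne_zero (by exact_mod_cast (by omega : N ≠ 0)) (by exact_mod_cast hn0)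
  have hw0 : w.eval (l : ℤ) ≠ 0 := by
    intro h5
    rw [hfm, h5] at hNn
    exact hNn (by ring)
  have h5 : c * N * w.eval (l : ℤ) ^ 2 = ((N : ℤ) * t) ^ 2 := by
    have h6 : (n : ℤ) = t * t := by exact_mod_cast ht
    rw [h6] at hfm
    linear_combination (-(N : ℤ)) * hfm
  have h6 : w.eval (l : ℤ) ^ 2 ∣ ((N : ℤ) * t) ^ 2 := ⟨c * N, by rw [← h5]; ring⟩
  obtain ⟨s, hs⟩ := (Int.pow_dvd_pow_iff two_ne_zero).1 h6
  refine ⟨s, ?_⟩
  have h7 : w.eval (l : ℤ) ^ 2 * (c * N) = w.eval (l : ℤ) ^ 2 * (s * s) := by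
    rw [hs] at h5
    linear_combination h5
  exact mul_left_cancel₀ (pow_ne_zero 2 hw0) h7

theorem sbp_zero (N : ℕ) (hN : 1 ≤ N) : ∀ d : ℕ, ∀ F : ℤ[X], F.natDegree = d → F ≠ 0 → NM F → RP (SBp N F) := by
  intro d
  induction d using Nat.strong_induction_on with
  | _ d ih =>
    rintro F hFd hF0 ⟨h', hi', hd', hh0', hhF'⟩
    have hF1 : 1 ≤ F.natDegree := hd'.trans (natDegree_le_of_dvd hhF' hF0)
    obtain ⟨e, G, hG, hFG⟩ := WfDvdMonoid.max_power_factor hF0 (irreducible_X (R := ℤ))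
    have hG0 : G ≠ 0 := by
      rintro rfl
      rw [mul_zero] at hFG
      exact hF0 hFG
    have hGe : G.eval 0 ≠ 0 := by
      intro h1
      apply hG
      rw [X_dvd_iff, coeff_zero_eq_eval_zero]
      exact h1
    rcases odd_or_square G hG0 with ⟨h, k, j, hi, hd, hj, hGe', hk⟩ | ⟨c, g, hGc⟩
    · have hj0 : j ≠ 0 := by
        rintro rfl
        exact (Nat.not_odd_zero) hj
      have hh0 : h.eval 0 ≠ 0 := by
        intro h1
        apply hGe
        rw [hGe', eval_mul, eval_pow, h1, zero_pow hj0, zero_mul]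
      refine case_oddp N hN F h (X ^ e * k) j hF1 hi hd hh0 hj (by rw [hFG, hGe']; ring) ?_
      intro h1
      have hp : Prime h := hi.prime
      rcases hp.dvd_or_dvd h1 with h2 | h2
      · exact not_dvd_X hd hh0 (hp.dvd_of_dvd_pow h2)
      · exact hk h2
    · have hc0 : c ≠ 0 := by
        rintro rfl
        rw [C_0, zero_mul] at hGc
        exact hG0 hGc
      have hg0 : g ≠ 0 := by
        rintro rfl
        rw [zero_pow two_ne_zero, mul_zero] at hGc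
        exact hG0 hGc
      have hFc : F = X ^ e * (C c * g ^ 2) := by rw [hFG, hGc]
      rcases Nat.even_or_odd e with he | he
      · obtain ⟨e', he'⟩ := he
        have hFw : F = C c * (X ^ e' * g) ^ 2 := by
          rw [hFc, he']
          ring
        by_cases hc : IsSquare (c * N)
        · obtain ⟨b, hb⟩ := hc
          have hN0 : (N : ℤ) ≠ 0 := by exact_mod_cast (by omega : N ≠ 0)
          have hb0 : b ≠ 0 := by
            rintro rfl
            rw [mul_zero] at hb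
            exact (mul_ne_zero hc0 hN0) hb
          have hw0 : X ^ e' * g ≠ 0 := mul_ne_zero (pow_ne_zero _ X_ne_zero) hg0
          obtain ⟨W, hW⟩ : ∃ W : ℤ[X], W = C b * (X ^ e' * g) := ⟨_, rfl⟩
          have hW0 : W ≠ 0 := by
            rw [hW]
            exact mul_ne_zero (by rwa [Ne, C_eq_zero]) hw0
          have hdW : W.natDegree = (X ^ e' * g).natDegree := by rw [hW, natDegree_C_mul hb0]
          have hdF : F.natDegree = 2 * W.natDegree := by
            rw [hFw, natDegree_C_mul hc0, natDegree_pow, hdW]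
          have hhg : h' ∣ g := dvd_g hi' hd' hh0' hc0 (by rw [← hFc]; exact hhF')
          have hNW : NM W := ⟨h', hi', hd', hh0', by rw [hW]; exact (hhg.mul_left _).mul_left _⟩
          have hNW' : NM (-W) := ⟨h', hi', hd', hh0', by
            rw [dvd_neg, hW]
            exact (hhg.mul_left _).mul_left _⟩
          have hz1 := ih W.natDegree (by omega) W rfl hW0 hNW
          have hz2 := ih W.natDegree (by omega) (-W) (natDegree_neg _) (neg_ne_zero.2 hW0) hNW'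
          refine (hz1.union hz2).mono ?_
          rintro m ⟨n, hn, hn2, hbad⟩
          have hWm : W.eval m = b * (X ^ e' * g).eval m := by rw [hW, eval_mul, eval_C]
          have hFm : (N : ℤ) * n = c * (X ^ e' * g).eval m ^ 2 := by
            rw [hn, hFw, eval_mul, eval_C, eval_pow]
          have h1 : (N : ℤ) ^ 2 * n = W.eval m ^ 2 := by
            rw [hWm]
            linear_combination (N : ℤ) * hFm + (X ^ e' * g).eval m ^ 2 * hb
          have h2 : (N : ℤ) ∣ W.eval m := by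
            have : (N : ℤ) ^ 2 ∣ W.eval m ^ 2 := ⟨n, h1.symm⟩
            exact (Int.pow_dvd_pow_iff two_ne_zero).1 this
          obtain ⟨z, hz⟩ := h2
          obtain ⟨s, hs⟩ : ∃ s : ℕ, s = z.natAbs := ⟨_, rfl⟩
          have h3 : n = s ^ 2 := by
            have h4 : (N : ℤ) ^ 2 * n = N ^ 2 * z ^ 2 := by
              rw [h1, hz]
              ring
            have h5 : (n : ℤ) = z ^ 2 := mul_left_cancel₀ (pow_ne_zero 2 hN0) h4
            have h6 : (n : ℤ) = (s : ℤ) ^ 2 := by rw [h5, hs, Int.natCast_natAbs, sq_abs]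
            exact_mod_cast h6
          have hs2 : 2 ≤ s := by
            by_contra h4
            have h5 : s ≤ 1 := by omega
            have h6 : s ^ 2 ≤ 1 := by
              calc s ^ 2 ≤ 1 ^ 2 := Nat.pow_le_pow_left h5 2
                _ = 1 := one_pow 2
            omega
          have hbs : Bad s := bad_of_sq (by rwa [h3] at hbad)
          rcases le_or_gt 0 z with h4 | h4
          · left
            exact ⟨s, by rw [hz, hs, Int.natAbs_of_nonneg h4], hs2, hbs⟩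
          · right
            refine ⟨s, ?_, hs2, hbs⟩
            have h5 : (s : ℤ) = -z := by omega
            rw [eval_neg, hz, h5]
            ring
        · exact case_constp N hN F h' (X ^ e' * g) c hF1 hi' hd' hh0' hhF' hFw hc
      · exact case_Xodd N hN F h' g c hc0 e hF1 hi' hd' hh0' hhF' he hFc

/-- some power, exponent not divisible by `3 ^ A`, of `F(m)/N` is an order -/
def SIp (A N : ℕ) (F : ℤ[X]) : Set ℤ := {m | ∃ k n : ℕ, ¬ 3 ^ A ∣ k ∧ (N : ℤ) ^ k * n = F.eval m ^ k ∧ IsOrder n}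

theorem sap_zero (N : ℕ) (hN : 1 ≤ N) (F : ℤ[X]) (hF0 : F ≠ 0) (hNM : NM F) : RP (SIp 1 N F) := by
  obtain ⟨h, hi, hd, hh0, hhF⟩ := hNM
  have hF1 : 1 ≤ F.natDegree := hd.trans (natDegree_le_of_dvd hhF hF0)
  have hN0 : (N : ℤ) ≠ 0 := by exact_mod_cast (by omega : N ≠ 0)
  have hfin : {m : ℤ | (F * (F + C (-(N : ℤ))) * (F + C (N : ℤ))).eval m = 0}.Finite := by
    have h0 : F * (F + C (-(N : ℤ))) * (F + C (N : ℤ)) ≠ 0 := by
      have h1 : ∀ a : ℤ, F + C a ≠ 0 := by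
        intro a h
        have h2 : F = C (-a) := by
          rw [C_neg]
          exact eq_neg_of_add_eq_zero_left h
        rw [h2, natDegree_C] at hF1
        omega
      exact mul_ne_zero (mul_ne_zero hF0 (h1 _)) (h1 _)
    have h2 := (F * (F + C (-(N : ℤ))) * (F + C (N : ℤ))).roots.toFinset.finite_toSet
    refine h2.subset ?_
    intro m hm
    rw [mem_coe, Multiset.mem_toFinset, mem_roots h0]
    exact hm
  have z1 := sbp_zero N hN F.natDegree F rfl hF0 ⟨h, hi, hd, hh0, hhF⟩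
  have z2 := sbp_zero N hN F.natDegree (-F) (natDegree_neg _) (neg_ne_zero.2 hF0) ⟨h, hi, hd, hh0, (dvd_neg).2 hhF⟩
  refine ((z1.union z2).union (RP_finite hfin)).mono ?_
  rintro m ⟨k, n, h3, hn, hO⟩
  rw [pow_one] at h3
  have hk0 : k ≠ 0 := by
    rintro rfl
    exact h3 (dvd_zero 3)
  obtain ⟨z, hz⟩ := (Int.pow_dvd_pow_iff hk0).1 (Dvd.intro _ hn)
  have hnz : (n : ℤ) = z ^ k := by
    rw [hz, mul_pow] at hn
    exact mul_left_cancel₀ (pow_ne_zero k hN0) hn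
  obtain ⟨s, hs⟩ : ∃ s : ℕ, s = z.natAbs := ⟨_, rfl⟩
  by_cases h1 : s ≤ 1
  · right
    show (F * (F + C (-(N : ℤ))) * (F + C (N : ℤ))).eval m = 0
    rw [eval_mul, eval_mul, eval_add, eval_add, eval_C, eval_C, hz]
    have h2 : z = 0 ∨ z = 1 ∨ z = -1 := by omega
    rcases h2 with h | h | h <;> rw [h] <;> ring
  · left
    have hn' : n = s ^ k := by
      have h4 := congrArg Int.natAbs hnz
      rw [Int.natAbs_natCast, Int.natAbs_pow, ← hs] at h4
      exact h4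
    have hbs : Bad s := ⟨k, h3, by rwa [← hn']⟩
    rcases le_or_gt 0 z with h5 | h5
    · left
      exact ⟨s, by rw [hz, hs, Int.natAbs_of_nonneg h5], by omega, hbs⟩
    · right
      refine ⟨s, ?_, by omega, hbs⟩
      have h6 : (s : ℤ) = -z := by omega
      rw [eval_neg, hz, h6]
      ring

theorem sip_zero (A : ℕ) : ∀ (N : ℕ) (F : ℤ[X]), 1 ≤ N → F ≠ 0 → NM F → RP (SIp A N F) := by
  induction A with
  | zero =>
    intro N F _ _ _
    refine (RP_finite (Set.finite_empty)).mono ?_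
    rintro m ⟨k, n, h, -, -⟩
    exact absurd (by simp) h
  | succ A ih =>
    intro N F hN hF0 hNM
    have hNM3 : NM (F ^ 3) := by
      obtain ⟨h, hi, hd, hh0, hhF⟩ := hNM
      exact ⟨h, hi, hd, hh0, hhF.trans (dvd_pow_self F three_ne_zero)⟩
    have h1 := ih (N ^ 3) (F ^ 3) (Nat.one_le_pow _ _ hN) (pow_ne_zero 3 hF0) hNM3
    refine ((sap_zero N hN F hF0 hNM).union h1).mono ?_
    rintro m ⟨k, n, h, hn, hO⟩
    by_cases h3 : 3 ∣ k
    · right
      obtain ⟨j, rfl⟩ := h3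
      refine ⟨j, n, ?_, ?_, hO⟩
      · rintro ⟨i, hi⟩
        exact h ⟨i, by rw [hi]; ring⟩
      · rw [eval_pow, ← pow_mul, ← hn]
        push_cast
        rw [← pow_mul]
    · left
      exact ⟨k, n, by rwa [pow_one], hn, hO⟩

theorem nm_of_not_monomial {F : ℤ[X]} (hF0 : F ≠ 0) (hF : ¬ ∃ (c : ℤ) (e : ℕ), F = C c * X ^ e) : NM F := by
  obtain ⟨e, G, hG, hFG⟩ := WfDvdMonoid.max_power_factor hF0 (irreducible_X (R := ℤ))
  have hGe : G.eval 0 ≠ 0 := by
    intro h1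
    apply hG
    rw [X_dvd_iff, coeff_zero_eq_eval_zero]
    exact h1
  have hGd : 1 ≤ G.natDegree := by
    by_contra hlt
    obtain ⟨c, hc⟩ := natDegree_eq_zero.1 (by omega : G.natDegree = 0)
    exact hF ⟨c, e, by rw [hFG, ← hc, mul_comm]⟩
  obtain ⟨h, hi, hd, k, hk⟩ := exists_irr G hGd
  refine ⟨h, hi, hd, ?_, ?_⟩
  · intro h1
    apply hGe
    rw [hk, eval_mul, h1, zero_mul]
  · rw [hFG, hk]
    exact (Dvd.intro k rfl).mul_left _

open Classical in
theorem main_primes3 (f : ℚ[X]) (hf : ¬ ∃ (c : ℚ) (e : ℕ), f = C c * X ^ e) (A : ℕ) :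
    ∃ C : ℝ, 0 < C ∧ ∀ Y M : ℕ, 3 ≤ Y → (((Finset.Ioc M (M + Y)).filter fun l : ℕ => l.Prime ∧
      ∃ k n : ℕ, ¬ 3 ^ A ∣ k ∧ (n : ℚ) = f.eval (l : ℚ) ^ k ∧ IsOrder n).card : ℝ) ≤ C * rs2 Y := by
  obtain ⟨N, F, hN, hF⟩ := exists_den f
  have hNq : (N : ℚ) ≠ 0 := by exact_mod_cast hN.ne'
  have hf0 : f ≠ 0 := by
    rintro rfl
    exact hf ⟨0, 0, by simp⟩
  have hF0 : F ≠ 0 := by
    rintro rfl
    rw [Polynomial.map_zero] at hF
    exact (mul_ne_zero (by rwa [Ne, C_eq_zero]) hf0) hF.symm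
  have hNM : NM F := by
    refine nm_of_not_monomial hF0 ?_
    rintro ⟨c, e, hc⟩
    apply hf
    refine ⟨(c : ℚ) / N, e, ?_⟩
    have h1 : (C (N : ℚ) : ℚ[X]) ≠ 0 := by rwa [Ne, C_eq_zero]
    apply mul_left_cancel₀ h1
    rw [← hF, hc, Polynomial.map_mul, map_C, Polynomial.map_pow, map_X, ← mul_assoc, ← C_mul, eq_intCast]
    congr 2
    field_simp
  obtain ⟨C, hC, H⟩ := sip_zero A N F hN hF0 hNM
  obtain ⟨c, hc, hr⟩ := rs2_sqrt
  refine ⟨C + c, by positivity, fun Y M hY => ?_⟩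
  obtain ⟨P, hP⟩ : ∃ P : Finset ℕ, P = ((Finset.Ioc M (M + Y)).filter fun l : ℕ => l.Prime ∧
      ∃ k n : ℕ, ¬ 3 ^ A ∣ k ∧ (n : ℚ) = f.eval (l : ℚ) ^ k ∧ IsOrder n) := ⟨_, rfl⟩
  rw [← hP]
  have hPm : ∀ l ∈ P, (M < l ∧ l ≤ M + Y) ∧ l.Prime ∧
      ∃ k n : ℕ, ¬ 3 ^ A ∣ k ∧ (n : ℚ) = f.eval (l : ℚ) ^ k ∧ IsOrder n := by
    intro l hl
    rw [hP, mem_filter, Finset.mem_Ioc] at hl
    exact hl
  have hsplit : (P.card : ℝ) = ((P.filter fun l => Y < l ^ 2).card : ℝ) + ((P.filter fun l => ¬ Y < l ^ 2).card : ℝ) := by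
    exact_mod_cast (card_filter_add_card_filter_not (s := P) (fun l => Y < l ^ 2)).symm
  have b1 : ((P.filter fun l => Y < l ^ 2).card : ℝ) ≤ C * rs2 Y := by
    have hinj : Function.Injective (fun l : ℕ => (l : ℤ)) := Nat.cast_injective
    have h1 := H Y M hY ((P.filter fun l => Y < l ^ 2).image fun l : ℕ => (l : ℤ)) (by
      intro m hm
      obtain ⟨l, hl, rfl⟩ := mem_image.1 hm
      have h2 := (hPm l (mem_filter.1 hl).1).1
      omega) (by
      intro m hm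
      obtain ⟨l, hl, rfl⟩ := mem_image.1 hm
      exact ⟨l, (hPm l (mem_filter.1 hl).1).2.1, rfl, (mem_filter.1 hl).2⟩) (by
      intro m hm
      obtain ⟨l, hl, rfl⟩ := mem_image.1 hm
      obtain ⟨k, n, h3, hn, hO⟩ := (hPm l (mem_filter.1 hl).1).2.2
      refine ⟨k, n, h3, ?_, hO⟩
      have h4 : ((F.eval (l : ℤ) : ℤ) : ℚ) = N * f.eval (l : ℚ) := by
        have h5 := eval_intCast_map (Int.castRingHom ℚ) F (l : ℤ)
        rw [eq_intCast, hF, eval_mul, eval_C, Int.cast_id, Int.cast_natCast] at h5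
        exact h5.symm
      have h6 : (((N : ℤ) ^ k * n : ℤ) : ℚ) = ((F.eval (l : ℤ) ^ k : ℤ) : ℚ) := by
        push_cast
        rw [h4, hn, mul_pow]
      exact_mod_cast h6)
    rwa [card_image_of_injective _ hinj] at h1
  have b2 : ((P.filter fun l => ¬ Y < l ^ 2).card : ℝ) ≤ c * rs2 Y := by
    have h1 : (P.filter fun l => ¬ Y < l ^ 2) ⊆ Finset.Icc 1 (Nat.sqrt Y) := by
      intro l hl
      rw [mem_filter] at hl
      rw [Finset.mem_Icc, Nat.le_sqrt]
      refine ⟨(hPm l hl.1).2.1.one_lt.le, ?_⟩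
      have := hl.2
      rw [not_lt, sq] at this
      exact this
    have h2 := card_le_card h1
    rw [Nat.card_Icc] at h2
    have h3 : ((P.filter fun l => ¬ Y < l ^ 2).card : ℝ) ≤ (Nat.sqrt Y : ℝ) := by exact_mod_cast h2
    refine h3.trans (le_trans ?_ (hr Y hY))
    exact Real.nat_sqrt_le_real_sqrt
  rw [hsplit, add_mul]
  linarith

open Classical in
theorem main_primes (f : ℚ[X]) (hf : ¬ ∃ (c : ℚ) (e : ℕ), f = C c * X ^ e) (A : ℕ) :
    ∃ C : ℝ, 0 < C ∧ ∀ Y M : ℕ, 2 ≤ Y → (((Finset.Ioc M (M + Y)).filter fun l : ℕ => l.Prime ∧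
      ∃ k n : ℕ, ¬ 3 ^ A ∣ k ∧ (n : ℚ) = f.eval (l : ℚ) ^ k ∧ IsOrder n).card : ℝ) ≤
        C * (Y / Real.log Y ^ 2) := by
  obtain ⟨C, hC, H⟩ := main_primes3 f hf A
  refine ⟨C + 1, by positivity, fun Y M hY => ?_⟩
  have h2 : 0 < Real.log Y := Real.log_pos (by exact_mod_cast (by omega : 1 < Y))
  have h3 : (0 : ℝ) < Y := by exact_mod_cast (by omega : 0 < Y)
  have h4 : 0 < (Y : ℝ) / Real.log Y ^ 2 := by positivity
  rcases Nat.lt_or_ge 2 Y with hY3 | hY2
  · have h1 := H Y M hY3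
    refine h1.trans ?_
    unfold rs2
    rw [ex_true, add_mul]
    linarith
  · have hY' : Y = 2 := by omega
    have h1 : ((Finset.Ioc M (M + Y)).filter fun l : ℕ => l.Prime ∧
      ∃ k n : ℕ, ¬ 3 ^ A ∣ k ∧ (n : ℚ) = f.eval (l : ℚ) ^ k ∧ IsOrder n).card ≤ Y := by
      refine (card_filter_le _ _).trans ?_
      rw [Nat.card_Ioc]
      omega
    have h5 : (((Finset.Ioc M (M + Y)).filter fun l : ℕ => l.Prime ∧
      ∃ k n : ℕ, ¬ 3 ^ A ∣ k ∧ (n : ℚ) = f.eval (l : ℚ) ^ k ∧ IsOrder n).card : ℝ) ≤ Y := by exact_mod_cast h1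
    have h6 : (Y : ℝ) ≤ Y / Real.log Y ^ 2 := by
      rw [le_div_iff₀ (by positivity)]
      have h7 : Real.log Y ≤ 1 := by
        rw [hY']
        have := Real.log_two_lt_d9
        push_cast
        linarith
      have h8 : Real.log Y ^ 2 ≤ 1 := pow_le_one₀ h2.le h7
      nlinarith
    rw [add_mul]
    have h8 : 0 ≤ C * ((Y : ℝ) / Real.log Y ^ 2) := by positivity
    linarith

end Pool.Agent.H37.PS
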