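import Pool.Agent.H37.PS.Defs
import Pool.Agent.H3.LC.BT

/-!
PS Mom: second moment of the block sums over PRIMES (note 5545, (2)(A)).

Selberg weights `lam` (`Pool.Agent.H91.PT.selberg_weights 1 le_rfl`), `z = 2^k`, `k = ⌊i/8⌋`, `N = 2^k`.  A prime
`p ∈ [2^i, 2^(i+1))` has `(∑ r ∈ Icc 1 N, if r ∣ p then lam r else 0)^2 = 1`, so the left side is at most
`∑ n ∈ Icc 1 (2^(i+1)), (∑ r ..)^2 * (sj χ w j n)^2`.  Expand both squares.  Terms `l = l'`: `(χ l n)^2 ≤ 1`, `bt_expand`, `bt_sum` with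
`x = 0`; `∑_{l ≥ 2^(2^j)} 1/l² ≤ 2/2^(2^j)`.  Terms `l ≠ l'`: `lcm r s = e`, `n = e n'`, `hmul`:
`|∑_{n ≤ X, e ∣ n} χ l n χ l' n| = |χ l e χ l' e| |∑_{n' ≤ X/e} χ l n' χ l' n'| ≤ 4 l l'`, total `≤ N² · 4 D² · (2^k)²`.
-/

set_option autoImplicit false

namespace Pool.Agent.H37.PS

open Finset Pool.Agent.H37.PPC Pool.Agent.H37.PPD Pool.Agent.H37.PB

private noncomputable def mLam (lam : ℕ → ℝ) (N n : ℕ) : ℝ := ∑ r ∈ Icc 1 N, if r ∣ n then lam r else 0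

private theorem mLam_prime {lam : ℕ → ℝ} (h1 : lam 1 = 1) {N p : ℕ} (hN : 1 ≤ N) (hp : p.Prime) (hNp : N < p) :
    mLam lam N p = 1 := by
  unfold mLam
  rw [sum_eq_single 1]
  · simp [h1]
  · intro r hr hr1
    rw [mem_Icc] at hr
    rw [if_neg]
    intro hd
    rcases (Nat.dvd_prime hp).1 hd with h | h
    · exact hr1 h
    · omega
  · intro h
    exact absurd (mem_Icc.2 ⟨le_rfl, hN⟩) h

private theorem mLam_expand (lam g : ℕ → ℝ) (X N : ℕ) :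
    ∑ n ∈ Icc 1 X, mLam lam N n ^ 2 * g n =
      ∑ r ∈ Icc 1 N, ∑ s ∈ Icc 1 N, lam r * lam s * ∑ n ∈ (Icc 1 X).filter (fun n => Nat.lcm r s ∣ n), g n := by
  have h : ∀ n : ℕ, mLam lam N n ^ 2 * g n =
      ∑ r ∈ Icc 1 N, ∑ s ∈ Icc 1 N, lam r * lam s * (if Nat.lcm r s ∣ n then g n else 0) := by
    intro n
    unfold mLam
    rw [sq, sum_mul_sum, sum_mul]
    refine sum_congr rfl fun r _ => ?_
    rw [sum_mul]
    refine sum_congr rfl fun s _ => ?_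
    by_cases hr : r ∣ n
    · by_cases hs : s ∣ n
      · rw [if_pos hr, if_pos hs, if_pos (Nat.lcm_dvd hr hs)]
      · rw [if_pos hr, if_neg hs, if_neg fun h => hs ((Nat.dvd_lcm_right r s).trans h)]
        simp
    · rw [if_neg hr, if_neg fun h => hr ((Nat.dvd_lcm_left r s).trans h)]
      simp
  rw [sum_congr rfl fun n _ => h n, sum_comm]
  refine sum_congr rfl fun r _ => ?_
  rw [sum_comm]
  refine sum_congr rfl fun s _ => ?_
  rw [← mul_sum]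
  congr 1
  rw [sum_filter]

private theorem mom_inner (χ : ℕ → ℕ → ℝ) (h1 : ∀ l m, |χ l m| ≤ 1)
    (hmul : ∀ l a b, χ l (a * b) = χ l a * χ l b) {l l' : ℕ}
    (h2 : ∀ N : ℕ, |∑ m ∈ Icc 1 N, χ l m * χ l' m| ≤ 4 * l * l') (X : ℕ) {e : ℕ} (he : 1 ≤ e) :
    |∑ n ∈ (Icc 1 X).filter (fun n => e ∣ n), χ l n * χ l' n| ≤ 4 * l * l' := by
  have himg : (Icc 1 X).filter (fun n => e ∣ n) = (Icc 1 (X / e)).image (fun m => e * m) := by
    ext n
    simp only [mem_filter, mem_Icc, mem_image]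
    constructor
    · rintro ⟨⟨h3, h4⟩, m, rfl⟩
      refine ⟨m, ⟨?_, ?_⟩, rfl⟩
      · rcases Nat.eq_zero_or_pos m with h5 | h5
        · subst h5
          omega
        · exact h5
      · rw [Nat.le_div_iff_mul_le (by omega), mul_comm]
        exact h4
    · rintro ⟨m, ⟨h3, h4⟩, rfl⟩
      rw [Nat.le_div_iff_mul_le (by omega), mul_comm] at h4
      exact ⟨⟨Nat.mul_pos (by omega) (by omega), h4⟩, Nat.dvd_mul_right _ _⟩
  rw [himg, sum_image (fun a _ b _ h => Nat.eq_of_mul_eq_mul_left (by omega) h)]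
  have h3 : ∑ m ∈ Icc 1 (X / e), χ l (e * m) * χ l' (e * m) =
      (χ l e * χ l' e) * ∑ m ∈ Icc 1 (X / e), χ l m * χ l' m := by
    rw [mul_sum]
    refine sum_congr rfl fun m _ => ?_
    rw [hmul, hmul]
    ring
  rw [h3, abs_mul, abs_mul]
  have a1 : |χ l e| * |χ l' e| ≤ 1 := by
    calc |χ l e| * |χ l' e| ≤ 1 * 1 := mul_le_mul (h1 _ _) (h1 _ _) (abs_nonneg _) zero_le_one
      _ = 1 := one_mul 1
  calc |χ l e| * |χ l' e| * |∑ m ∈ Icc 1 (X / e), χ l m * χ l' m|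
      ≤ 1 * |∑ m ∈ Icc 1 (X / e), χ l m * χ l' m| := mul_le_mul_of_nonneg_right a1 (abs_nonneg _)
    _ = |∑ m ∈ Icc 1 (X / e), χ l m * χ l' m| := one_mul _
    _ ≤ _ := h2 _

private theorem mom_off (χ : ℕ → ℕ → ℝ) (h1 : ∀ l m, |χ l m| ≤ 1)
    (hmul : ∀ l a b, χ l (a * b) = χ l a * χ l b) {l l' : ℕ}
    (h2 : ∀ N : ℕ, |∑ m ∈ Icc 1 N, χ l m * χ l' m| ≤ 4 * l * l') (X N : ℕ) {lam : ℕ → ℝ}
    (hl : ∀ r, |lam r| ≤ 1) :
    ∑ n ∈ Icc 1 X, mLam lam N n ^ 2 * (χ l n * χ l' n) ≤ (N : ℝ) ^ 2 * (4 * l * l') := by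
  rw [mLam_expand]
  have h3 : ∀ r ∈ Icc 1 N, ∀ s ∈ Icc 1 N,
      lam r * lam s * ∑ n ∈ (Icc 1 X).filter (fun n => Nat.lcm r s ∣ n), χ l n * χ l' n ≤ 4 * l * l' := by
    intro r hr s hs
    rw [mem_Icc] at hr hs
    have h4 := mom_inner χ h1 hmul h2 X (e := Nat.lcm r s) (Nat.lcm_pos (by omega) (by omega))
    refine (le_abs_self _).trans ?_
    rw [abs_mul, abs_mul]
    have a1 : |lam r| * |lam s| ≤ 1 := by
      calc |lam r| * |lam s| ≤ 1 * 1 := mul_le_mul (hl _) (hl _) (abs_nonneg _) zero_le_one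
        _ = 1 := one_mul 1
    calc |lam r| * |lam s| * |∑ n ∈ (Icc 1 X).filter (fun n => Nat.lcm r s ∣ n), χ l n * χ l' n|
        ≤ 1 * |∑ n ∈ (Icc 1 X).filter (fun n => Nat.lcm r s ∣ n), χ l n * χ l' n| :=
          mul_le_mul_of_nonneg_right a1 (abs_nonneg _)
      _ = _ := one_mul _
      _ ≤ _ := h4
  calc _ ≤ ∑ r ∈ Icc 1 N, ∑ s ∈ Icc 1 N, (4 * (l : ℝ) * l') :=
        sum_le_sum fun r hr => sum_le_sum fun s hs => h3 r hr s hs
    _ = _ := by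
        simp only [sum_const, Nat.card_Icc, Nat.add_sub_cancel, nsmul_eq_mul]
        ring

private theorem mom_diag (χ : ℕ → ℕ → ℝ) (h1 : ∀ l m, |χ l m| ≤ 1) (l X N : ℕ) {lam : ℕ → ℝ}
    (hl : ∀ r, |lam r| ≤ 1) {Q : ℝ}
    (hQ : ∑ r ∈ Icc 1 N, ∑ s ∈ Icc 1 N, lam r * lam s / (Nat.lcm r s : ℝ) ≤ Q) :
    ∑ n ∈ Icc 1 X, mLam lam N n ^ 2 * (χ l n * χ l n) ≤ X * Q + (N : ℝ) ^ 2 := by
  have h2 : ∑ n ∈ Icc 1 X, mLam lam N n ^ 2 * (χ l n * χ l n) ≤ ∑ n ∈ Icc 1 X, mLam lam N n ^ 2 := by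
    refine sum_le_sum fun n _ => ?_
    have h3 : χ l n * χ l n ≤ 1 := by
      rw [← abs_mul_abs_self]
      calc |χ l n| * |χ l n| ≤ 1 * 1 := mul_le_mul (h1 _ _) (h1 _ _) (abs_nonneg _) zero_le_one
        _ = 1 := one_mul 1
    calc mLam lam N n ^ 2 * (χ l n * χ l n) ≤ mLam lam N n ^ 2 * 1 :=
          mul_le_mul_of_nonneg_left h3 (sq_nonneg _)
      _ = _ := mul_one _
  refine h2.trans ?_
  have h3 := Pool.Agent.H3.LC.bt_expand 0 X N lam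
  have h4 := Pool.Agent.H3.LC.bt_sum 0 X N lam hl
  rw [Nat.zero_add, Nat.zero_add] at h3 h4
  unfold mLam
  rw [h3]
  refine h4.trans ?_
  have := mul_le_mul_of_nonneg_left hQ (Nat.cast_nonneg X : (0 : ℝ) ≤ X)
  linarith

private theorem sum_inv_sq (a b : ℕ) (ha : 2 ≤ a) : ∑ l ∈ pr a b, 1 / (l : ℝ) ^ 2 ≤ 2 / (a : ℝ) := by
  have har : (2 : ℝ) ≤ a := by exact_mod_cast ha
  have h1 : ∀ n : ℕ, a ≤ n → ∑ l ∈ Ico a n, 1 / (l : ℝ) ^ 2 ≤ 1 / ((a : ℝ) - 1) - 1 / ((n : ℝ) - 1) := by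
    intro n hn
    induction n, hn using Nat.le_induction with
    | base => simp
    | succ n hn ih =>
      have hnr : (2 : ℝ) ≤ n := by
        have : (a : ℝ) ≤ n := by exact_mod_cast hn
        linarith
      rw [sum_Ico_succ_top hn]
      have h2 : 1 / (n : ℝ) ^ 2 ≤ 1 / ((n : ℝ) - 1) - 1 / (((n + 1 : ℕ) : ℝ) - 1) := by
        push_cast
        have e : (n : ℝ) + 1 - 1 = n := by ring
        rw [e, div_sub_div _ _ (by linarith) (by linarith), div_le_div_iff₀ (by positivity) (by nlinarith)]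
        nlinarith
      linarith
  rcases le_total b a with hab | hab
  · have : pr a b = ∅ := by
      unfold pr
      rw [Ico_eq_empty_of_le hab, filter_empty]
    rw [this, sum_empty]
    positivity
  · have h2 := h1 b hab
    have hbr : (a : ℝ) ≤ b := by exact_mod_cast hab
    have h3 : 0 ≤ 1 / ((b : ℝ) - 1) := div_nonneg zero_le_one (by linarith)
    have h4 : 1 / ((a : ℝ) - 1) ≤ 2 / a := by
      rw [div_le_div_iff₀ (by linarith) (by linarith)]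
      linarith
    have h5 : ∑ l ∈ pr a b, 1 / (l : ℝ) ^ 2 ≤ ∑ l ∈ Ico a b, 1 / (l : ℝ) ^ 2 :=
      sum_le_sum_of_subset_of_nonneg (filter_subset _ _) fun _ _ _ => by positivity
    linarith

theorem mom (χ : ℕ → ℕ → ℝ) (w : ℕ → ℝ) (D : ℕ) (hw0 : ∀ l, 0 ≤ w l) (hwD : ∀ l, w l ≤ D)
    (h1 : ∀ l m, |χ l m| ≤ 1) (hmul : ∀ l a b, χ l (a * b) = χ l a * χ l b)
    (h2 : ∀ l l' N : ℕ, l.Prime → l'.Prime → 2 < l → 2 < l' → l ≠ l' →
      |∑ m ∈ Icc 1 N, χ l m * χ l' m| ≤ 4 * l * l') :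
    ∃ C : ℝ, 0 < C ∧ ∀ i j : ℕ, 1 ≤ j → 8 * 2 ^ (j + 1) ≤ i →
      ∑ p ∈ pr (2 ^ i) (2 ^ (i + 1)), sj χ w j p ^ 2 ≤ C * 2 ^ i / (i * 2 ^ 2 ^ j) := by
  classical
  refine ⟨210 * (D : ℝ) ^ 2 + 1, by positivity, fun i j hj hij => ?_⟩
  obtain ⟨k, hk⟩ : ∃ k, k = i / 8 := ⟨_, rfl⟩
  have hkj : 2 ^ (j + 1) ≤ k := by
    rw [hk, Nat.le_div_iff_mul_le (by norm_num), mul_comm]
    exact hij
  have hk8 : 8 * k ≤ i := by omega
  have hk15 : i ≤ 15 * k := by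
    have : 1 ≤ 2 ^ (j + 1) := Nat.one_le_two_pow
    omega
  have hk1 : 1 ≤ k := le_trans Nat.one_le_two_pow hkj
  obtain ⟨N, hN⟩ : ∃ N : ℕ, N = 2 ^ k := ⟨_, rfl⟩
  have hN2 : 2 ≤ N := by
    rw [hN]
    calc 2 = 2 ^ 1 := rfl
      _ ≤ 2 ^ k := Nat.pow_le_pow_right (by norm_num) hk1
  have hz : (1 : ℝ) < (N : ℝ) := by exact_mod_cast (by omega : 1 < N)
  obtain ⟨lam, l1, l2, -, -, l5⟩ := Pool.Agent.H91.PT.selberg_weights 1 le_rfl hz
  rw [Nat.floor_natCast] at l5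
  obtain ⟨X, hX⟩ : ∃ X : ℕ, X = 2 ^ (i + 1) := ⟨_, rfl⟩
  obtain ⟨S, hS⟩ : ∃ S, S = pr (2 ^ 2 ^ j) (2 ^ 2 ^ (j + 1)) := ⟨_, rfl⟩
  have hSmem : ∀ l ∈ S, l.Prime ∧ 2 < l ∧ l < N := by
    intro l hl
    rw [hS] at hl
    unfold pr at hl
    rw [mem_filter, mem_Ico] at hl
    refine ⟨hl.2, ?_, ?_⟩
    · have h3 : 2 ^ 1 ≤ 2 ^ j := Nat.pow_le_pow_right (by norm_num) hj
      have h4 : 2 ^ 2 ≤ 2 ^ 2 ^ j := Nat.pow_le_pow_right (by norm_num) h3
      omega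
    · rw [hN]
      exact lt_of_lt_of_le hl.1.2 (Nat.pow_le_pow_right (by norm_num) hkj)
  -- step 1
  have hstep1 : ∑ p ∈ pr (2 ^ i) (2 ^ (i + 1)), sj χ w j p ^ 2 ≤
      ∑ n ∈ Icc 1 X, mLam lam N n ^ 2 * sj χ w j n ^ 2 := by
    have h3 : ∀ p ∈ pr (2 ^ i) (2 ^ (i + 1)), sj χ w j p ^ 2 = mLam lam N p ^ 2 * sj χ w j p ^ 2 := by
      intro p hp
      unfold pr at hp
      rw [mem_filter, mem_Ico] at hp
      have h4 : N < p := by
        refine lt_of_lt_of_le ?_ hp.1.1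
        rw [hN]
        exact Nat.pow_lt_pow_right (by norm_num) (by omega)
      rw [mLam_prime l1 (by omega) hp.2 h4]
      ring
    rw [sum_congr rfl h3]
    refine sum_le_sum_of_subset_of_nonneg ?_ fun n _ _ => mul_nonneg (sq_nonneg _) (sq_nonneg _)
    intro p hp
    unfold pr at hp
    rw [mem_filter, mem_Ico] at hp
    rw [mem_Icc, hX]
    exact ⟨hp.2.one_lt.le, hp.1.2.le⟩
  -- step 2: expand the square
  have hstep2 : ∑ n ∈ Icc 1 X, mLam lam N n ^ 2 * sj χ w j n ^ 2 =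
      ∑ l ∈ S, ∑ l' ∈ S, (w l * w l' / (l * l')) *
        ∑ n ∈ Icc 1 X, mLam lam N n ^ 2 * (χ l n * χ l' n) := by
    have h3 : ∀ n : ℕ, mLam lam N n ^ 2 * sj χ w j n ^ 2 =
        ∑ l ∈ S, ∑ l' ∈ S, (w l * w l' / (l * l')) * (mLam lam N n ^ 2 * (χ l n * χ l' n)) := by
      intro n
      unfold sj
      rw [← hS, sq (∑ l ∈ S, w l * χ l n / l), sum_mul_sum, mul_sum]
      refine sum_congr rfl fun l _ => ?_
      rw [mul_sum]
      refine sum_congr rfl fun l' _ => ?_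
      rw [div_mul_div_comm]
      ring
    rw [sum_congr rfl fun n _ => h3 n, sum_comm]
    refine sum_congr rfl fun l _ => ?_
    rw [sum_comm]
    refine sum_congr rfl fun l' _ => ?_
    rw [mul_sum]
  -- step 3
  obtain ⟨A, hA⟩ : ∃ A : ℝ, A = X * (((1 : ℕ) : ℝ) / ((1 : ℕ).totient : ℝ) / Real.log N) + (N : ℝ) ^ 2 := ⟨_, rfl⟩
  have hD0 : (0 : ℝ) ≤ D := Nat.cast_nonneg D
  have hstep3 : ∀ l ∈ S, ∀ l' ∈ S, (w l * w l' / (l * l')) *
        ∑ n ∈ Icc 1 X, mLam lam N n ^ 2 * (χ l n * χ l' n) ≤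
      (if l = l' then (D : ℝ) ^ 2 * A * (1 / (l : ℝ) ^ 2) else 0) + 4 * (D : ℝ) ^ 2 * (N : ℝ) ^ 2 := by
    intro l hl l' hl'
    obtain ⟨hp, hl2, -⟩ := hSmem l hl
    obtain ⟨hp', hl2', -⟩ := hSmem l' hl'
    have hlr : (0 : ℝ) < l := by exact_mod_cast hp.pos
    have hlr' : (0 : ℝ) < l' := by exact_mod_cast hp'.pos
    have hww : w l * w l' ≤ (D : ℝ) ^ 2 := by
      calc w l * w l' ≤ D * D := mul_le_mul (hwD l) (hwD l') (hw0 l') hD0
        _ = (D : ℝ) ^ 2 := by ring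
    have hww0 : 0 ≤ w l * w l' := mul_nonneg (hw0 l) (hw0 l')
    by_cases hll : l = l'
    · subst hll
      rw [if_pos rfl]
      have h3 := mom_diag χ h1 l X N l2 l5
      rw [← hA] at h3
      have h0 : 0 ≤ ∑ n ∈ Icc 1 X, mLam lam N n ^ 2 * (χ l n * χ l n) :=
        sum_nonneg fun n _ => mul_nonneg (sq_nonneg _) (mul_self_nonneg _)
      have hA0 : 0 ≤ A := h0.trans h3
      have h4 : w l * w l / (l * l) * ∑ n ∈ Icc 1 X, mLam lam N n ^ 2 * (χ l n * χ l n) ≤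
          (D : ℝ) ^ 2 / (l * l) * A :=
        mul_le_mul (div_le_div_of_nonneg_right hww (by positivity)) h3 h0 (by positivity)
      have h5 : (D : ℝ) ^ 2 / (l * l) * A = (D : ℝ) ^ 2 * A * (1 / (l : ℝ) ^ 2) := by
        field_simp
      rw [h5] at h4
      have h6 : 0 ≤ 4 * (D : ℝ) ^ 2 * (N : ℝ) ^ 2 := by positivity
      linarith
    · rw [if_neg hll, zero_add]
      have h3 := mom_off χ h1 hmul (fun M => h2 l l' M hp hp' hl2 hl2' hll) X N l2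
      have h4 : w l * w l' / (l * l') * ∑ n ∈ Icc 1 X, mLam lam N n ^ 2 * (χ l n * χ l' n) ≤
          w l * w l' / (l * l') * ((N : ℝ) ^ 2 * (4 * l * l')) :=
        mul_le_mul_of_nonneg_left h3 (by positivity)
      have h5 : w l * w l' / (l * l') * ((N : ℝ) ^ 2 * (4 * l * l')) = 4 * (w l * w l') * (N : ℝ) ^ 2 := by
        field_simp
      rw [h5] at h4
      refine h4.trans ?_
      have h6 := mul_le_mul_of_nonneg_right hww (by positivity : (0 : ℝ) ≤ (N : ℝ) ^ 2)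
      linarith
  have hstep4 : ∑ l ∈ S, ∑ l' ∈ S, (w l * w l' / (l * l')) *
        ∑ n ∈ Icc 1 X, mLam lam N n ^ 2 * (χ l n * χ l' n) ≤
      (D : ℝ) ^ 2 * A * (∑ l ∈ S, 1 / (l : ℝ) ^ 2) + (S.card : ℝ) ^ 2 * (4 * (D : ℝ) ^ 2 * (N : ℝ) ^ 2) := by
    calc _ ≤ ∑ l ∈ S, ∑ l' ∈ S, ((if l = l' then (D : ℝ) ^ 2 * A * (1 / (l : ℝ) ^ 2) else 0) +
          4 * (D : ℝ) ^ 2 * (N : ℝ) ^ 2) := sum_le_sum fun l hl => sum_le_sum fun l' hl' => hstep3 l hl l' hl'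
      _ = _ := by
        simp only [sum_add_distrib, sum_const, nsmul_eq_mul]
        rw [mul_sum]
        congr 1
        · refine sum_congr rfl fun l hl => ?_
          rw [sum_ite_eq S l, if_pos hl]
        · ring
  -- sizes
  have hlog2 : (1 / 2 : ℝ) ≤ Real.log 2 := by
    have := Real.log_two_gt_d9
    linarith
  have hkr : (1 : ℝ) ≤ k := by exact_mod_cast hk1
  have hlogN : (k : ℝ) / 2 ≤ Real.log N := by
    rw [hN]
    push_cast
    rw [Real.log_pow]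
    nlinarith
  have hir : (i : ℝ) ≤ 15 * k := by exact_mod_cast hk15
  have hi0 : (0 : ℝ) < i := by
    have : 0 < i := by omega
    exact_mod_cast this
  obtain ⟨P, hP⟩ : ∃ P : ℝ, P = (2 : ℝ) ^ i := ⟨_, rfl⟩
  have hP0 : 0 < P := by rw [hP]; positivity
  have hXr : (X : ℝ) = 2 * P := by
    rw [hX, hP]
    push_cast
    ring
  obtain ⟨L, hL⟩ : ∃ L : ℝ, L = (2 : ℝ) ^ 2 ^ j := ⟨_, rfl⟩
  have hL0 : 0 < L := by rw [hL]; positivity
  have hLN : L ≤ N := by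
    rw [hL, hN]
    push_cast
    refine pow_le_pow_right₀ (by norm_num) (le_trans (Nat.pow_le_pow_right (by norm_num) (by omega)) hkj)
  have hkN : (k : ℝ) ≤ N := by
    rw [hN]
    exact_mod_cast (Nat.lt_two_pow_self (n := k)).le
  have hNr : (1 : ℝ) ≤ N := hz.le
  have hNP : (N : ℝ) ^ 8 ≤ P := by
    rw [hN, hP]
    push_cast
    rw [← pow_mul]
    exact pow_le_pow_right₀ (by norm_num) (by omega)
  have hA2 : A ≤ 75 * P / i := by
    have h3 : (X : ℝ) * (((1 : ℕ) : ℝ) / ((1 : ℕ).totient : ℝ) / Real.log N) ≤ 60 * P / i := by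
      rw [Nat.totient_one, Nat.cast_one, div_one, hXr, le_div_iff₀ hi0]
      have h4 : 1 / Real.log N ≤ 2 / k := by
        rw [div_le_div_iff₀ (by linarith) (by linarith)]
        linarith
      have h5 : 1 / Real.log N * i ≤ 30 := by
        calc 1 / Real.log N * i ≤ 2 / k * (15 * k) :=
              mul_le_mul h4 hir hi0.le (by positivity)
          _ = 30 := by field_simp; norm_num
      have h6 := mul_le_mul_of_nonneg_left h5 (by positivity : 0 ≤ 2 * P)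
      linarith
    have h4 : (N : ℝ) ^ 2 ≤ 15 * P / i := by
      rw [le_div_iff₀ hi0]
      calc (N : ℝ) ^ 2 * i ≤ (N : ℝ) ^ 2 * (15 * N) :=
            mul_le_mul_of_nonneg_left (by linarith) (by positivity)
        _ = 15 * (N : ℝ) ^ 3 := by ring
        _ ≤ 15 * (N : ℝ) ^ 8 := by
            have := pow_le_pow_right₀ hNr (by norm_num : 3 ≤ 8)
            linarith
        _ ≤ 15 * P := by linarith
    have h5 : 75 * P / i = 60 * P / i + 15 * P / i := by ring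
    rw [hA, h5]
    linarith
  have hcard : (S.card : ℝ) ≤ N := by
    have h3 : S.card ≤ N := by
      have h4 : S ⊆ range N := fun l hl => mem_range.mpr (hSmem l hl).2.2
      have h5 := card_le_card h4
      rwa [card_range] at h5
    exact_mod_cast h3
  have hinv : ∑ l ∈ S, 1 / (l : ℝ) ^ 2 ≤ 2 / L := by
    have h3 := sum_inv_sq (2 ^ 2 ^ j) (2 ^ 2 ^ (j + 1)) (by
      calc 2 = 2 ^ 1 := rfl
        _ ≤ 2 ^ 2 ^ j := Nat.pow_le_pow_right (by norm_num) Nat.one_le_two_pow)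
    rw [← hS] at h3
    push_cast at h3
    rw [hL]
    exact h3
  have hinv0 : 0 ≤ ∑ l ∈ S, 1 / (l : ℝ) ^ 2 := sum_nonneg fun l _ => by positivity
  have hoff : (S.card : ℝ) ^ 2 * (4 * (D : ℝ) ^ 2 * (N : ℝ) ^ 2) ≤ 60 * (D : ℝ) ^ 2 * (P / (i * L)) := by
    have h3 : (S.card : ℝ) ^ 2 * (N : ℝ) ^ 2 ≤ 15 * (P / (i * L)) := by
      rw [← mul_div_assoc, le_div_iff₀ (by positivity)]
      calc (S.card : ℝ) ^ 2 * (N : ℝ) ^ 2 * (i * L) ≤ (N : ℝ) ^ 2 * (N : ℝ) ^ 2 * ((15 * N) * N) := by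
            have a1 : (S.card : ℝ) ^ 2 ≤ (N : ℝ) ^ 2 := pow_le_pow_left₀ (Nat.cast_nonneg _) hcard 2
            have a2 : (i : ℝ) * L ≤ (15 * N) * N :=
              mul_le_mul (by linarith) hLN hL0.le (by positivity)
            exact mul_le_mul (mul_le_mul_of_nonneg_right a1 (by positivity)) a2 (by positivity) (by positivity)
        _ = 15 * (N : ℝ) ^ 6 := by ring
        _ ≤ 15 * (N : ℝ) ^ 8 := by
            have := pow_le_pow_right₀ hNr (by norm_num : 6 ≤ 8)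
            linarith
        _ ≤ 15 * P := by linarith
    have h4 := mul_le_mul_of_nonneg_left h3 (by positivity : 0 ≤ 4 * (D : ℝ) ^ 2)
    linarith
  have hdiag : (D : ℝ) ^ 2 * A * (∑ l ∈ S, 1 / (l : ℝ) ^ 2) ≤ 150 * (D : ℝ) ^ 2 * (P / (i * L)) := by
    have hD2 : 0 ≤ (D : ℝ) ^ 2 := by positivity
    calc (D : ℝ) ^ 2 * A * (∑ l ∈ S, 1 / (l : ℝ) ^ 2)
        ≤ (D : ℝ) ^ 2 * (75 * P / i) * (2 / L) :=
          mul_le_mul (mul_le_mul_of_nonneg_left hA2 hD2) hinv hinv0 (by positivity)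
      _ = 150 * (D : ℝ) ^ 2 * (P / (i * L)) := by
          field_simp
          ring
  have hfin : (210 * (D : ℝ) ^ 2 + 1) * 2 ^ i / (i * 2 ^ 2 ^ j) =
      150 * (D : ℝ) ^ 2 * (P / (i * L)) + 60 * (D : ℝ) ^ 2 * (P / (i * L)) + P / (i * L) := by
    rw [← hP, ← hL]
    ring
  have hpos : 0 ≤ P / (i * L) := by positivity
  rw [hfin]
  rw [hstep2] at hstep1
  linarith

end Pool.Agent.H37.PS
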