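import Pool.Agent.H37.PS.Defs
import Pool.Agent.H37.PV.Fac
import Pool.Agent.H37.PB.Ro

/-!
PS Sqr: roots modulo the square of a squarefree number (note 5545, (3)).

`B`: larger than the `B` of `simple_root h hi hd` (H37/PV/Fac) and of `rt_card_le` (H37/PB/Ro), `D = h.natDegree`.
A root of `h` modulo `l` lifts uniquely modulo `l²` (see `sq_count` in H37/PB/Sq.lean or PP/Sq.lean), so at most `D` classes modulo `l²`;
induction on `T` with the Chinese remainder theorem (`c ↦ (c % l², c % d²)` is injective on `range (l² d²)`).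
-/

set_option autoImplicit false

namespace Pool.Agent.H37.PS

open Finset Polynomial Pool.Agent.H37.PPC Pool.Agent.H37.PPD Pool.Agent.H37.PB Pool.Agent.H37.PP

private theorem sqr_mod (h : ℤ[X]) (n c : ℕ) (k : ℕ) (hk : n ∣ k) (hc : (k : ℤ) ∣ h.eval (c : ℤ)) :
    (n : ℤ) ∣ h.eval ((c % n : ℕ) : ℤ) := by
  have h1 : (n : ℤ) ∣ h.eval (c : ℤ) := (Int.natCast_dvd_natCast.2 hk).trans hc
  have h2 : ((c : ℤ) - ((c % n : ℕ) : ℤ)) ∣ h.eval (c : ℤ) - h.eval ((c % n : ℕ) : ℤ) :=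
    Polynomial.sub_dvd_eval_sub _ _ _
  have h3 : (n : ℤ) ∣ (c : ℤ) - ((c % n : ℕ) : ℤ) := by
    rw [Int.natCast_mod]
    exact Int.dvd_self_sub_emod
  have h4 := dvd_sub h1 (h3.trans h2)
  rwa [sub_sub_cancel] at h4

private theorem sqr_mul (h : ℤ[X]) (a b : ℕ) (ha : 0 < a) (hb : 0 < b) (hab : Nat.Coprime a b) :
    ((range (a * b)).filter fun c : ℕ => ((a * b : ℕ) : ℤ) ∣ h.eval (c : ℤ)).card ≤
      ((range a).filter fun c : ℕ => (a : ℤ) ∣ h.eval (c : ℤ)).card *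
        ((range b).filter fun c : ℕ => (b : ℤ) ∣ h.eval (c : ℤ)).card := by
  rw [← card_product]
  refine card_le_card_of_injOn (fun c => (c % a, c % b)) ?_ ?_
  · intro c hc
    simp only [coe_filter, Set.mem_ofPred_eq, mem_range] at hc
    simp only [coe_product, Set.mem_prod, coe_filter, Set.mem_ofPred_eq, mem_range]
    exact ⟨⟨Nat.mod_lt _ ha, sqr_mod h a c _ (dvd_mul_right _ _) hc.2⟩,
      ⟨Nat.mod_lt _ hb, sqr_mod h b c _ (dvd_mul_left _ _) hc.2⟩⟩
  · intro c hc c' hc' he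
    simp only [coe_filter, Set.mem_ofPred_eq, mem_range] at hc hc'
    simp only [Prod.mk.injEq] at he
    have h1 : c ≡ c' [MOD a * b] := (Nat.modEq_and_modEq_iff_modEq_mul hab).1 he
    exact Nat.ModEq.eq_of_lt_of_lt h1 hc.1 hc'.1

private theorem sqr_hensel (h : ℤ[X]) (l : ℕ) (hl : l.Prime) (m m' : ℤ) (h1 : (l : ℤ) ^ 2 ∣ h.eval m)
    (h2 : (l : ℤ) ^ 2 ∣ h.eval m') (h3 : (l : ℤ) ∣ m' - m) (h4 : ¬ (l : ℤ) ∣ (derivative h).eval m) :
    (l : ℤ) ^ 2 ∣ m' - m := by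
  obtain ⟨u, hu⟩ := h3
  obtain ⟨k, hk⟩ := Polynomial.binomExpansion h m (m' - m)
  rw [add_sub_cancel] at hk
  have h5 : (l : ℤ) ^ 2 ∣ (derivative h).eval m * (m' - m) := by
    have h6 : (derivative h).eval m * (m' - m) = h.eval m' - h.eval m - k * (m' - m) ^ 2 := by
      rw [hk]
      ring
    rw [h6]
    refine dvd_sub (dvd_sub h2 h1) ?_
    rw [hu, mul_pow]
    exact (dvd_mul_right _ _).mul_left _
  rw [hu] at h5 ⊢
  have h0 : (l : ℤ) ≠ 0 := by exact_mod_cast hl.ne_zero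
  have h7 : (l : ℤ) ∣ (derivative h).eval m * u := by
    have h8 : (l : ℤ) * l ∣ l * ((derivative h).eval m * u) := by
      have h9 : (derivative h).eval m * (l * u) = l * ((derivative h).eval m * u) := by ring
      rw [← h9, ← sq]
      exact h5
    exact (mul_dvd_mul_iff_left h0).1 h8
  have hp : _root_.Prime (l : ℤ) := Nat.prime_iff_prime_int.1 hl
  rw [sq]
  exact mul_dvd_mul_left _ ((hp.dvd_or_dvd h7).resolve_left h4)

private theorem sqr_prime (h : ℤ[X]) (l : ℕ) (hl : l.Prime) (D : ℕ) (hD : (rt h l).card ≤ D)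
    (hs : ∀ a : ℤ, (l : ℤ) ∣ h.eval a → ¬ (l : ℤ) ∣ (derivative h).eval a) :
    ((range (l ^ 2)).filter fun c : ℕ => ((l ^ 2 : ℕ) : ℤ) ∣ h.eval (c : ℤ)).card ≤ D := by
  refine le_trans ?_ hD
  refine card_le_card_of_injOn (fun c => c % l) ?_ ?_
  · intro c hc
    simp only [coe_filter, Set.mem_ofPred_eq, mem_range] at hc
    simp only [rt, coe_filter, Set.mem_ofPred_eq, mem_range]
    exact ⟨Nat.mod_lt _ hl.pos, sqr_mod h l c _ (dvd_pow_self _ two_ne_zero) hc.2⟩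
  · intro c hc c' hc' he
    simp only [coe_filter, Set.mem_ofPred_eq, mem_range] at hc hc'
    have he' : c % l = c' % l := he
    have h3 : (l : ℤ) ∣ (c' : ℤ) - c := (Nat.modEq_iff_dvd).1 he'
    have h1 : (l : ℤ) ^ 2 ∣ h.eval (c : ℤ) := by exact_mod_cast hc.2
    have h2 : (l : ℤ) ^ 2 ∣ h.eval (c' : ℤ) := by exact_mod_cast hc'.2
    have h5 := sqr_hensel h l hl c c' h1 h2 h3 (hs c ((dvd_pow_self _ two_ne_zero).trans h1))
    have h6 : c ≡ c' [MOD l ^ 2] := by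
      rw [Nat.modEq_iff_dvd]
      exact_mod_cast h5
    exact Nat.ModEq.eq_of_lt_of_lt h6 hc.1 hc'.1

theorem roots_sq (h : ℤ[X]) (hi : Irreducible h) (hd : 1 ≤ h.natDegree) :
    ∃ B D : ℕ, ∀ T : Finset ℕ, (∀ l ∈ T, l.Prime ∧ B < l) →
      ((range ((∏ l ∈ T, l) ^ 2)).filter fun c : ℕ => (((∏ l ∈ T, l) ^ 2 : ℕ) : ℤ) ∣ h.eval (c : ℤ)).card ≤ D ^ T.card := by
  classical
  obtain ⟨B1, hB1⟩ := Pool.Agent.H37.PV.simple_root h hi hd
  obtain ⟨B2, hB2⟩ := rt_card_le h hd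
  refine ⟨B1 + B2, h.natDegree, fun T => ?_⟩
  induction T using Finset.induction_on with
  | empty =>
    intro _
    simp
  | insert l T hlT ih =>
    intro hT
    have hl := hT l (mem_insert_self l T)
    have hT' : ∀ q ∈ T, q.Prime ∧ B1 + B2 < q := fun q hq => hT q (mem_insert_of_mem hq)
    have hcop : Nat.Coprime l (∏ q ∈ T, q) := by
      refine Nat.Coprime.prod_right fun q hq => ?_
      refine (Nat.coprime_primes hl.1 (hT' q hq).1).2 ?_
      rintro rfl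
      exact hlT hq
    have hpos : 0 < ∏ q ∈ T, q := prod_pos fun q hq => (hT' q hq).1.pos
    rw [prod_insert hlT, card_insert_of_notMem hlT, mul_pow, pow_succ' h.natDegree]
    refine (sqr_mul h (l ^ 2) ((∏ q ∈ T, q) ^ 2) (pow_pos hl.1.pos 2) (pow_pos hpos 2) (hcop.pow 2 2)).trans ?_
    refine Nat.mul_le_mul ?_ (ih hT')
    exact sqr_prime h l hl.1 _ (hB2 l hl.1 (by omega)) (fun a ha => hB1 l hl.1 (by omega) a ha)

end Pool.Agent.H37.PS
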